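import Pool.Agent.Q218.UD.Var

/-! Gaussian disorder. -/

set_option autoImplicit false
set_option linter.unusedSectionVars false

open MeasureTheory Set Filter Topology ProbabilityTheory

namespace Pool.Agent.Q218.UD

open Pool.Agent.H4R2.LO (Zd)
open Pool.Agent.TH794.QD (Sol)
open Pool.Agent.Q218.AD2 (Psi)
open Q299.GB (grow grow2)

theorem numG (d : ℕ) : ∀ᶠ X : ℝ in Filter.atTop,
    Real.exp (-Real.exp (1 / 102 * X)) +
      (2 * (Real.exp (Real.exp (1 / 4000 * X)) + Real.exp (10 * X)) + 1) ^ d *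
        (2 * Real.exp (-(Real.exp (1 / 3500 * X)) / 2)) ≤ Real.exp (-Real.exp (1 / 4000 * X)) := by
  filter_upwards [grow2 (show (0 : ℝ) < 10 by norm_num) (show (0 : ℝ) < 1 / 4000 by norm_num) 1,
    grow (show (1 / 4000 : ℝ) < 1 / 3500 by norm_num)
      (2 * (d + 1 + d * Real.log 5 + 2 * Real.log 2)),
    grow (show (1 / 4000 : ℝ) < 1 / 102 by norm_num) (1 + Real.log 2),
    Filter.eventually_ge_atTop (0 : ℝ)] with X h1 h2 h3 h4
  obtain ⟨A, hA⟩ : ∃ A, A = Real.exp (1 / 102 * X) := ⟨_, rfl⟩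
  obtain ⟨C, hC⟩ : ∃ C, C = Real.exp (1 / 3500 * X) := ⟨_, rfl⟩
  obtain ⟨D, hD⟩ : ∃ D, D = Real.exp (1 / 4000 * X) := ⟨_, rfl⟩
  rw [← hA, ← hC, ← hD]
  rw [← hD, one_mul] at h1
  rw [← hD, ← hC] at h2
  rw [← hD, ← hA] at h3
  have hD1 : 1 ≤ D := by rw [hD]; exact Real.one_le_exp (by positivity)
  have hl5 : 0 ≤ Real.log 5 := Real.log_nonneg (by norm_num)
  have hl2 : 0 ≤ Real.log 2 := Real.log_nonneg (by norm_num)
  have hd0 : (0 : ℝ) ≤ d := Nat.cast_nonneg d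
  have e5 : Real.exp (Real.log 5) = 5 := Real.exp_log (by norm_num)
  have e2 : Real.exp (Real.log 2) = 2 := Real.exp_log (by norm_num)
  have hone : 1 ≤ Real.exp D := Real.one_le_exp (by linarith)
  have s1 : (2 * (Real.exp D + Real.exp (10 * X)) + 1) ^ d ≤ Real.exp (d * (Real.log 5 + D)) := by
    have g1 : 2 * (Real.exp D + Real.exp (10 * X)) + 1 ≤ Real.exp (Real.log 5 + D) := by
      rw [Real.exp_add, e5]
      linarith
    calc _ ≤ (Real.exp (Real.log 5 + D)) ^ d := pow_le_pow_left₀ (by positivity) g1 d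
      _ = _ := by rw [← Real.exp_nat_mul]
  have s2 : (2 * (Real.exp D + Real.exp (10 * X)) + 1) ^ d * (2 * Real.exp (-C / 2)) ≤
      Real.exp (-D - Real.log 2) := by
    calc _ ≤ Real.exp (d * (Real.log 5 + D)) * (2 * Real.exp (-C / 2)) := by gcongr
      _ = Real.exp (d * (Real.log 5 + D) + (Real.log 2 + -C / 2)) := by
          rw [Real.exp_add, Real.exp_add (Real.log 2), e2]
      _ ≤ _ := by
          apply Real.exp_le_exp.mpr
          have a1 : d * Real.log 5 ≤ d * Real.log 5 * D := le_mul_of_one_le_right (by positivity) hD1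
          have a2 : Real.log 2 ≤ Real.log 2 * D := le_mul_of_one_le_right (by positivity) hD1
          have a3 : 2 * (d + 1 + d * Real.log 5 + 2 * Real.log 2) * D =
            2 * (d * D) + 2 * D + 2 * (d * Real.log 5 * D) + 4 * (Real.log 2 * D) := by ring
          have a4 : (d : ℝ) * (Real.log 5 + D) = d * Real.log 5 + d * D := by ring
          rw [a3] at h2
          rw [a4]
          linarith
  have s3 : Real.exp (-A) ≤ Real.exp (-D - Real.log 2) := by
    apply Real.exp_le_exp.mpr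
    have a2 : Real.log 2 ≤ Real.log 2 * D := le_mul_of_one_le_right (by positivity) hD1
    have a3 : (1 + Real.log 2) * D = D + Real.log 2 * D := by ring
    rw [a3] at h3
    linarith
  have s4 : Real.exp (-D - Real.log 2) + Real.exp (-D - Real.log 2) = Real.exp (-D) := by
    have : Real.exp (-D - Real.log 2) = Real.exp (-D) / 2 := by
      rw [Real.exp_sub, e2]
    rw [this]
    ring
  linarith

theorem gi1 : Integrable (fun s : ℝ => s) (gaussianReal 0 1) := by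
  have h := memLp_id_gaussianReal' (μ := 0) (v := 1) 1 (by norm_num)
  exact h.integrable le_rfl

theorem gi2 : Integrable (fun s : ℝ => (s - 0) ^ 2) (gaussianReal 0 1) := by
  have h := memLp_id_gaussianReal' (μ := 0) (v := 1) 2 (by norm_num)
  simp only [sub_zero]
  exact h.integrable_sq

theorem gM : ∫ s, s ∂(gaussianReal 0 1) = 0 := integral_id_gaussianReal

theorem gV : ∫ s, (s - 0) ^ 2 ∂(gaussianReal 0 1) = 1 := by
  have h := variance_fun_id_gaussianReal (μ := 0) (v := 1)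
  rw [variance_eq_integral (by fun_prop)] at h
  simp only [integral_id_gaussianReal] at h
  exact h

/-- **quantum diffusion for the Gaussian disorder** -/
theorem gauDif (d : ℕ) (hd : 2 ≤ d) (G0 G1 : ℝ → ℝ) (hF : FreeD d G0 G1) (h : ℝ → ℝ)
    (hh : IntegrableOn h (Set.Ioi (0 : ℝ))) (K ε : ℝ) (hK : 0 ≤ K) (hε : 0 < ε) :
    ∃ l0 : ℝ, 0 < l0 ∧ ∀ lam : ℝ, 0 < lam → lam ≤ l0 →
      ∃ G : Set (Zd d → ℝ), MeasurableSet G ∧
        1 - Real.exp (-lam ^ (-(1 / 4000) : ℝ)) ≤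
          (Measure.infinitePi fun _ : Zd d => gaussianReal 0 1).real G ∧
        ∀ ω ∈ G, ∀ a : Zd d, ‖a‖ ≤ Real.exp (lam ^ (-(1 / 4000) : ℝ)) →
          ∀ (E0 : ℝ) (ψ : ℝ → Zd d → ℂ), Sol d (fun x => E0 + lam * ω x) a ψ →
          ∀ T : ℝ, lam ^ (-(2013 / 1000) : ℝ) ≤ T → T ≤ lam ^ (-(2024 / 1000) : ℝ) →
          ∀ q : Fin d → ℝ, ∑ i, q i ^ 2 ≤ K →
            ‖(∫ s in Set.Ioi (0 : ℝ), ((h s : ℝ) : ℂ) * ∑' x : Zd d, Complex.exp (Complex.I *
                ((Real.sqrt (lam ^ 2 / T) * ∑ i, q i * ((x i : ℝ) - a i) : ℝ) : ℂ)) *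
                ((‖ψ (s * T) x‖ ^ 2 : ℝ) : ℂ)) -
              ((∫ s in Set.Ioi (0 : ℝ), h s * Psi G0 G1 (∑ i, q i ^ 2) s : ℝ) : ℂ)‖ ≤ ε := by
  obtain ⟨l1, ρ, hl1, hρ, hdif⟩ := difU d hd G0 G1 hF h hh 1 K ε one_pos hK hε
  obtain ⟨l2, hl2, hvar⟩ := var_lim (gaussianReal 0 1) 0 1 gi1 gi2 gM gV ρ hρ
  obtain ⟨X0, hX0⟩ := Filter.eventually_atTop.1 (numG d)
  refine ⟨min (min l1 l2) (min (Real.exp (-X0)) 1), by positivity, ?_⟩
  intro lam hlam hlam0
  have b1 : lam ≤ l1 := hlam0.trans ((min_le_left _ _).trans (min_le_left _ _))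
  have b2 : lam ≤ l2 := hlam0.trans ((min_le_left _ _).trans (min_le_right _ _))
  have b3 : lam ≤ Real.exp (-X0) := hlam0.trans ((min_le_right _ _).trans (min_le_left _ _))
  have b4 : lam ≤ 1 := hlam0.trans ((min_le_right _ _).trans (min_le_right _ _))
  obtain ⟨B, hB⟩ : ∃ B, B = lam ^ (-(1 / 7000) : ℝ) := ⟨_, rfl⟩
  have hB0 : 0 < B := by rw [hB]; positivity
  obtain ⟨G', hG', hP', hL⟩ := hdif lam hlam b1 (gaussianReal 0 1) inferInstance 0 1 _ _ B hB rfl
    rfl le_rfl (by rw [mul_one]; exact hvar lam hlam b2 B hB)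
  obtain ⟨X, hX⟩ : ∃ X, X = Real.log (1 / lam) := ⟨_, rfl⟩
  have hlog : Real.log lam = -X := by rw [hX, one_div, Real.log_inv, neg_neg]
  have hXX0 : X0 ≤ X := by
    have h1 := Real.log_le_log hlam b3
    rw [Real.log_exp, hlog] at h1
    linarith
  have hrp : ∀ p q : ℝ, q = -p → lam ^ p = Real.exp (q * X) := by
    intro p q hpq
    rw [Real.rpow_def_of_pos hlam, hlog, hpq]
    congr 1
    ring
  have e1 : lam ^ (-(1 / 102) : ℝ) = Real.exp (1 / 102 * X) := hrp _ _ (by norm_num)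
  have e2 : lam ^ (-(1 / 4000) : ℝ) = Real.exp (1 / 4000 * X) := hrp _ _ (by norm_num)
  have e3 : lam ^ (-10 : ℝ) = Real.exp (10 * X) := hrp _ _ (by norm_num)
  have e4 : B ^ 2 = Real.exp (1 / 3500 * X) := by
    rw [hB, ← Real.rpow_natCast, ← Real.rpow_mul hlam.le]
    exact hrp _ _ (by norm_num)
  have htail : (gaussianReal 0 1).real {s | ¬ |s - 0| ≤ B} ≤ 2 * Real.exp (-B ^ 2 / 2) := by
    simp only [sub_zero]
    exact Q299.GB.tail hB0.le
  obtain ⟨G, hGG', hG, hPG, hbox⟩ := evt (d := d) (gaussianReal 0 1) 0 B G' hG' _ _ hP' htail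
    (Real.exp (lam ^ (-(1 / 4000) : ℝ)) + lam ^ (-10 : ℝ)) (by positivity)
  refine ⟨G, hG, ?_, fun ω hω a ha => ?_⟩
  · refine le_trans ?_ hPG
    have h1 := hX0 X hXX0
    rw [e1, e2, e3, e4]
    have e5 : -Real.exp (1 / 3500 * X) / 2 = -(Real.exp (1 / 3500 * X)) / 2 := rfl
    rw [e5]
    linarith
  · intro E0 ψ hψ T hT1 hT2 q hq
    have h1 := hL ω (hGG' hω) a (ha.trans (Real.exp_le_exp.2
      (Real.rpow_le_rpow_of_exponent_ge hlam b4 (by norm_num)))) (fun x hx => hbox ω hω x (by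
        have : ‖x‖ ≤ ‖x - a‖ + ‖a‖ := by
          have := norm_add_le (x - a) a
          rwa [sub_add_cancel] at this
        linarith)) E0 ψ hψ T hT1 hT2 q hq
    rw [mul_one] at h1
    exact h1

end Pool.Agent.Q218.UD
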