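import Pool.Agent.Q218.UD.Par
import Pool.Agent.Q218.UD.FinU
import Pool.Agent.Q218.AD2.Dens3
import Pool.Agent.Q218.AD2.Main
import Pool.Agent.Q218.AD.Lim
import Pool.Agent.TH794.HK.FinM
import Pool.Agent.W193.BK.ES
import Pool.Agent.W240.BK.Var
import Pool.Agent.W540.BK.Fac
import Pool.Agent.W240.BK.Fluct
import Pool.Agent.W918.BK.Osc
import Pool.Agent.W240.BK.Two
import Pool.Agent.W465.BK.QB
import Pool.Agent.W475.BK.Low
import Pool.Agent.W975.BK.Sup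
import Pool.Agent.W790.BK.ADM
import Pool.Agent.W475.BK.Inv
import Pool.Agent.W261.BK.Third

/-! The free densities and the engine, in every dimension. -/

set_option autoImplicit false
set_option linter.unusedSectionVars false

open MeasureTheory Set Filter Topology

namespace Pool.Agent.Q218.UD

open Pool.Agent.W788.BK
open Pool.Agent.H4R2.LO (Zd)
open Pool.Agent.TH794.HK
open Pool.Agent.TH794.QE
open Pool.Agent.TH794.QD (GF F0 F1 GF_im CH_nonneg)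
open Pool.Agent.TH311.LL2D (Bu Bu.near)

/-- the free densities, and the engine for the bulk energies -/
structure FreeD (d : ℕ) (G0 G1 : ℝ → ℝ) : Prop where
  m0 : Measurable G0
  m1 : Measurable G1
  i0 : Integrable G0
  n1 : ∀ E, 0 ≤ G1 E
  n01 : ∀ E, G1 E ≤ G0 E
  mass : ∫ E, G0 E = Real.pi
  pos : ∀ᵐ E : ℝ, G0 E = 0 ∨ 0 < G1 E
  bulk : ∀ ε : ℝ, 0 < ε → ∃ U : Set ℝ, MeasurableSet U ∧ volume U ≠ ⊤ ∧
    volume.real U ≤ 2 * (2 * d) ∧ 1 - Real.pi⁻¹ * ∫ E in U, G0 E ≤ ε ∧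
    ∃ γ0 γ1 : ℝ → ℂ, (∀ E ∈ U, (γ0 E).im = G0 E ∧ (γ1 E).im = G1 E ∧ 0 < G0 E) ∧
      ∀ b Kp : ℝ, 0 < b → 0 ≤ Kp → EngU d (fun E => E ∈ U) γ0 γ1 b Kp

theorem FreeD.n0 {d : ℕ} {G0 G1 : ℝ → ℝ} (h : FreeD d G0 G1) (E : ℝ) : 0 ≤ G0 E :=
  (h.n1 E).trans (h.n01 E)

/-- dimension two -/
theorem free2 : FreeD 2 Pool.Agent.Q218.AD2.R0 Pool.Agent.Q218.AD2.R1 := by
  have hO := Pool.Agent.W918.BK.Osc.osc
  refine ⟨Pool.Agent.Q218.AD2.R0_meas, Pool.Agent.Q218.AD2.R1_meas, Pool.Agent.Q218.AD2.R0_int,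
    Pool.Agent.Q218.AD2.R1_nonneg, Pool.Agent.Q218.AD2.R1_le, Pool.Agent.Q218.AD2.R0_mass,
    ?_, ?_⟩
  · refine Filter.Eventually.of_forall fun E => ?_
    by_cases hE : E ∈ Pool.Agent.Q218.AD2.U0
    · exact Or.inr (Pool.Agent.Q218.AD2.R1_pos hE)
    · exact Or.inl (indicator_of_notMem hE _)
  intro ε hε
  obtain ⟨κ, hκ, hκ1, hκs⟩ := Pool.Agent.Q218.AD2.bulk_small ε hε
  refine ⟨Pool.Agent.Q218.AD2.Bs κ, Pool.Agent.Q218.AD2.Bs_meas κ,
    Pool.Agent.Q218.AD2.Bs_fin κ hκ.le, ?_, hκs, bvl (F0 2), bvl (F1 2), ?_, ?_⟩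
  · have := Pool.Agent.Q218.AD2.Bs_vol κ hκ.le
    push_cast
    linarith
  · intro E hE
    have hU := Pool.Agent.Q218.AD2.Bs_U0 κ hκ hE
    exact ⟨(Pool.Agent.Q218.AD2.R0_eq hU).symm, (Pool.Agent.Q218.AD2.R1_eq hU).symm,
      Pool.Agent.Q218.AD2.R0_pos hU⟩
  intro b Kp hb hKp
  obtain ⟨m, hm, hl⟩ : ∃ m : ℝ, 0 < m ∧ ∀ E, Bu κ E → m ≤ (bvl (F0 2) E).im := by
    refine ⟨κ ^ 2 / (1024 * Real.pi ^ 2), by have := Real.pi_pos; positivity, fun E hE => ?_⟩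
    exact (bvl_low κ hκ hκ1 E hE).trans (bvl_im κ hκ hκ1 E hE).2
  obtain ⟨ka, hka⟩ : ∃ ka, ka = κ / 3 := ⟨_, rfl⟩
  have hka0 : 0 < ka := by rw [hka]; positivity
  have hka1 : ka ≤ 1 := by rw [hka]; linarith
  have hCHge := Pool.Agent.TH311.LL2D.CH_ge ka
  have hdat := dat2 ka hka0 hka1
  have e1 : (11 / 10 : ℝ) = 11 / (5 * ((2 : ℕ) : ℝ)) := by norm_num
  rw [e1] at hdat
  obtain ⟨y0, h0⟩ := engineU Pool.Agent.W193.BK.ES.es
    (Pool.Agent.W261.BK.third Pool.Agent.W540.BK.fac)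
    (Pool.Agent.W240.BK.fluct (Pool.Agent.W240.BK.var Pool.Agent.W193.BK.ES.es))
    Pool.Agent.W475.BK.inv Pool.Agent.W975.BK.sup
    Pool.Agent.W475.BK.low Pool.Agent.W790.BK.ADM.adm Pool.Agent.W540.BK.fac
    2 le_rfl (Bu ka) (Bu (2 * ka)) (fun E => E ∈ Pool.Agent.Q218.AD2.Bs κ) 1700
    (2 * (2600000 / ka ^ 3))
    (2 * Pool.Agent.TH311.LL2D.CH ka) (bvl (F0 2)) (bvl (F1 2)) hdat (by norm_num)
    (by positivity) (by linarith) ka hka0
    (fun E hE => by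
      have hE3 : Bu (3 * ka) E := by
        have e3 : 3 * ka = κ := by rw [hka]; ring
        rw [e3]
        exact hE
      refine ⟨?_, hE3.near (r := 0) (by simp) (by linarith), fun x hx => hE3.near hx (by linarith)⟩
      have := hE.2
      push_cast at this ⊢
      linarith)
    (fun E x hE hx => by
      rw [abs_sub_comm] at hx
      exact hE.near hx (by linarith))
    b (m / 2) Kp hb (by positivity) hKp
    (fun E hE => by
      have h1 := hl E hE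
      linarith)
  exact ⟨y0, h0⟩

/-- the density of states in dimension at least three -/
noncomputable def D0 (d : ℕ) : ℝ → ℝ := fun E => (GF (F0 d) (E : ℂ)).im

/-- the second density -/
noncomputable def D1 (d : ℕ) : ℝ → ℝ := fun E => (GF (F1 d) (E : ℂ)).im

theorem D01 (d : ℕ) (hd : 3 ≤ d) (E : ℝ) : 0 ≤ D1 d E ∧ D1 d E ≤ D0 d E :=
  GF_im Pool.Agent.W918.BK.Osc.osc d hd (E : ℂ) (by simp)

theorem D_low (d : ℕ) (hd : 3 ≤ d) (κ : ℝ) (hκ : 0 < κ) (hκ1 : κ ≤ 1) :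
    ∃ m : ℝ, 0 < m ∧ ∀ E : ℝ, |E| ≤ 2 * d - κ → m ≤ D1 d E := by
  have hO := Pool.Agent.W918.BK.Osc.osc
  obtain ⟨m, hm, hl⟩ := low_all d (by omega) κ hκ hκ1
  refine ⟨m, hm, fun E hE2 => ?_⟩
  have l1 := (Complex.continuous_im.tendsto _).comp (lim3 _ _ (Pool.Agent.TH794.QD.hol1 hO d hd) E)
  have hmem : Set.Ioc (0 : ℝ) 1 ∈ 𝓝[>] (0 : ℝ) := Ioc_mem_nhdsGT one_pos
  refine ge_of_tendsto l1 ?_
  filter_upwards [hmem] with t ht
  exact hl E t hE2 ht.1 ht.2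

theorem D0_ind (d : ℕ) (hd : 3 ≤ d) :
    (Icc (-(2 * (d : ℝ))) (2 * (d : ℝ))).indicator (D0 d) = D0 d := by
  funext E
  by_cases hE : E ∈ Icc (-(2 * (d : ℝ))) (2 * (d : ℝ))
  · rw [indicator_of_mem hE]
  · rw [indicator_of_notMem hE]
    refine (Pool.Agent.Q218.AD.dos_zero Pool.Agent.W918.BK.Osc.osc d hd E ?_).symm
    by_contra hcon
    rw [not_lt] at hcon
    exact hE (abs_le.1 hcon)

theorem D0_int (d : ℕ) (hd : 3 ≤ d) : Integrable (D0 d) := by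
  rw [← D0_ind d hd]
  exact ((Pool.Agent.Q218.AD.gf0_cont Pool.Agent.W918.BK.Osc.osc d hd).continuousOn.integrableOn_compact
    isCompact_Icc).integrable_indicator measurableSet_Icc

theorem D0_mass (d : ℕ) (hd : 3 ≤ d) : ∫ E, D0 d E = Real.pi := by
  have h0 : ∫ E, D0 d E = ∫ E in Icc (-(2 * (d : ℝ))) (2 * (d : ℝ)), D0 d E := by
    conv_lhs => rw [← D0_ind d hd]
    exact integral_indicator measurableSet_Icc
  have h1 := Pool.Agent.Q218.AD.dos_mass Pool.Agent.W918.BK.Osc.osc d hd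
  have hle : -(2 * (d : ℝ)) ≤ 2 * (d : ℝ) := by
    have : (0 : ℝ) ≤ d := Nat.cast_nonneg d
    linarith
  rw [h0, integral_Icc_eq_integral_Ioc, ← intervalIntegral.integral_of_le hle]
  exact h1

/-- dimension at least three -/
theorem free3 (d : ℕ) (hd : 3 ≤ d) : FreeD d (D0 d) (D1 d) := by
  have hO := Pool.Agent.W918.BK.Osc.osc
  have c0 : Continuous (D0 d) := Pool.Agent.Q218.AD.gf0_cont hO d hd
  have c1 : Continuous (D1 d) := Pool.Agent.Q218.AD.gf1_cont hO d hd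
  have hd3 : (3 : ℝ) ≤ d := by exact_mod_cast hd
  refine ⟨c0.measurable, c1.measurable, D0_int d hd, fun E => (D01 d hd E).1,
    fun E => (D01 d hd E).2, D0_mass d hd, ?_, ?_⟩
  · have hne : ∀ᵐ E : ℝ ∂volume, E ≠ 2 * (d : ℝ) := by
      rw [ae_iff]
      simp
    have hne' : ∀ᵐ E : ℝ ∂volume, E ≠ -(2 * (d : ℝ)) := by
      rw [ae_iff]
      simp
    filter_upwards [hne, hne'] with E h1 h2
    rcases lt_trichotomy |E| (2 * (d : ℝ)) with h | h | h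
    · right
      obtain ⟨κ, hκ⟩ : ∃ κ, κ = min 1 (2 * d - |E|) := ⟨_, rfl⟩
      have hκ0 : 0 < κ := by rw [hκ]; exact lt_min one_pos (by linarith)
      obtain ⟨m, hm, hl⟩ := D_low d hd κ hκ0 (by rw [hκ]; exact min_le_left _ _)
      refine hm.trans_le (hl E ?_)
      have : κ ≤ 2 * d - |E| := by rw [hκ]; exact min_le_right _ _
      linarith
    · exfalso
      rcases (abs_eq (by positivity)).1 h with h | h
      · exact h1 h
      · exact h2 h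
    · left
      exact Pool.Agent.Q218.AD.dos_zero hO d hd E h
  intro ε hε
  have hm := Pool.Agent.Q218.AD.dos_mass hO d hd
  obtain ⟨κ, hκ, hκ1, hκs⟩ := Pool.Agent.Q218.AD.edge_small (X := 2 * (d : ℝ)) (G0 := D0 d) c0 hm ε hε
  have hle : -(2 * (d : ℝ) - κ) ≤ 2 * (d : ℝ) - κ := by linarith
  obtain ⟨m, hml0, hl⟩ := D_low d hd κ hκ hκ1
  refine ⟨Icc (-(2 * (d : ℝ) - κ)) (2 * (d : ℝ) - κ), measurableSet_Icc, ?_, ?_, ?_,
    fun E => GF (F0 d) (E : ℂ), fun E => GF (F1 d) (E : ℂ), ?_, ?_⟩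
  · rw [Real.volume_Icc]
    exact ENNReal.ofReal_ne_top
  · rw [Real.volume_real_Icc_of_le hle]
    linarith
  · rw [integral_Icc_eq_integral_Ioc, ← intervalIntegral.integral_of_le hle]
    exact hκs
  · intro E hE
    refine ⟨rfl, rfl, ?_⟩
    have h1 := hl E (abs_le.2 hE)
    have h2 := (D01 d hd E).2
    linarith
  intro b Kp hb hKp
  have hQB := Pool.Agent.W465.BK.qb (Pool.Agent.W240.BK.two hO)
  obtain ⟨CQ, hCQ, hdat⟩ := dat3 hQB hO d hd
  obtain ⟨y0, h0⟩ := engineU Pool.Agent.W193.BK.ES.es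
    (Pool.Agent.W261.BK.third Pool.Agent.W540.BK.fac)
    (Pool.Agent.W240.BK.fluct (Pool.Agent.W240.BK.var Pool.Agent.W193.BK.ES.es))
    Pool.Agent.W475.BK.inv Pool.Agent.W975.BK.sup
    Pool.Agent.W475.BK.low Pool.Agent.W790.BK.ADM.adm Pool.Agent.W540.BK.fac
    d (by omega) (fun _ => True)
    (fun _ => True) (fun E => E ∈ Icc (-(2 * (d : ℝ) - κ)) (2 * (d : ℝ) - κ)) C1 CQ
    (Pool.Agent.TH794.QD.CH d) (fun E => GF (F0 d) (E : ℂ)) (fun E => GF (F1 d) (E : ℂ)) hdat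
    C1_ge hCQ (CH_nonneg d) 1 one_pos
    (fun E hE => by
      refine ⟨?_, trivial, fun x hx => trivial⟩
      have := abs_le.2 hE
      linarith)
    (fun E x hE hx => trivial)
    b (m / 2) Kp hb (by positivity) hKp
    (fun E hE => by
      have h1 := hl E (abs_le.2 hE)
      have h2 := (D01 d hd E).2
      unfold D0 D1 at *
      linarith)
  exact ⟨y0, h0⟩

end Pool.Agent.Q218.UD
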