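import Pool.Agent.Q218.UD.Loc
import Pool.Agent.Q218.UD.Free

/-! From the diffusion to the localization length. -/

set_option autoImplicit false
set_option linter.unusedSectionVars false

open scoped BigOperators Topology
open MeasureTheory Filter Set

namespace Pool.Agent.Q218.UD

open Pool.Agent.W788.LD.Spec (S)
open Pool.Agent.H4R2.LO (Zd)
open Pool.Agent.TH794.QD (Sol HS hmk hs_sum)
open Pool.Agent.Q218.AD (Phi small_rpow loc_num)
open Pool.Agent.Q218.AD2 (Psi psi_int psi_bd)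

variable {d : ℕ}

/-- the law is small for large frequencies -/
theorem psi_smallU {G0 G1 : ℝ → ℝ} (hF : FreeD d G0 G1) (ε : ℝ) (hε : 0 < ε) :
    ∃ q0 : ℝ, 0 < q0 ∧
    ∀ Q s : ℝ, q0 ^ 2 ≤ Q → 1 ≤ s → 0 ≤ Psi G0 G1 Q s ∧ Psi G0 G1 Q s ≤ ε := by
  have hlim : Tendsto (fun n : ℕ => Psi G0 G1 (((n : ℝ) + 1) ^ 2) 1) atTop (𝓝 0) := by
    have h0 : (0 : ℝ) = Real.pi⁻¹ * ∫ _E : ℝ, (0 : ℝ) := by simp
    unfold Psi
    rw [h0]
    refine Tendsto.const_mul _ ?_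
    refine tendsto_integral_of_dominated_convergence G0 ?_ hF.i0 ?_ ?_
    · exact fun n => (psi_int hF.m0 hF.m1 hF.i0 hF.n0 hF.n1 _ _ (by positivity)
        zero_le_one).aestronglyMeasurable
    · intro n
      refine Filter.Eventually.of_forall fun E => ?_
      have h1 := hF.n0 E
      have h2 := hF.n1 E
      rw [Real.norm_of_nonneg (by positivity)]
      refine mul_le_of_le_one_right h1 (Real.exp_le_one_iff.2 ?_)
      have : 0 ≤ 2 * 1 * (G1 E / G0 E ^ 2) * ((n : ℝ) + 1) ^ 2 := by positivity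
      linarith
    · filter_upwards [hF.pos] with E hE
      rcases hE with h1 | h2
      · simp only [h1, zero_mul]
        exact tendsto_const_nhds
      · have h1 : 0 < G0 E := h2.trans_le (hF.n01 E)
        have h3 : Tendsto (fun n : ℕ => 2 * 1 * (G1 E / G0 E ^ 2) * ((n : ℝ) + 1) ^ 2) atTop
            atTop := by
          apply Tendsto.const_mul_atTop
          · positivity
          · have h3 : Tendsto (fun n : ℕ => (n : ℝ) + 1) atTop atTop :=
              tendsto_natCast_atTop_atTop.atTop_add tendsto_const_nhds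
            exact (tendsto_pow_atTop two_ne_zero).comp h3
        have h4 := (Real.tendsto_exp_neg_atTop_nhds_zero.comp h3).const_mul (G0 E)
        rw [mul_zero] at h4
        exact h4
  obtain ⟨n, hn⟩ := (hlim.eventually_le_const hε).exists
  refine ⟨(n : ℝ) + 1, by positivity, fun Q s hQ hs => ?_⟩
  have hQ0 : 0 ≤ Q := le_trans (by positivity) hQ
  have hs0 : 0 ≤ s := by linarith
  refine ⟨(psi_bd hF.m0 hF.m1 hF.i0 hF.n0 hF.n1 hF.mass Q s hQ0 hs0).1, ?_⟩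
  refine le_trans ?_ hn
  unfold Psi
  refine mul_le_mul_of_nonneg_left ?_ (by positivity)
  refine integral_mono (psi_int hF.m0 hF.m1 hF.i0 hF.n0 hF.n1 Q s hQ0 hs0)
    (psi_int hF.m0 hF.m1 hF.i0 hF.n0 hF.n1 _ _ (by positivity) zero_le_one) fun E => ?_
  have h1 := hF.n0 E
  have h2 := hF.n1 E
  refine mul_le_mul_of_nonneg_left (Real.exp_le_exp.2 ?_) h1
  have h3 : 0 ≤ G1 E / G0 E ^ 2 := by positivity
  have h4 : 2 * 1 * (G1 E / G0 E ^ 2) * ((n : ℝ) + 1) ^ 2 ≤ 2 * s * (G1 E / G0 E ^ 2) * Q := by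
    gcongr
  linarith

theorem ind_int {E : Type*} [NormedAddCommGroup E] [NormedSpace ℝ E] (P : ℝ → E) :
    ∫ s in Set.Ioi (0 : ℝ), Set.indicator (Set.Ioc (1 : ℝ) 2) P s = ∫ s in Set.Ioc (1 : ℝ) 2, P s := by
  rw [setIntegral_indicator measurableSet_Ioc]
  congr 2
  ext s
  simp only [Set.mem_inter_iff, Set.mem_Ioi, Set.mem_Ioc]
  constructor
  · exact fun h => h.2
  · exact fun h => ⟨by linarith [h.1], h⟩

/-- **from the diffusion to the localization length** -/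
theorem locU (hd : 1 ≤ d) (G0 G1 : ℝ → ℝ) (hF : FreeD d G0 G1) (ε k Vm : ℝ) (hε : 0 < ε)
    (hVm : 0 < Vm) : ∃ K ε' l0 : ℝ, 0 ≤ K ∧ 0 < ε' ∧ 0 < l0 ∧ ∀ lam : ℝ, 0 < lam → lam ≤ l0 →
    ∀ V : ℝ, 0 < V → V ≤ Vm ^ 2 → ∀ (W : Zd d → ℝ) (a : Zd d) (ψ : ℝ → Zd d → ℂ), Sol d W a ψ →
    (∀ q : Fin d → ℝ, ∑ i, q i ^ 2 ≤ K →
      ‖(∫ s in Set.Ioi (0 : ℝ), ((Set.indicator (Set.Ioc (1 : ℝ) 2) 1 s : ℝ) : ℂ) *
          ∑' x : Zd d, Complex.exp (Complex.I *
            ((Real.sqrt (lam ^ 2 * V / lam ^ (-(2024 / 1000) : ℝ)) *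
              ∑ i, q i * ((x i : ℝ) - a i) : ℝ) : ℂ)) *
            ((‖ψ (s * lam ^ (-(2024 / 1000) : ℝ)) x‖ ^ 2 : ℝ) : ℂ)) -
        ((∫ s in Set.Ioi (0 : ℝ), Set.indicator (Set.Ioc (1 : ℝ) 2) 1 s *
          Psi G0 G1 (∑ i, q i ^ 2) s : ℝ) : ℂ)‖ ≤ ε') →
    ∀ (J : Type) (f : J → HS d), Orthonormal ℂ f → ∀ (E : J → ℝ),
    (∀ j x, -S (fun y => f j y) x + (W x : ℂ) * f j x = (E j : ℂ) * f j x) →
    ∀ c : J → Zd d,
    (∀ j x, ‖f j x‖ ≤ lam ^ (-k) * Real.exp (-(lam ^ (201 / 100 : ℝ) * ‖x - c j‖))) →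
    ∀ s : Finset J, ∑ j ∈ s, ‖f j a‖ ^ 2 ≤ ε := by
  -- the number of the frequencies
  obtain ⟨N, hN⟩ := exists_nat_gt (32 / ε)
  have hN0 : (0 : ℝ) < N := lt_trans (by positivity) hN
  have hN1 : 1 ≤ N := by
    have : (0 : ℕ) < N := by exact_mod_cast hN0
    omega
  have hN4 : 4 / (N : ℝ) ≤ ε / 8 := by
    rw [div_le_div_iff₀ hN0 (by norm_num)]
    rw [div_lt_iff₀ hε] at hN
    linarith
  obtain ⟨q0, hq0, hlaw⟩ := psi_smallU hF (ε / 64) (by positivity)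
  obtain ⟨l2, hl2, hs2⟩ := small_rpow (1 / 1000) (1 / (2 * Vm * q0 * N)) (by norm_num)
    (by positivity)
  obtain ⟨l3, hl3, hs3⟩ := loc_num d k (ε / 4) (by positivity)
  refine ⟨(N * q0) ^ 2, ε / 64, min l2 (min l3 1), by positivity, by positivity, by positivity, ?_⟩
  intro lam hlam hlam0 V hV0 hVb W a ψ hS hall J f hf E he c hdec s
  have hlam2' : lam ≤ l2 := hlam0.trans (min_le_left _ _)
  have hlam3' : lam ≤ l3 := hlam0.trans ((min_le_right _ _).trans (min_le_left _ _))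
  have hlam4' : lam ≤ 1 := hlam0.trans ((min_le_right _ _).trans (min_le_right _ _))
  obtain ⟨T, hT⟩ : ∃ T : ℝ, T = lam ^ (-(2024 / 1000) : ℝ) := ⟨_, rfl⟩
  have hT0 : 0 < T := by rw [hT]; positivity
  rw [← hT] at hall
  obtain ⟨β, hβ⟩ : ∃ β, β = Real.sqrt (lam ^ 2 * V / T) := ⟨_, rfl⟩
  have hβ0 : 0 ≤ β := by rw [hβ]; exact Real.sqrt_nonneg _
  obtain ⟨R, hR⟩ : ∃ R : ℝ, R = lam ^ (-(2011 / 1000) : ℝ) := ⟨_, rfl⟩
  have hR0 : 0 < R := by rw [hR]; positivity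
  have hβR : β * (q0 * R) * N ≤ 1 := by
    have h1 : β ≤ Vm * lam ^ (2012 / 1000 : ℝ) := by
      rw [hβ]
      apply Real.sqrt_le_iff.2
      refine ⟨by positivity, ?_⟩
      have h2 : (lam ^ (2012 / 1000 : ℝ)) ^ 2 = lam ^ 2 / T := by
        rw [hT, ← Real.rpow_natCast, ← Real.rpow_mul hlam.le, ← Real.rpow_natCast lam 2,
          ← Real.rpow_sub hlam]
        norm_num
      rw [mul_pow, h2]
      have h3 : lam ^ 2 * V / T = V * (lam ^ 2 / T) := by ring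
      rw [h3]
      gcongr
    have h2 := hs2 lam hlam hlam2'
    have h3 : lam ^ (2012 / 1000 : ℝ) * R = lam ^ (1 / 1000 : ℝ) := by
      rw [hR, ← Real.rpow_add hlam]
      norm_num
    calc β * (q0 * R) * N ≤ Vm * lam ^ (2012 / 1000 : ℝ) * (q0 * R) * N := by gcongr
      _ = Vm * q0 * N * (lam ^ (2012 / 1000 : ℝ) * R) := by ring
      _ = Vm * q0 * N * lam ^ (1 / 1000 : ℝ) := by rw [h3]
      _ ≤ Vm * q0 * N * (1 / (2 * Vm * q0 * N)) := by gcongr
      _ = 1 / 2 := by field_simp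
      _ ≤ 1 := by norm_num
  obtain ⟨hn1, hn2, hn3⟩ := hs3 lam hlam hlam3'
  have key := loc_mainU hd hS f hf E he
    (lam ^ (201 / 100 : ℝ)) (by positivity) hn1 (lam ^ (-k)) R hR0.le c hdec (by
      rw [hR]
      exact hn2) (16 / ε) (by positivity) ⟨0, by omega⟩ N hN1 q0 T β (ε / 32) hq0 hβ0 hβR
    (by positivity) (fun q h1 h2 => by
      have h3 := hall q h2
      obtain ⟨P, hP⟩ : ∃ P : ℝ → ℂ, P = fun s => Phi ψ (fun x => Complex.exp (Complex.I *
        ((β * ∑ i, q i * ((x i : ℝ) - a i) : ℝ) : ℂ))) (s * T) := ⟨_, rfl⟩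
      have e1 : ∀ s, (∑' x : Zd d, Complex.exp (Complex.I *
          ((Real.sqrt (lam ^ 2 * V / T) * ∑ i, q i * ((x i : ℝ) - a i) : ℝ) : ℂ)) *
          ((‖ψ (s * T) x‖ ^ 2 : ℝ) : ℂ)) = P s := by
        intro s
        rw [hP, hβ]
        rfl
      simp only [e1] at h3
      have e2 : ∫ s in Set.Ioi (0 : ℝ), ((Set.indicator (Set.Ioc (1 : ℝ) 2) 1 s : ℝ) : ℂ) * P s =
          ∫ s in Set.Ioc (1 : ℝ) 2, P s := by
        rw [← ind_int]
        congr 1
        funext s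
        by_cases hs : s ∈ Set.Ioc (1 : ℝ) 2
        · rw [Set.indicator_of_mem hs, Set.indicator_of_mem hs, Pi.one_apply,
            Complex.ofReal_one, one_mul]
        · rw [Set.indicator_of_notMem hs, Set.indicator_of_notMem hs, Complex.ofReal_zero,
            zero_mul]
      have e3 : ∫ s in Set.Ioi (0 : ℝ), Set.indicator (Set.Ioc (1 : ℝ) 2) 1 s *
          Psi G0 G1 (∑ i, q i ^ 2) s = ∫ s in Set.Ioc (1 : ℝ) 2, Psi G0 G1 (∑ i, q i ^ 2) s := by
        rw [← ind_int]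
        congr 1
        funext s
        by_cases hs : s ∈ Set.Ioc (1 : ℝ) 2
        · rw [Set.indicator_of_mem hs, Set.indicator_of_mem hs, Pi.one_apply, one_mul]
        · rw [Set.indicator_of_notMem hs, Set.indicator_of_notMem hs, zero_mul]
      rw [e2, e3] at h3
      have h4 : ‖((∫ s in Set.Ioc (1 : ℝ) 2, Psi G0 G1 (∑ i, q i ^ 2) s : ℝ) : ℂ)‖ ≤ ε / 64 := by
        rw [Complex.norm_real]
        refine (norm_setIntegral_le_of_norm_le_const (C := ε / 64) (by simp)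
          fun s hs => ?_).trans ?_
        · obtain ⟨h5, h6⟩ := hlaw _ s h1 hs.1.le
          rw [Real.norm_of_nonneg h5]
          exact h6
        · rw [Real.volume_real_Ioc_of_le (by norm_num)]
          norm_num
      have h5 := norm_le_norm_sub_add (∫ s in Set.Ioc (1 : ℝ) 2, P s)
        ((∫ s in Set.Ioc (1 : ℝ) 2, Psi G0 G1 (∑ i, q i ^ 2) s : ℝ) : ℂ)
      rw [← hP]
      linarith) s
  have h16 : (16 / ε)⁻¹ = ε / 16 := by rw [inv_div]
  have h4e : 4 / (ε / 4) = 16 / ε := by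
    field_simp
    norm_num
  rw [h4e] at hn3
  rw [hR, h16] at key
  linarith

end Pool.Agent.Q218.UD
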