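import Pool.Agent.Q218.AD.Loc1

/-! The coefficients of the evolution with respect to an eigenfunction, for an arbitrary
(unbounded) potential. -/

set_option autoImplicit false
set_option linter.unusedSectionVars false

open scoped BigOperators Topology
open MeasureTheory Filter Set

namespace Pool.Agent.Q218.UD

open Pool.Agent.W788.LD.Spec (S)
open Pool.Agent.H4R2.LO (Zd)
open Pool.Agent.TH794.QD (Sol hmk hmk_apply Hop Hop_apply hs_sum)
open Pool.Agent.Q218.AD (Dv Dv_cont cf cf_summ)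

variable {d : ℕ} {V : Zd d → ℝ} {a : Zd d} {ψ : ℝ → Zd d → ℂ}

/-- the hopping operator is bounded -/
theorem S_l2 (d : ℕ) : ∃ C : ℝ, 0 ≤ C ∧ ∀ u : Zd d → ℂ, (Summable fun x => ‖u x‖ ^ 2) →
    (Summable fun x => ‖S u x‖ ^ 2) ∧ ∑' x, ‖S u x‖ ^ 2 ≤ C * ∑' x, ‖u x‖ ^ 2 := by
  have hV : ∀ x : Zd d, |(fun _ : Zd d => (0 : ℝ)) x| ≤ (0 : ℝ) := fun x => by simp
  refine ⟨‖Hop (fun _ : Zd d => (0 : ℝ)) 0 le_rfl hV‖ ^ 2, by positivity, fun u hu => ?_⟩
  have e1 : ∀ x, ‖S u x‖ ^ 2 = ‖Hop (fun _ : Zd d => (0 : ℝ)) 0 le_rfl hV (hmk u hu) x‖ ^ 2 := by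
    intro x
    rw [Hop_apply]
    simp only [Complex.ofReal_zero, zero_mul, add_zero, norm_neg]
    rfl
  have h1 := hs_sum (Hop (fun _ : Zd d => (0 : ℝ)) 0 le_rfl hV (hmk u hu))
  simp only [e1]
  refine ⟨h1.summable, ?_⟩
  rw [h1.tsum_eq]
  have h2 := (Hop (fun _ : Zd d => (0 : ℝ)) 0 le_rfl hV).le_opNorm (hmk u hu)
  have h4 := hs_sum (hmk u hu)
  have h5 : ∑' x, ‖u x‖ ^ 2 = ‖hmk u hu‖ ^ 2 := h4.tsum_eq
  rw [h5, ← mul_pow]
  exact pow_le_pow_left₀ (norm_nonneg _) h2 2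

/-- the potential times an eigenfunction -/
theorem Vphi (φ : Zd d → ℂ) (hφ : Summable fun x => ‖φ x‖ ^ 2) (E : ℝ)
    (he : ∀ x, -S φ x + (V x : ℂ) * φ x = (E : ℂ) * φ x) :
    Summable fun x => ‖(V x : ℂ) * φ x‖ ^ 2 := by
  obtain ⟨C, hC, h⟩ := S_l2 d
  obtain ⟨h1, -⟩ := h φ hφ
  refine Summable.of_nonneg_of_le (fun x => sq_nonneg _) (fun x => ?_)
    ((hφ.mul_left (2 * E ^ 2)).add (h1.mul_left 2))
  have h2 : (V x : ℂ) * φ x = (E : ℂ) * φ x + S φ x := by linear_combination he x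
  rw [h2]
  have h3 := norm_add_le ((E : ℂ) * φ x) (S φ x)
  have h4 : ‖(E : ℂ) * φ x‖ ^ 2 = E ^ 2 * ‖φ x‖ ^ 2 := by
    rw [norm_mul, mul_pow, Complex.norm_real, Real.norm_eq_abs, sq_abs]
  have h5 : ‖(E : ℂ) * φ x + S φ x‖ ^ 2 ≤ (‖(E : ℂ) * φ x‖ + ‖S φ x‖) ^ 2 :=
    pow_le_pow_left₀ (norm_nonneg _) h3 2
  nlinarith [sq_nonneg (‖(E : ℂ) * φ x‖ - ‖S φ x‖)]

theorem cf_genU (h : Sol d V a ψ) (φ : Zd d → ℂ) (hφ : Summable fun x => ‖φ x‖ ^ 2) (E : ℝ)
    (he : ∀ x, -S φ x + (V x : ℂ) * φ x = (E : ℂ) * φ x) (s : ℝ) :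
    ∑' x, (starRingEnd ℂ) (φ x) * Dv V ψ s x = -Complex.I * E * cf φ ψ s := by
  have hs := (h.norm s).summable
  obtain ⟨s1, s2, e1⟩ := Pool.Agent.W788.LD.Spec.symm φ (ψ s) hφ hs
  have s0 := cf_summ h φ hφ s
  have s3 : Summable fun x => (starRingEnd ℂ) (φ x) * ((V x : ℂ) * ψ s x) := by
    have h1 := Pool.Agent.W788.LD.Spec.summ_mul (fun x => (V x : ℂ) * φ x) (ψ s)
      (Vphi φ hφ E he) hs
    refine h1.congr fun x => ?_
    rw [map_mul, Complex.conj_ofReal]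
    ring
  have e2 : ∀ x, (starRingEnd ℂ) (φ x) * Dv V ψ s x = Complex.I * ((starRingEnd ℂ) (φ x) *
      S (ψ s) x) + (-Complex.I) * ((starRingEnd ℂ) (φ x) * ((V x : ℂ) * ψ s x)) := by
    intro x
    unfold Dv
    ring
  simp only [e2]
  rw [Summable.tsum_add (s1.mul_left _) (s3.mul_left _), tsum_mul_left, tsum_mul_left, e1]
  have e3 : ∀ x, (starRingEnd ℂ) (S φ x) * ψ s x = (starRingEnd ℂ) (φ x) * ((V x : ℂ) * ψ s x) -
      E * ((starRingEnd ℂ) (φ x) * ψ s x) := by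
    intro x
    have h1 : S φ x = (V x : ℂ) * φ x - E * φ x := by
      linear_combination (-1 : ℂ) * he x
    rw [h1, map_sub, map_mul, map_mul, Complex.conj_ofReal, Complex.conj_ofReal]
    ring
  simp only [e3]
  rw [Summable.tsum_sub s3 (s0.mul_left _), tsum_mul_left]
  unfold cf
  ring

theorem cf_intU (h : Sol d V a ψ) (φ : Zd d → ℂ) (hφ : Summable fun x => ‖φ x‖ ^ 2) (E : ℝ)
    (he : ∀ x, -S φ x + (V x : ℂ) * φ x = (E : ℂ) * φ x)
    (t0 t1 : ℝ) (ht : t0 ≤ t1) :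
    cf φ ψ t1 - cf φ ψ t0 = ∫ s in t0..t1, -Complex.I * E * cf φ ψ s := by
  obtain ⟨C, hC, hSb⟩ := S_l2 d
  have hVφ := Vphi φ hφ E he
  rw [intervalIntegral.integral_of_le ht]
  simp only [← cf_genU h φ hφ E he]
  obtain ⟨μ, hμ⟩ : ∃ μ : Measure ℝ, μ = volume.restrict (Ioc t0 t1) := ⟨_, rfl⟩
  have hfin : IsFiniteMeasure μ := by
    rw [hμ]
    exact ⟨by simp⟩
  rw [← hμ]
  have cD := Dv_cont h
  have i1 : ∀ x, Integrable (fun s => (starRingEnd ℂ) (φ x) * Dv V ψ s x) μ := fun x => by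
    refine Integrable.const_mul ?_ _
    rw [hμ, ← IntegrableOn, ← intervalIntegrable_iff_integrableOn_Ioc_of_le ht]
    exact (cD x).intervalIntegrable _ _
  have hpt : ∀ s x, ‖(starRingEnd ℂ) (φ x) * Dv V ψ s x‖ ≤
      (‖φ x‖ ^ 2 + ‖(V x : ℂ) * φ x‖ ^ 2) + (‖S (ψ s) x‖ ^ 2 + ‖ψ s x‖ ^ 2) := by
    intro s x
    have h1 : ‖(starRingEnd ℂ) (φ x) * Dv V ψ s x‖ ≤
        ‖φ x‖ * ‖S (ψ s) x‖ + ‖(V x : ℂ) * φ x‖ * ‖ψ s x‖ := by
      have h2 : (starRingEnd ℂ) (φ x) * Dv V ψ s x = Complex.I * ((starRingEnd ℂ) (φ x) *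
          S (ψ s) x) + (-Complex.I) * ((starRingEnd ℂ) ((V x : ℂ) * φ x) * ψ s x) := by
        unfold Dv
        rw [map_mul, Complex.conj_ofReal]
        ring
      rw [h2]
      refine (norm_add_le _ _).trans (le_of_eq ?_)
      simp only [norm_mul, norm_neg, Complex.norm_I, one_mul, Complex.norm_conj]
    nlinarith [sq_nonneg (‖φ x‖ - ‖S (ψ s) x‖), sq_nonneg (‖(V x : ℂ) * φ x‖ - ‖ψ s x‖),
      sq_nonneg (‖φ x‖), sq_nonneg (‖S (ψ s) x‖), sq_nonneg (‖(V x : ℂ) * φ x‖),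
      sq_nonneg (‖ψ s x‖)]
  have hsm : Summable fun x => ∫ s, ‖(starRingEnd ℂ) (φ x) * Dv V ψ s x‖ ∂μ := by
    obtain ⟨K, hK⟩ : ∃ K, K = (∑' x, ‖φ x‖ ^ 2 + ∑' x, ‖(V x : ℂ) * φ x‖ ^ 2) + (C + 1) :=
      ⟨_, rfl⟩
    refine summable_of_sum_le (c := μ.real univ * K) (fun x => integral_nonneg fun s =>
      norm_nonneg _) fun F => ?_
    rw [← integral_finsetSum _ fun x _ => (i1 x).norm]
    refine (integral_mono (integrable_finsetSum _ fun x _ => (i1 x).norm) (integrable_const K)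
      fun s => ?_).trans (le_of_eq ?_)
    · refine (Finset.sum_le_sum fun x _ => hpt s x).trans ?_
      rw [Finset.sum_add_distrib, Finset.sum_add_distrib, Finset.sum_add_distrib, hK]
      obtain ⟨g1, g2⟩ := hSb (ψ s) (h.norm s).summable
      rw [(h.norm s).tsum_eq, mul_one] at g2
      have k1 := hφ.sum_le_tsum F fun x _ => sq_nonneg _
      have k2 := hVφ.sum_le_tsum F fun x _ => sq_nonneg _
      have k3 := (g1.sum_le_tsum F fun x _ => sq_nonneg _).trans g2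
      have k4 := (h.norm s).summable.sum_le_tsum F fun x _ => sq_nonneg _
      rw [(h.norm s).tsum_eq] at k4
      linarith
    · rw [integral_const, smul_eq_mul]
  have key := hasSum_integral_of_summable_integral_norm i1 hsm
  rw [← key.tsum_eq]
  unfold cf
  rw [← Summable.tsum_sub (cf_summ h φ hφ t1) (cf_summ h φ hφ t0)]
  refine tsum_congr fun x => ?_
  have h3 : ∫ s in t0..t1, Dv V ψ s x = ψ t1 x - ψ t0 x :=
    intervalIntegral.integral_eq_sub_of_hasDerivAt (f := fun s => ψ s x) (fun s _ => h.ode s x)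
      ((cD x).intervalIntegrable _ _)
  rw [hμ, integral_const_mul, ← intervalIntegral.integral_of_le ht, h3]
  ring

/-- **the coefficients with respect to an eigenfunction** -/
theorem cf_eqU (h : Sol d V a ψ) (φ : Zd d → ℂ) (hφ : Summable fun x => ‖φ x‖ ^ 2) (E : ℝ)
    (he : ∀ x, -S φ x + (V x : ℂ) * φ x = (E : ℂ) * φ x) (t : ℝ) :
    cf φ ψ t = Complex.exp (-Complex.I * E * t) * (starRingEnd ℂ) (φ a) := by
  have hint : ∀ t, cf φ ψ t = cf φ ψ 0 + ∫ s in (0 : ℝ)..t, -Complex.I * E * cf φ ψ s := by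
    intro t
    rcases le_total 0 t with h0 | h0
    · rw [← cf_intU h φ hφ E he 0 t h0]
      ring
    · rw [intervalIntegral.integral_symm, ← cf_intU h φ hφ E he t 0 h0]
      ring
  have hm : Measurable (cf φ ψ) := by
    unfold cf
    refine Measurable.tsum fun x => ?_
    have := (h.cont x).measurable
    fun_prop
  have hb : ∃ C : ℝ, ∀ s, ‖cf φ ψ s‖ ≤ C := by
    refine ⟨(∑' x, ‖φ x‖ ^ 2) + 1, fun s => ?_⟩
    have h1 : HasSum (fun x => ‖φ x‖ ^ 2 + ‖ψ s x‖ ^ 2) ((∑' x, ‖φ x‖ ^ 2) + 1) :=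
      hφ.hasSum.add (h.norm s)
    unfold cf
    refine tsum_of_norm_bounded h1 fun x => ?_
    rw [norm_mul, Complex.norm_conj]
    nlinarith [sq_nonneg (‖φ x‖ - ‖ψ s x‖), sq_nonneg (‖φ x‖), sq_nonneg ‖ψ s x‖]
  obtain ⟨C, hC⟩ := hb
  have hii : ∀ a b : ℝ, IntervalIntegrable (fun s => -Complex.I * E * cf φ ψ s) volume a b := by
    intro a b
    refine IntervalIntegrable.const_mul ?_ _
    rw [intervalIntegrable_iff]
    exact Integrable.mono' (integrableOn_const (by simp)) hm.aestronglyMeasurable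
      (Filter.Eventually.of_forall hC)
  have hcont : Continuous (cf φ ψ) := by
    have h1 : Continuous fun t => cf φ ψ 0 + ∫ s in (0 : ℝ)..t, -Complex.I * E * cf φ ψ s :=
      continuous_const.add (intervalIntegral.continuous_primitive hii 0)
    exact (funext hint : cf φ ψ = _) ▸ h1
  have hder : ∀ t, HasDerivAt (cf φ ψ) (-Complex.I * E * cf φ ψ t) t := by
    intro t
    have hc2 : Continuous fun s => -Complex.I * E * cf φ ψ s := by fun_prop
    have h1 := (intervalIntegral.integral_hasDerivAt_right (hii 0 t)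
      hc2.aestronglyMeasurable.stronglyMeasurableAtFilter hc2.continuousAt).const_add (cf φ ψ 0)
    exact h1.congr_of_eventuallyEq (Filter.Eventually.of_forall hint)
  have hk : ∀ t : ℝ, HasDerivAt (fun t : ℝ => Complex.exp (Complex.I * E * t) * cf φ ψ t) 0 t := by
    intro t
    have h1 : HasDerivAt (fun t : ℝ => Complex.I * E * (t : ℂ)) (Complex.I * E * 1) t :=
      (Complex.ofRealCLM.hasDerivAt (x := t)).const_mul _
    have h2 := h1.cexp.mul (hder t)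
    refine h2.congr_deriv ?_
    ring
  have h1 : Complex.exp (Complex.I * E * t) * cf φ ψ t =
      Complex.exp (Complex.I * E * (0 : ℝ)) * cf φ ψ 0 :=
    is_const_of_deriv_eq_zero (fun s => (hk s).differentiableAt) (fun s => (hk s).deriv) t 0
  rw [Complex.ofReal_zero, mul_zero, Complex.exp_zero, one_mul] at h1
  have h2 : cf φ ψ 0 = (starRingEnd ℂ) (φ a) := by
    unfold cf
    rw [tsum_eq_single a]
    · rw [h.init, if_pos rfl, mul_one]
    · intro x hx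
      rw [h.init, if_neg hx, mul_zero]
  rw [← h2, ← h1, ← mul_assoc, ← Complex.exp_add]
  have : -Complex.I * E * t + Complex.I * E * t = 0 := by ring
  rw [this, Complex.exp_zero, one_mul]

end Pool.Agent.Q218.UD
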