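import Pool.Agent.Q218.UD.Dif
import Pool.Agent.Q299.GB.Ev

/-! The variance of the truncated variable, and the event that the potential is not too large. -/

set_option autoImplicit false
set_option linter.unusedSectionVars false

open MeasureTheory Set Filter Topology

namespace Pool.Agent.Q218.UD

open Pool.Agent.H4R2.LO (Zd)

/-- the truncation converges -/
theorem tr_lim (μ : Measure ℝ) (M : ℝ) (f : ℝ → ℝ) (hf : Integrable f μ) :
    Tendsto (fun B : ℝ => ∫ s, (if |s - M| ≤ B then f s else 0) ∂μ) atTop (𝓝 (∫ s, f s ∂μ)) := by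
  refine tendsto_integral_filter_of_dominated_convergence (fun s => ‖f s‖) ?_ ?_ hf.norm ?_
  · refine Filter.Eventually.of_forall fun B => ?_
    have h1 : (fun s => if |s - M| ≤ B then f s else 0) = Set.indicator {s | |s - M| ≤ B} f := by
      funext s
      by_cases hs : |s - M| ≤ B
      · have hs' : s ∈ {s : ℝ | |s - M| ≤ B} := hs
        rw [if_pos hs, Set.indicator_of_mem hs']
      · have hs' : s ∉ {s : ℝ | |s - M| ≤ B} := hs
        rw [if_neg hs, Set.indicator_of_notMem hs']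
    rw [h1]
    exact hf.aestronglyMeasurable.indicator (measurableSet_le (by fun_prop) measurable_const)
  · refine Filter.Eventually.of_forall fun B => Filter.Eventually.of_forall fun s => ?_
    split_ifs
    · exact le_rfl
    · rw [norm_zero]
      exact norm_nonneg _
  · refine Filter.Eventually.of_forall fun s => ?_
    refine tendsto_const_nhds.congr' ?_
    filter_upwards [eventually_ge_atTop |s - M|] with B hB
    rw [if_pos hB]

/-- the variance of the truncated variable -/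
theorem var_lim (μ : Measure ℝ) [IsProbabilityMeasure μ] (M V : ℝ) (h1 : Integrable (fun s => s) μ)
    (h2 : Integrable (fun s => (s - M) ^ 2) μ) (hM : ∫ s, s ∂μ = M)
    (hV : ∫ s, (s - M) ^ 2 ∂μ = V) (ρ : ℝ) (hρ : 0 < ρ) :
    ∃ l0 : ℝ, 0 < l0 ∧ ∀ lam : ℝ, 0 < lam → lam ≤ l0 → ∀ B : ℝ, B = lam ^ (-(1 / 7000) : ℝ) →
      |B ^ 2 * (∫ s, (trc M B s - ∫ s, trc M B s ∂μ) ^ 2 ∂μ) - V| ≤ ρ := by
  have h1' : Integrable (fun s => s - M) μ := h1.sub (integrable_const _)
  have l1 := tr_lim μ M (fun s => s - M) h1'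
  have l2 := tr_lim μ M (fun s => (s - M) ^ 2) h2
  rw [integral_sub h1 (integrable_const _), hM, integral_const, probReal_univ, one_smul,
    sub_self] at l1
  rw [hV] at l2
  have l3 := l2.sub (l1.pow 2)
  rw [zero_pow two_ne_zero, sub_zero] at l3
  obtain ⟨B0, hB0⟩ := Filter.eventually_atTop.1 (l3.eventually (Metric.closedBall_mem_nhds V hρ))
  obtain ⟨C, hC⟩ : ∃ C, C = max B0 1 := ⟨_, rfl⟩
  have hC1 : 1 ≤ C := by rw [hC]; exact le_max_right _ _
  have hC0 : 0 < C := by linarith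
  refine ⟨C ^ (-7000 : ℝ), Real.rpow_pos_of_pos hC0 _, fun lam hl hl0 B hB => ?_⟩
  have hBC : C ≤ B := by
    rw [hB]
    calc C = (C ^ (-7000 : ℝ)) ^ (-(1 / 7000) : ℝ) := by
          rw [← Real.rpow_mul hC0.le]
          norm_num
      _ ≤ lam ^ (-(1 / 7000) : ℝ) := Real.rpow_le_rpow_of_nonpos hl hl0 (by norm_num)
  have hBp : 0 < B := by linarith
  have key := hB0 B ((le_max_left B0 1).trans (hC ▸ hBC))
  rw [Real.dist_eq] at key
  have hb : ∀ s, ‖trc M B s‖ ≤ 1 := fun s => trc_le hBp M s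
  have i1 : Integrable (trc M B) μ := Integrable.mono' (integrable_const 1)
    (trc_meas M B).aestronglyMeasurable (Filter.Eventually.of_forall hb)
  have i2 : Integrable (fun s => trc M B s ^ 2) μ := Integrable.mono' (integrable_const 1)
    ((trc_meas M B).pow_const 2).aestronglyMeasurable (Filter.Eventually.of_forall fun s => by
      rw [norm_pow]
      exact pow_le_one₀ (norm_nonneg _) (hb s))
  obtain ⟨m, hm⟩ : ∃ m, m = ∫ s, trc M B s ∂μ := ⟨_, rfl⟩
  have e1 : ∫ s, (trc M B s - m) ^ 2 ∂μ = ∫ s, trc M B s ^ 2 ∂μ - m ^ 2 := by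
    have h3 : ∀ s : ℝ, (trc M B s - m) ^ 2 = trc M B s ^ 2 - 2 * m * trc M B s + m ^ 2 :=
      fun s => by ring
    simp only [h3]
    have hi3 : Integrable (fun s : ℝ => trc M B s ^ 2 - 2 * m * trc M B s) μ :=
      i2.sub (i1.const_mul _)
    rw [integral_add hi3 (integrable_const _), integral_sub i2 (i1.const_mul _),
      integral_const_mul, ← hm, integral_const, probReal_univ, one_smul]
    ring
  have e2 : B ^ 2 * ∫ s, trc M B s ^ 2 ∂μ = ∫ s, (if |s - M| ≤ B then (s - M) ^ 2 else 0) ∂μ := by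
    rw [← integral_const_mul]
    refine integral_congr_ae (Filter.Eventually.of_forall fun s => ?_)
    simp only
    unfold trc
    split_ifs
    · field_simp
    · ring
  have e3 : B * m = ∫ s, (if |s - M| ≤ B then s - M else 0) ∂μ := by
    rw [hm, ← integral_const_mul]
    refine integral_congr_ae (Filter.Eventually.of_forall fun s => ?_)
    simp only
    unfold trc
    split_ifs
    · field_simp
    · ring
  rw [← hm, e1, mul_sub, e2]
  have e4 : B ^ 2 * m ^ 2 = (B * m) ^ 2 := by ring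
  rw [e4, e3]
  exact key

/-- **the potential is not too large in a box** -/
theorem evt {d : ℕ} (μ : Measure ℝ) [IsProbabilityMeasure μ] (M B : ℝ) (G' : Set (Zd d → ℝ))
    (hG' : MeasurableSet G') (δ1 δ2 : ℝ)
    (h1 : 1 - δ1 ≤ (Measure.infinitePi fun _ : Zd d => μ).real G')
    (h2 : μ.real {s | ¬ |s - M| ≤ B} ≤ δ2) (ρ : ℝ) (hρ : 0 ≤ ρ) :
    ∃ G : Set (Zd d → ℝ), G ⊆ G' ∧ MeasurableSet G ∧
      1 - (δ1 + (2 * ρ + 1) ^ d * δ2) ≤ (Measure.infinitePi fun _ : Zd d => μ).real G ∧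
      ∀ ω ∈ G, ∀ x, ‖x‖ ≤ ρ → |ω x - M| ≤ B := by
  obtain ⟨N, hN⟩ : ∃ N : ℕ, N = ⌊ρ⌋₊ := ⟨_, rfl⟩
  have hδ2 : 0 ≤ δ2 := measureReal_nonneg.trans h2
  have hEm : ∀ x : Zd d, MeasurableSet {ξ : Zd d → ℝ | ¬ |ξ x - M| ≤ B} := fun x => by
    have h3 : MeasurableSet {ξ : Zd d → ℝ | |ξ x - M| ≤ B} :=
      measurableSet_le (by fun_prop) measurable_const
    exact h3.compl
  refine ⟨G' ∩ (⋃ x ∈ Q299.GB.box d N, {ξ : Zd d → ℝ | ¬ |ξ x - M| ≤ B})ᶜ,
    Set.inter_subset_left, ?_, ?_, ?_⟩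
  · exact hG'.inter (Finset.measurableSet_biUnion _ fun x _ => hEm x).compl
  · obtain ⟨Pm, hPm⟩ : ∃ Pm : Measure (Zd d → ℝ), Pm = Measure.infinitePi fun _ : Zd d => μ :=
      ⟨_, rfl⟩
    have hPp : IsProbabilityMeasure Pm := by rw [hPm]; infer_instance
    rw [← hPm] at h1 ⊢
    have p2 : Pm.real (⋃ x ∈ Q299.GB.box d N, {ξ : Zd d → ℝ | ¬ |ξ x - M| ≤ B}) ≤
        (2 * N + 1) ^ d * δ2 := by
      refine (measureReal_biUnion_finset_le _ _).trans ?_
      have q : ∀ x ∈ Q299.GB.box d N, Pm.real {ξ : Zd d → ℝ | ¬ |ξ x - M| ≤ B} ≤ δ2 := by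
        intro x _
        refine le_trans (le_of_eq ?_) h2
        have hev := measurePreserving_eval_infinitePi (fun _ : Zd d => μ) x
        have hms : MeasurableSet {s : ℝ | ¬ |s - M| ≤ B} := by
          have h3 : MeasurableSet {s : ℝ | |s - M| ≤ B} :=
            measurableSet_le (by fun_prop) measurable_const
          exact h3.compl
        have := hev.measureReal_preimage hms.nullMeasurableSet
        rw [hPm, ← this]
        rfl
      refine (Finset.sum_le_sum q).trans (le_of_eq ?_)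
      rw [Finset.sum_const, Q299.GB.box_card, nsmul_eq_mul]
      push_cast
      ring
    have p3 : (2 * (N : ℝ) + 1) ^ d * δ2 ≤ (2 * ρ + 1) ^ d * δ2 := by
      apply mul_le_mul_of_nonneg_right _ hδ2
      apply pow_le_pow_left₀ (by positivity)
      have := Nat.floor_le hρ
      rw [← hN] at this
      linarith
    have p6 := measureReal_union_add_inter (μ := Pm) (s := G')
      (t := (⋃ x ∈ Q299.GB.box d N, {ξ : Zd d → ℝ | ¬ |ξ x - M| ≤ B})ᶜ)
      (Finset.measurableSet_biUnion _ fun x _ => hEm x).compl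
    have p7 : Pm.real (G' ∪
      (⋃ x ∈ Q299.GB.box d N, {ξ : Zd d → ℝ | ¬ |ξ x - M| ≤ B})ᶜ) ≤ 1 := measureReal_le_one
    have p8 := probReal_add_probReal_compl (μ := Pm)
      (Finset.measurableSet_biUnion (Q299.GB.box d N) fun x _ => hEm x)
    linarith
  · rintro ω ⟨_, hω2⟩ x hx
    by_contra hcon
    apply hω2
    simp only [Set.mem_iUnion]
    exact ⟨x, by rw [hN]; exact Q299.GB.mem_box hx, hcon⟩

end Pool.Agent.Q218.UD
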