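import Pool.Agent.TH794.QE.FinA
import Pool.Agent.Q299.GB.Cut

/-! The resolvent at a site only sees the potential in a large box around the site. The potential
may be unbounded. -/

set_option autoImplicit false
set_option linter.unusedSectionVars false

open scoped BigOperators Topology
open MeasureTheory Filter Set

namespace Pool.Agent.Q218.UD

open Pool.Agent.W788.LD.Spec (S symm summ_mul summ_shift)
open Pool.Agent.H4R2.LO (Zd)
open Pool.Agent.TH794.QE (Rs)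
open Q299.GB (chi chi_nonneg chi_le chi_self chi_lip chi_zero nrm_single)

variable {d : ℕ}

/-- the energy identity -/
theorem en_id (V : Zd d → ℝ) (e η : ℝ) (f g : Zd d → ℂ) (hf : Summable fun x => ‖f x‖ ^ 2)
    (hg : Summable fun x => ‖g x‖ ^ 2)
    (h : ∀ x, -S f x + (V x : ℂ) * f x - ((e : ℂ) + (η : ℂ) * Complex.I) * f x = g x) :
    η * ∑' x, ‖f x‖ ^ 2 = -(∑' x, (starRingEnd ℂ) (f x) * g x).im := by
  obtain ⟨s1, s2, e1⟩ := symm f f hf hf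
  have hfg := summ_mul f g hf hg
  have him : (∑' x, (starRingEnd ℂ) (f x) * S f x).im = 0 := by
    have h2 : ∑' x, (starRingEnd ℂ) (S f x) * f x =
        (starRingEnd ℂ) (∑' x, (starRingEnd ℂ) (f x) * S f x) := by
      rw [Complex.conj_tsum]
      refine tsum_congr fun x => ?_
      rw [map_mul, Complex.conj_conj, mul_comm]
    rw [h2] at e1
    exact Complex.conj_eq_iff_im.1 e1.symm
  have hpt : ∀ x, η * ‖f x‖ ^ 2 = -((starRingEnd ℂ) (f x) * g x).im -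
      ((starRingEnd ℂ) (f x) * S f x).im := by
    intro x
    rw [← h x]
    have n1 : ‖f x‖ ^ 2 = (f x).re ^ 2 + (f x).im ^ 2 := by
      rw [← Complex.normSq_eq_norm_sq, Complex.normSq_apply]
      ring
    rw [n1]
    simp only [Complex.mul_im, Complex.conj_re, Complex.conj_im, Complex.sub_re, Complex.sub_im,
      Complex.add_re, Complex.add_im, Complex.neg_re, Complex.neg_im, Complex.mul_re,
      Complex.ofReal_re, Complex.ofReal_im, Complex.I_re, Complex.I_im]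
    ring
  have q1 := (Complex.imCLM.hasSum hfg.hasSum)
  have q2 := (Complex.imCLM.hasSum s1.hasSum)
  simp only [Complex.imCLM_apply] at q1 q2
  rw [him] at q2
  have q3 := q1.neg.sub q2
  rw [sub_zero] at q3
  have q4 := hf.hasSum.mul_left η
  have q5 : (fun x => η * ‖f x‖ ^ 2) = fun x => -((starRingEnd ℂ) (f x) * g x).im -
      ((starRingEnd ℂ) (f x) * S f x).im := funext hpt
  rw [q5] at q4
  exact q4.unique q3

/-- the bound of the resolvent -/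
theorem res_bd (V : Zd d → ℝ) (e η : ℝ) (hη : 0 < η) (f g : Zd d → ℂ)
    (hf : Summable fun x => ‖f x‖ ^ 2) (hg : Summable fun x => ‖g x‖ ^ 2)
    (h : ∀ x, -S f x + (V x : ℂ) * f x - ((e : ℂ) + (η : ℂ) * Complex.I) * f x = g x) :
    η ^ 2 * ∑' x, ‖f x‖ ^ 2 ≤ ∑' x, ‖g x‖ ^ 2 := by
  have h1 := en_id V e η f g hf hg h
  have hfg := summ_mul f g hf hg
  have h2 : |(∑' x, (starRingEnd ℂ) (f x) * g x).im| ≤
      ∑' x, (η / 2 * ‖f x‖ ^ 2 + (2 * η)⁻¹ * ‖g x‖ ^ 2) := by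
    refine (Complex.abs_im_le_norm _).trans (tsum_of_norm_bounded
      ((hf.mul_left _).add (hg.mul_left _)).hasSum fun x => ?_)
    rw [norm_mul, Complex.norm_conj]
    have e1 : η / 2 * ‖f x‖ ^ 2 + (2 * η)⁻¹ * ‖g x‖ ^ 2 - ‖f x‖ * ‖g x‖ =
        (2 * η)⁻¹ * (η * ‖f x‖ - ‖g x‖) ^ 2 := by
      field_simp
      ring
    have e2 : 0 ≤ (2 * η)⁻¹ * (η * ‖f x‖ - ‖g x‖) ^ 2 := by positivity
    linarith
  rw [(hf.mul_left _).tsum_add (hg.mul_left _), tsum_mul_left, tsum_mul_left] at h2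
  have h3 := neg_abs_le (∑' x, (starRingEnd ℂ) (f x) * g x).im
  obtain ⟨F, hF⟩ : ∃ F, F = ∑' x, ‖f x‖ ^ 2 := ⟨_, rfl⟩
  obtain ⟨G, hG⟩ : ∃ G, G = ∑' x, ‖g x‖ ^ 2 := ⟨_, rfl⟩
  rw [← hF, ← hG] at h2
  rw [← hF] at h1
  rw [← hF, ← hG]
  have h4 : η / 2 * F ≤ (2 * η)⁻¹ * G := by linarith
  have h5 := mul_le_mul_of_nonneg_left h4 (by positivity : 0 ≤ 2 * η)
  have e1 : 2 * η * (η / 2 * F) = η ^ 2 * F := by ring
  have e2 : 2 * η * ((2 * η)⁻¹ * G) = G := by field_simp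
  rw [e1, e2] at h5
  exact h5

theorem delta_sum (a : Zd d) :
    HasSum (fun x : Zd d => ‖(if x = a then (1 : ℂ) else 0)‖ ^ 2) 1 := by
  have h : (fun x : Zd d => ‖(if x = a then (1 : ℂ) else 0)‖ ^ 2) =
      fun x => if x = a then (1 : ℝ) else 0 := by
    funext x
    split_ifs <;> simp
  rw [h]
  exact hasSum_ite_eq a 1

variable {V V' : Zd d → ℝ} {a : Zd d} {e η : ℝ} {u u' : Zd d → ℂ}

theorem rs_le (h : Rs d V a e η u) (hη : 0 < η) : ∑' x, ‖u x‖ ^ 2 ≤ (η⁻¹) ^ 2 := by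
  have h1 := res_bd V e η hη u _ h.sq (delta_sum a).summable h.eq
  rw [(delta_sum a).tsum_eq] at h1
  rw [inv_pow, ← one_div, le_div_iff₀ (by positivity)]
  linarith

theorem rs_ward (h : Rs d V a e η u) : η * ∑' x, ‖u x‖ ^ 2 = (u a).im := by
  rw [en_id V e η u _ h.sq (delta_sum a).summable h.eq]
  have h1 : ∑' x, (starRingEnd ℂ) (u x) * (if x = a then (1 : ℂ) else 0) =
      (starRingEnd ℂ) (u a) := by
    rw [tsum_eq_single a]
    · simp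
    · intro x hx
      rw [if_neg hx, mul_zero]
  rw [h1, Complex.conj_im, neg_neg]

/-- sequences which are close -/
theorem close_sq (p q : Zd d → ℂ) (hp : Summable fun x => ‖p x‖ ^ 2)
    (hq : Summable fun x => ‖q x‖ ^ 2) (α : ℝ) (hα : 0 < α) :
    (Summable fun x => |‖p x‖ ^ 2 - ‖q x‖ ^ 2|) ∧
    (Summable fun x => ‖p x - q x‖ ^ 2) ∧
    ∑' x, |‖p x‖ ^ 2 - ‖q x‖ ^ 2| ≤ α * ∑' x, ‖q x‖ ^ 2 +
      (1 + α⁻¹) * ∑' x, ‖p x - q x‖ ^ 2 := by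
  have hpq : Summable fun x => ‖p x - q x‖ ^ 2 := by
    refine Summable.of_nonneg_of_le (fun x => sq_nonneg _) (fun x => ?_)
      ((hp.mul_left 2).add (hq.mul_left 2))
    have h1 := norm_sub_le (p x) (q x)
    nlinarith [norm_nonneg (p x - q x), norm_nonneg (p x), norm_nonneg (q x),
      sq_nonneg (‖p x‖ - ‖q x‖)]
  have key : ∀ x, |‖p x‖ ^ 2 - ‖q x‖ ^ 2| ≤ α * ‖q x‖ ^ 2 + (1 + α⁻¹) * ‖p x - q x‖ ^ 2 := by
    intro x
    have h1 : |‖p x‖ - ‖q x‖| ≤ ‖p x - q x‖ := abs_norm_sub_norm_le _ _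
    obtain ⟨P, hP⟩ : ∃ P, P = ‖p x‖ := ⟨_, rfl⟩
    obtain ⟨Q, hQ⟩ : ∃ Q, Q = ‖q x‖ := ⟨_, rfl⟩
    obtain ⟨D, hD⟩ : ∃ D, D = ‖p x - q x‖ := ⟨_, rfl⟩
    rw [← hP, ← hQ, ← hD] at h1 ⊢
    have hQ0 : 0 ≤ Q := by rw [hQ]; exact norm_nonneg _
    have hD0 : 0 ≤ D := by rw [hD]; exact norm_nonneg _
    have h2 : |P ^ 2 - Q ^ 2| ≤ 2 * Q * D + D ^ 2 := by
      obtain ⟨h3, h4⟩ := abs_le.1 h1
      have hP0 : 0 ≤ P := by rw [hP]; exact norm_nonneg _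
      rw [abs_le]
      constructor
      · nlinarith
      · nlinarith
    have h3 : 2 * Q * D ≤ α * Q ^ 2 + α⁻¹ * D ^ 2 := by
      have e1 : α * Q ^ 2 + α⁻¹ * D ^ 2 - 2 * Q * D = α⁻¹ * (α * Q - D) ^ 2 := by
        field_simp
        ring
      have e2 : 0 ≤ α⁻¹ * (α * Q - D) ^ 2 := by positivity
      linarith
    linarith
  have hs := (hq.mul_left α).add (hpq.mul_left (1 + α⁻¹))
  refine ⟨Summable.of_nonneg_of_le (fun x => abs_nonneg _) key hs, hpq, ?_⟩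
  have h1 := (Summable.of_nonneg_of_le (fun x => abs_nonneg _) key hs).tsum_le_tsum key hs
  rw [(hq.mul_left α).tsum_add (hpq.mul_left (1 + α⁻¹)), tsum_mul_left, tsum_mul_left] at h1
  exact h1

/-- the cut off resolvent -/
theorem cut_D (u : Zd d → ℂ) (hu : Summable fun x => ‖u x‖ ^ 2) (k : Zd d → ℝ) (R : ℝ) (hR0 : 0 < R)
    (kl : ∀ (x : Zd d) (i : Fin d), |k (x + Pi.single i 1) - k x| ≤ 1 / R)
    (kl' : ∀ (x : Zd d) (i : Fin d), |k (x - Pi.single i 1) - k x| ≤ 1 / R) (D : Zd d → ℂ)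
    (hD : D = fun x : Zd d => ∑ i : Fin d,
    (((k (x + Pi.single i 1) - k x : ℝ) : ℂ) * u (x + Pi.single i 1) +
      ((k (x - Pi.single i 1) - k x : ℝ) : ℂ) * u (x - Pi.single i 1))) :
    (Summable fun x => ‖D x‖ ^ 2) ∧ ∑' x, ‖D x‖ ^ 2 ≤ 4 * d ^ 2 / R ^ 2 * ∑' x, ‖u x‖ ^ 2 := by
  obtain ⟨U, hU⟩ : ∃ U, U = ∑' x, ‖u x‖ ^ 2 := ⟨_, rfl⟩
  rw [← hU]
  have sp : ∀ i : Fin d, Summable fun x : Zd d => ‖u (x + Pi.single i 1)‖ ^ 2 := fun i =>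
    summ_shift u (Pi.single i 1) hu
  have sm : ∀ i : Fin d, Summable fun x : Zd d => ‖u (x - Pi.single i 1)‖ ^ 2 := fun i => by
    have h1 := summ_shift u (-(Pi.single i 1 : Zd d)) hu
    simpa [sub_eq_add_neg] using h1
  have tp : ∀ i : Fin d, ∑' x : Zd d, ‖u (x + Pi.single i 1)‖ ^ 2 = U := fun i => by
    rw [hU]
    exact (Equiv.addRight (Pi.single i 1 : Zd d)).tsum_eq fun x => ‖u x‖ ^ 2
  have tm : ∀ i : Fin d, ∑' x : Zd d, ‖u (x - Pi.single i 1)‖ ^ 2 = U := fun i => by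
    rw [hU]
    exact (Equiv.subRight (Pi.single i 1 : Zd d)).tsum_eq fun x => ‖u x‖ ^ 2
  have hDle : ∀ x : Zd d, ‖D x‖ ^ 2 ≤ (4 * d / R ^ 2) * ∑ i : Fin d,
      (‖u (x + Pi.single i 1)‖ ^ 2 + ‖u (x - Pi.single i 1)‖ ^ 2) / 2 := by
    intro x
    have h0 : ‖D x‖ ≤ ∑ i : Fin d, (1 / R * ‖u (x + Pi.single i 1)‖ +
        1 / R * ‖u (x - Pi.single i 1)‖) := by
      rw [hD]
      refine (norm_sum_le _ _).trans (Finset.sum_le_sum fun i _ => (norm_add_le _ _).trans ?_)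
      rw [norm_mul, norm_mul, Complex.norm_real, Complex.norm_real, Real.norm_eq_abs,
        Real.norm_eq_abs]
      exact add_le_add (mul_le_mul_of_nonneg_right (kl x i) (norm_nonneg _))
        (mul_le_mul_of_nonneg_right (kl' x i) (norm_nonneg _))
    have h00 : ‖D x‖ ^ 2 ≤ (∑ i : Fin d, (1 / R * ‖u (x + Pi.single i 1)‖ +
        1 / R * ‖u (x - Pi.single i 1)‖)) ^ 2 := pow_le_pow_left₀ (norm_nonneg _) h0 2
    have h1 := sq_sum_le_card_mul_sum_sq (s := (Finset.univ : Finset (Fin d)))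
      (f := fun i => (1 / R * ‖u (x + Pi.single i 1)‖ + 1 / R * ‖u (x - Pi.single i 1)‖))
    rw [Finset.card_univ, Fintype.card_fin] at h1
    refine h00.trans (h1.trans ?_)
    have h2 : ∑ i : Fin d, (1 / R * ‖u (x + Pi.single i 1)‖ +
        1 / R * ‖u (x - Pi.single i 1)‖) ^ 2 ≤ ∑ i : Fin d,
        (4 / R ^ 2) * ((‖u (x + Pi.single i 1)‖ ^ 2 + ‖u (x - Pi.single i 1)‖ ^ 2) / 2) := by
      refine Finset.sum_le_sum fun i _ => ?_
      obtain ⟨p, hp⟩ : ∃ p, p = ‖u (x + Pi.single i 1)‖ := ⟨_, rfl⟩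
      obtain ⟨q, hq⟩ : ∃ q, q = ‖u (x - Pi.single i 1)‖ := ⟨_, rfl⟩
      rw [← hp, ← hq]
      have e1 : (4 / R ^ 2) * ((p ^ 2 + q ^ 2) / 2) - (1 / R * p + 1 / R * q) ^ 2 =
          (1 / R * (p - q)) ^ 2 := by
        field_simp
        ring
      have e2 := sq_nonneg (1 / R * (p - q))
      linarith
    calc (d : ℝ) * _ ≤ d * _ := mul_le_mul_of_nonneg_left h2 (Nat.cast_nonneg d)
      _ = _ := by rw [← Finset.mul_sum]; ring
  have sS : Summable fun x : Zd d => ∑ i : Fin d,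
      (‖u (x + Pi.single i 1)‖ ^ 2 + ‖u (x - Pi.single i 1)‖ ^ 2) / 2 :=
    summable_sum fun i _ => ((sp i).add (sm i)).div_const 2
  have tS : ∑' x : Zd d, ∑ i : Fin d, (‖u (x + Pi.single i 1)‖ ^ 2 +
      ‖u (x - Pi.single i 1)‖ ^ 2) / 2 = d * U := by
    rw [Summable.tsum_finsetSum fun i _ => ((sp i).add (sm i)).div_const 2]
    have : ∀ i ∈ (Finset.univ : Finset (Fin d)), ∑' x : Zd d, (‖u (x + Pi.single i 1)‖ ^ 2 +
        ‖u (x - Pi.single i 1)‖ ^ 2) / 2 = U := by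
      intro i _
      rw [tsum_div_const, (sp i).tsum_add (sm i), tp, tm]; ring
    rw [Finset.sum_congr rfl this, Finset.sum_const, Finset.card_univ, Fintype.card_fin,
      nsmul_eq_mul]
  have sD : Summable fun x => ‖D x‖ ^ 2 :=
    Summable.of_nonneg_of_le (fun x => sq_nonneg _) hDle (sS.mul_left _)
  refine ⟨sD, (sD.tsum_le_tsum hDle (sS.mul_left _)).trans (le_of_eq ?_)⟩
  rw [tsum_mul_left, tS]
  ring

/-- the cut off resolvent is close to the other resolvent -/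
theorem cut_w (h : Rs d V a e η u) (h' : Rs d V' a e η u') (hη : 0 < η) (R : ℝ)
    (hR0 : 0 < R) (heq : ∀ x, ‖x - a‖ ≤ R → V x = V' x) : ∃ w : Zd d → ℂ,
    (∀ x, ‖w x‖ ^ 2 ≤ ‖u x‖ ^ 2) ∧ w a = u a ∧ (Summable fun x => ‖w x - u' x‖ ^ 2) ∧
    ∑' x, ‖w x - u' x‖ ^ 2 ≤ 4 * d ^ 2 / R ^ 2 * (η⁻¹) ^ 4 := by
  obtain ⟨k, hk⟩ : ∃ k : Zd d → ℝ, k = chi a R := ⟨_, rfl⟩
  have k0 : ∀ x, 0 ≤ k x := fun x => by rw [hk]; exact chi_nonneg _ _ _
  have k1 : ∀ x, k x ≤ 1 := fun x => by rw [hk]; exact chi_le _ hR0 _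
  have kl : ∀ (x : Zd d) (i : Fin d), |k (x + Pi.single i 1) - k x| ≤ 1 / R := fun x i => by
    rw [hk]; exact chi_lip a hR0 x _ (nrm_single i)
  have kl' : ∀ (x : Zd d) (i : Fin d), |k (x - Pi.single i 1) - k x| ≤ 1 / R := fun x i => by
    have h0 : ‖-(Pi.single i 1 : Zd d)‖ ≤ 1 := by rw [norm_neg]; exact nrm_single i
    rw [hk, sub_eq_add_neg x]
    exact chi_lip a hR0 x _ h0
  have kz : ∀ x, R ≤ ‖x - a‖ → k x = 0 := fun x hx => by rw [hk]; exact chi_zero a hR0 x hx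
  have ka : k a = 1 := by rw [hk]; exact chi_self a R
  clear hk
  obtain ⟨D, hD⟩ : ∃ D : Zd d → ℂ, D = fun x : Zd d => ∑ i : Fin d,
    (((k (x + Pi.single i 1) - k x : ℝ) : ℂ) * u (x + Pi.single i 1) +
      ((k (x - Pi.single i 1) - k x : ℝ) : ℂ) * u (x - Pi.single i 1)) := ⟨_, rfl⟩
  obtain ⟨sD, tD⟩ := cut_D u h.sq k R hR0 kl kl' D hD
  have hwle : ∀ x, ‖(k x : ℂ) * u x‖ ^ 2 ≤ ‖u x‖ ^ 2 := by
    intro x
    rw [norm_mul, Complex.norm_real, Real.norm_of_nonneg (k0 x)]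
    apply pow_le_pow_left₀ (mul_nonneg (k0 x) (norm_nonneg _))
    exact mul_le_of_le_one_left (norm_nonneg _) (k1 x)
  have sw : Summable fun x => ‖(k x : ℂ) * u x‖ ^ 2 :=
    Summable.of_nonneg_of_le (fun x => sq_nonneg _) hwle h.sq
  have hSw : ∀ x, S (fun x => (k x : ℂ) * u x) x = (k x : ℂ) * S u x + D x := by
    intro x
    rw [hD]
    unfold S
    simp only
    rw [Finset.mul_sum, ← Finset.sum_add_distrib]
    refine Finset.sum_congr rfl fun i _ => ?_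
    push_cast
    ring
  have e2 : ∀ x, (V' x : ℂ) * ((k x : ℂ) * u x) = (V x : ℂ) * ((k x : ℂ) * u x) := by
    intro x
    by_cases hx : R ≤ ‖x - a‖
    · rw [kz x hx, Complex.ofReal_zero, zero_mul, mul_zero, mul_zero]
    · rw [heq x (not_le.1 hx).le]
  have e3 : ∀ x, (k x : ℂ) * (if x = a then (1 : ℂ) else 0) = if x = a then 1 else 0 := by
    intro x
    by_cases hx : x = a
    · rw [if_pos hx, hx, ka, Complex.ofReal_one, one_mul]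
    · rw [if_neg hx, mul_zero]
  have hdif : ∀ x, -S (fun x => (k x : ℂ) * u x - u' x) x +
      (V' x : ℂ) * ((k x : ℂ) * u x - u' x) -
      ((e : ℂ) + (η : ℂ) * Complex.I) * ((k x : ℂ) * u x - u' x) = -D x := by
    intro x
    have e1 : S (fun x => (k x : ℂ) * u x - u' x) x = (k x : ℂ) * S u x + D x - S u' x := by
      rw [← hSw]
      unfold S
      rw [← Finset.sum_sub_distrib]
      exact Finset.sum_congr rfl fun i _ => by ring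
    have h1 := h.eq x
    have h2 := h'.eq x
    have h3 := e2 x
    have h4 := e3 x
    rw [e1]
    linear_combination (k x : ℂ) * h1 - h2 + h3 + h4
  have s2 := (close_sq (fun x => (k x : ℂ) * u x) u' sw h'.sq 1 one_pos).2.1
  have hf := res_bd V' e η hη (fun x => (k x : ℂ) * u x - u' x) (fun x => -D x) s2
    (by simpa using sD) hdif
  simp only [norm_neg] at hf
  refine ⟨fun x => (k x : ℂ) * u x, hwle, ?_, s2, ?_⟩
  · simp only
    rw [ka, Complex.ofReal_one, one_mul]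
  · have hU := rs_le h hη
    obtain ⟨F, hF⟩ : ∃ F, F = ∑' x, ‖(k x : ℂ) * u x - u' x‖ ^ 2 := ⟨_, rfl⟩
    rw [← hF] at hf
    change ∑' x, ‖(k x : ℂ) * u x - u' x‖ ^ 2 ≤ _
    rw [← hF]
    have h1 : η ^ 2 * F ≤ 4 * d ^ 2 / R ^ 2 * (η⁻¹) ^ 2 := by
      refine hf.trans (tD.trans ?_)
      exact mul_le_mul_of_nonneg_left hU (by positivity)
    calc F = (η⁻¹) ^ 2 * (η ^ 2 * F) := by field_simp
      _ ≤ (η⁻¹) ^ 2 * (4 * d ^ 2 / R ^ 2 * (η⁻¹) ^ 2) :=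
          mul_le_mul_of_nonneg_left h1 (by positivity)
      _ = _ := by ring

/-- weighted sums -/
theorem wsum (c : Zd d → ℂ) (hc : ∀ x, ‖c x‖ ≤ 1) (p q : Zd d → ℂ)
    (hp : Summable fun x => ‖p x‖ ^ 2) (hq : Summable fun x => ‖q x‖ ^ 2) (B : ℝ)
    (hs : Summable fun x => |‖p x‖ ^ 2 - ‖q x‖ ^ 2|)
    (hB : ∑' x, |‖p x‖ ^ 2 - ‖q x‖ ^ 2| ≤ B) :
    ‖∑' x, c x * ((‖p x‖ ^ 2 : ℝ) : ℂ) - ∑' x, c x * ((‖q x‖ ^ 2 : ℝ) : ℂ)‖ ≤ B := by
  have hsum : ∀ v : Zd d → ℂ, (Summable fun x => ‖v x‖ ^ 2) →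
      Summable fun x => c x * ((‖v x‖ ^ 2 : ℝ) : ℂ) := by
    intro v hv
    refine Summable.of_norm_bounded hv fun x => ?_
    rw [norm_mul, Complex.norm_real, Real.norm_of_nonneg (sq_nonneg _)]
    exact mul_le_of_le_one_left (sq_nonneg _) (hc x)
  rw [← (hsum p hp).tsum_sub (hsum q hq)]
  refine (tsum_of_norm_bounded hs.hasSum fun x => ?_).trans hB
  rw [← mul_sub, norm_mul, ← Complex.ofReal_sub, Complex.norm_real, Real.norm_eq_abs]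
  exact mul_le_of_le_one_left (abs_nonneg _) (hc x)

/-- **comparison of the resolvents** -/
theorem rs_cmp (h : Rs d V a e η u) (h' : Rs d V' a e η u') (hη : 0 < η) (hη1 : η ≤ 1) (R : ℝ)
    (hR : 1 ≤ R) (heq : ∀ x, ‖x - a‖ ≤ R → V x = V' x) (c : Zd d → ℂ) (hc : ∀ x, ‖c x‖ ≤ 1) :
    ‖(η : ℂ) * ∑' x, c x * ((‖u x‖ ^ 2 : ℝ) : ℂ) -
      (η : ℂ) * ∑' x, c x * ((‖u' x‖ ^ 2 : ℝ) : ℂ)‖ ≤
      (16 * d ^ 2 + 2 * d + 2) / R * (η⁻¹) ^ 4 := by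
  have hR0 : 0 < R := by linarith
  obtain ⟨w, hwle, hwa, s2, hF1⟩ := cut_w h h' hη R hR0 heq
  have sw : Summable fun x => ‖w x‖ ^ 2 :=
    Summable.of_nonneg_of_le (fun x => sq_nonneg _) hwle h.sq
  obtain ⟨s1, -, s3⟩ := close_sq w u' sw h'.sq (1 / R) (by positivity)
  have hUle' := rs_le h' hη
  have h1 := rs_ward h
  have h2 := rs_ward h'
  obtain ⟨U, hU⟩ : ∃ U, U = ∑' x, ‖u x‖ ^ 2 := ⟨_, rfl⟩
  obtain ⟨U', hU'⟩ : ∃ U, U = ∑' x, ‖u' x‖ ^ 2 := ⟨_, rfl⟩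
  obtain ⟨W, hW⟩ : ∃ U, U = ∑' x, ‖w x‖ ^ 2 := ⟨_, rfl⟩
  obtain ⟨F, hF⟩ : ∃ F, F = ∑' x, ‖w x - u' x‖ ^ 2 := ⟨_, rfl⟩
  have hF0 : 0 ≤ F := by rw [hF]; exact tsum_nonneg fun x => sq_nonneg _
  have hFa : ‖w a - u' a‖ ^ 2 ≤ F := by
    rw [hF]
    exact s2.le_tsum a fun x _ => sq_nonneg _
  rw [← hF] at hF1 s3
  rw [← hU'] at hUle' s3 h2
  rw [← hU] at h1
  obtain ⟨x, hx⟩ : ∃ x, x = η⁻¹ := ⟨_, rfl⟩
  have hi : 1 ≤ x := by rw [hx]; exact (one_le_inv₀ hη).2 hη1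
  rw [← hx] at hF1 hUle' ⊢
  have hi2 : x ^ 2 ≤ x ^ 4 := pow_le_pow_right₀ hi (by norm_num)
  obtain ⟨ρ, hρ⟩ : ∃ ρ, ρ = R⁻¹ := ⟨_, rfl⟩
  have hρ0 : 0 < ρ := by rw [hρ]; positivity
  have hρR : R * ρ = 1 := by rw [hρ]; exact mul_inv_cancel₀ hR0.ne'
  have e0 : 4 * (d : ℝ) ^ 2 / R ^ 2 * x ^ 4 = (2 * d * ρ * x ^ 2) ^ 2 := by
    rw [hρ]
    field_simp
    ring
  rw [e0] at hF1
  have eR : 1 / R = ρ := by rw [hρ, one_div]
  rw [eR] at s3
  -- the first comparison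
  obtain ⟨B, hB⟩ : ∃ B, B = (8 * d ^ 2 + 1) * ρ * x ^ 4 := ⟨_, rfl⟩
  have hB0 : 0 ≤ B := by rw [hB]; positivity
  have c1 : ∑' x, |‖w x‖ ^ 2 - ‖u' x‖ ^ 2| ≤ B := by
    refine s3.trans ?_
    have a1 : ρ * U' ≤ ρ * x ^ 4 := mul_le_mul_of_nonneg_left (hUle'.trans hi2) hρ0.le
    have a2 : (1 + ρ⁻¹) * F ≤ (2 * R) * (2 * d * ρ * x ^ 2) ^ 2 := by
      have : 1 + ρ⁻¹ ≤ 2 * R := by
        rw [hρ, inv_inv]
        linarith
      exact mul_le_mul this hF1 hF0 (by positivity)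
    have a3 : (2 * R) * (2 * d * ρ * x ^ 2) ^ 2 = 8 * d ^ 2 * (R * ρ) * ρ * x ^ 4 := by
      ring
    rw [a3, hρR] at a2
    rw [hB]
    linarith
  -- the value at `a`
  have c2 : |(u a).im - (u' a).im| ≤ 2 * d * ρ * x ^ 2 := by
    rw [← Complex.sub_im, ← hwa]
    refine (Complex.abs_im_le_norm _).trans ?_
    exact le_of_sq_le_sq (hFa.trans hF1) (by positivity)
  have c3 : η * (U - U') ≤ 2 * d * ρ * x ^ 4 := by
    have h3 := (abs_le.1 c2).2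
    have h4 : 2 * d * ρ * x ^ 2 ≤ 2 * d * ρ * x ^ 4 := mul_le_mul_of_nonneg_left hi2 (by positivity)
    rw [mul_sub, h1, h2]
    linarith
  have c4 : U' - W ≤ B := by
    refine le_trans ?_ c1
    rw [hU', hW, ← h'.sq.tsum_sub sw]
    refine (h'.sq.sub sw).tsum_le_tsum (fun x => ?_) s1
    rw [abs_sub_comm]
    exact le_abs_self _
  -- the sums
  have t1 := wsum c hc w u' sw h'.sq B s1 c1
  have s4 : Summable fun x => |‖u x‖ ^ 2 - ‖w x‖ ^ 2| := by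
    refine (h.sq.sub sw).congr fun x => ?_
    rw [abs_of_nonneg (sub_nonneg.2 (hwle x))]
  have t2 := wsum c hc u w h.sq sw (U - W) s4 (by
    rw [hU, hW, ← h.sq.tsum_sub sw]
    refine le_of_eq (tsum_congr fun x => ?_)
    rw [abs_of_nonneg (sub_nonneg.2 (hwle x))])
  have t3 : ‖(η : ℂ) * ∑' x, c x * ((‖u x‖ ^ 2 : ℝ) : ℂ) -
      (η : ℂ) * ∑' x, c x * ((‖u' x‖ ^ 2 : ℝ) : ℂ)‖ ≤ η * ((U - W) + B) := by
    rw [← mul_sub, norm_mul, Complex.norm_real, Real.norm_of_nonneg hη.le]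
    apply mul_le_mul_of_nonneg_left _ hη.le
    have := norm_sub_le_norm_sub_add_norm_sub (∑' x, c x * ((‖u x‖ ^ 2 : ℝ) : ℂ))
      (∑' x, c x * ((‖w x‖ ^ 2 : ℝ) : ℂ)) (∑' x, c x * ((‖u' x‖ ^ 2 : ℝ) : ℂ))
    linarith
  refine t3.trans ?_
  have e1 : η * ((U - W) + B) = η * (U - U') + η * ((U' - W) + B) := by ring
  have e2 : η * ((U' - W) + B) ≤ 2 * B := by
    calc η * ((U' - W) + B) ≤ η * (2 * B) := by
          apply mul_le_mul_of_nonneg_left _ hη.le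
          linarith
      _ ≤ 1 * (2 * B) := mul_le_mul_of_nonneg_right hη1 (by positivity)
      _ = _ := one_mul _
  have e3 : 2 * (d : ℝ) * ρ * x ^ 4 + 2 * B = (16 * d ^ 2 + 2 * d + 2) / R * x ^ 4 := by
    rw [hB, div_eq_mul_inv, ← hρ]
    ring
  linarith

end Pool.Agent.Q218.UD
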