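import Pool.Agent.TH794.QD.Evo
import Pool.Agent.Q218.AD.Loc4

/-! The evolution for an arbitrary potential. -/

set_option autoImplicit false
set_option linter.unusedSectionVars false

open scoped BigOperators Topology
open MeasureTheory Filter Set

namespace Pool.Agent.Q218.UD

open Pool.Agent.W788.LD.Spec (S)
open Pool.Agent.H4R2.LO (Zd dd bx)
open Pool.Agent.H4R2.LO.Em (dd_norm mem_bx card_bx dd_comm)
open Pool.Agent.TH794.QD (Sol exists_sol)

variable {d : ℕ}

/-- the phase -/
theorem ph_bd (v : ℝ) (D F : ℝ → ℂ) (hD : ∀ s, HasDerivAt D (-Complex.I * (-F s + (v : ℂ) * D s)) s)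
    (hF : Continuous F) (h0 : D 0 = 0) (C : ℝ) (k : ℕ) (hb : ∀ s, 0 ≤ s → ‖F s‖ ≤ C * s ^ k)
    (t : ℝ) (ht : 0 ≤ t) : ‖D t‖ ≤ C / (k + 1) * t ^ (k + 1) := by
  obtain ⟨P, hP⟩ : ∃ P : ℝ → ℂ, P = fun s : ℝ => Complex.exp (Complex.I * ((v * s : ℝ) : ℂ)) * D s :=
    ⟨_, rfl⟩
  have hn : ∀ s : ℝ, ‖Complex.exp (Complex.I * ((v * s : ℝ) : ℂ))‖ = 1 := by
    intro s
    rw [mul_comm]
    exact Complex.norm_exp_ofReal_mul_I _
  have hder : ∀ s, HasDerivAt P (Complex.exp (Complex.I * ((v * s : ℝ) : ℂ)) *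
      (Complex.I * F s)) s := by
    intro s
    have h1 : HasDerivAt (fun s : ℝ => Complex.I * ((v * s : ℝ) : ℂ)) (Complex.I * (v : ℂ)) s := by
      have h2 : HasDerivAt (fun s : ℝ => ((v * s : ℝ) : ℂ)) (v : ℂ) s := by
        have h3 : HasDerivAt (fun s : ℝ => v * s) v s := by
          simpa using (hasDerivAt_id s).const_mul v
        exact h3.ofReal_comp
      exact h2.const_mul _
    have h2 := h1.cexp.mul (hD s)
    rw [hP]
    refine h2.congr_deriv ?_
    ring
  have hint : ∫ s in (0 : ℝ)..t, Complex.exp (Complex.I * ((v * s : ℝ) : ℂ)) * (Complex.I * F s) =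
      P t - P 0 := by
    refine intervalIntegral.integral_eq_sub_of_hasDerivAt (fun s _ => hder s) ?_
    apply Continuous.intervalIntegrable
    fun_prop
  have hP0 : P 0 = 0 := by rw [hP]; simp [h0]
  rw [hP0, sub_zero] at hint
  have h1 : ‖D t‖ = ‖P t‖ := by
    rw [hP]
    simp only
    rw [norm_mul, hn, one_mul]
  rw [h1, ← hint]
  refine (intervalIntegral.norm_integral_le_of_norm_le (g := fun s => C * s ^ k) ht
    (Eventually.of_forall fun s hs => ?_) ?_).trans (le_of_eq ?_)
  · rw [norm_mul, hn, one_mul, norm_mul, Complex.norm_I, one_mul]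
    exact hb s hs.1.le
  · apply Continuous.intervalIntegrable
    fun_prop
  · rw [intervalIntegral.integral_const_mul, integral_pow]
    rw [zero_pow (by omega), sub_zero]
    ring

theorem nrm_e (i : Fin d) : ‖(Pi.single i 1 : Zd d)‖ ≤ 1 := by
  rw [pi_norm_le_iff_of_nonneg zero_le_one]
  intro j
  by_cases h : j = i
  · subst h; simp
  · rw [Pi.single_eq_of_ne h]; simp

theorem S_bd (u : Zd d → ℂ) (x : Zd d) (C : ℝ)
    (h : ∀ y : Zd d, ‖y - x‖ ≤ 1 → ‖u y‖ ≤ C) : ‖S u x‖ ≤ 2 * d * C := by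
  unfold S
  refine (norm_sum_le _ _).trans ?_
  have h1 : ∀ i ∈ (Finset.univ : Finset (Fin d)),
      ‖u (x + Pi.single i 1) + u (x - Pi.single i 1)‖ ≤ 2 * C := by
    intro i _
    refine (norm_add_le _ _).trans ?_
    have h2 := h (x + Pi.single i 1) (by rw [add_sub_cancel_left]; exact nrm_e i)
    have h3 := h (x - Pi.single i 1) (by
      rw [sub_sub_cancel_left, norm_neg]
      exact nrm_e i)
    linarith
  refine (Finset.sum_le_sum h1).trans (le_of_eq ?_)
  rw [Finset.sum_const, Finset.card_univ, Fintype.card_fin, nsmul_eq_mul]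
  ring

variable {V V' : Zd d → ℝ} {a : Zd d} {ψ ψ' : ℝ → Zd d → ℂ}

theorem S_cont (h : Sol d V a ψ) (x : Zd d) : Continuous fun s => S (ψ s) x := by
  unfold S
  have := h.cont
  fun_prop

/-- finite speed of propagation -/
theorem dec (h : Sol d V a ψ) (k : ℕ) : ∀ x : Zd d, (k : ℝ) ≤ ‖x - a‖ → ∀ t : ℝ, 0 ≤ t →
    ‖ψ t x‖ ≤ (2 * d * t) ^ k / k.factorial := by
  induction k with
  | zero =>
    intro x _ t _
    simp only [pow_zero, Nat.factorial_zero, Nat.cast_one, div_one]
    exact h.le_one t x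
  | succ k ih =>
    intro x hx t ht
    push_cast at hx
    have hk0 : (0 : ℝ) ≤ k := Nat.cast_nonneg k
    have h0 : ψ 0 x = 0 := by
      rw [h.init, if_neg]
      intro hxa
      rw [hxa, sub_self, norm_zero] at hx
      linarith
    have h1 := ph_bd (V x) (fun s => ψ s x) (fun s => S (ψ s) x) (fun s => h.ode s x)
      (S_cont h x) h0 (2 * d * ((2 * d) ^ k / k.factorial)) k (fun s hs => by
        refine (S_bd (ψ s) x ((2 * d * s) ^ k / k.factorial) fun y hy => ?_).trans (le_of_eq ?_)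
        · refine ih y ?_ s hs
          have h2 := norm_sub_le_norm_sub_add_norm_sub x y a
          rw [norm_sub_rev x y] at h2
          linarith
        · rw [mul_pow]
          ring) t ht
    refine h1.trans (le_of_eq ?_)
    clear h1 ih
    generalize 2 * (d : ℝ) = c
    rw [Nat.factorial_succ, mul_pow c t (k + 1), pow_succ c k]
    push_cast
    have : (k.factorial : ℝ) ≠ 0 := by positivity
    have : (k : ℝ) + 1 ≠ 0 := by positivity
    field_simp

/-- the evolution only sees the potential in a large box -/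
theorem dif (h : Sol d V a ψ) (h' : Sol d V' a ψ') (R : ℝ) (heq : ∀ x, ‖x - a‖ ≤ R → V x = V' x)
    (k : ℕ) : ∀ x : Zd d, ‖x - a‖ + k ≤ R → ∀ t : ℝ, 0 ≤ t →
    ‖ψ t x - ψ' t x‖ ≤ 2 * ((2 * d * t) ^ k / k.factorial) := by
  induction k with
  | zero =>
    intro x _ t _
    simp only [pow_zero, Nat.factorial_zero, Nat.cast_one, div_one, mul_one]
    have h1 := h.le_one t x
    have h2 := h'.le_one t x
    exact (norm_sub_le _ _).trans (by linarith)
  | succ k ih =>
    intro x hx t ht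
    push_cast at hx
    have hk0 : (0 : ℝ) ≤ k := Nat.cast_nonneg k
    have hV : V x = V' x := heq x (by linarith)
    have h0 : ψ 0 x - ψ' 0 x = 0 := by
      rw [h.init, h'.init, sub_self]
    have h1 := ph_bd (V x) (fun s => ψ s x - ψ' s x) (fun s => S (ψ s) x - S (ψ' s) x)
      (fun s => ((h.ode s x).sub (h'.ode s x)).congr_deriv (by rw [← hV]; ring))
      ((S_cont h x).sub (S_cont h' x)) h0 (2 * d * (2 * ((2 * d) ^ k / k.factorial))) k
      (fun s hs => by
        have e1 : S (ψ s) x - S (ψ' s) x = S (fun y => ψ s y - ψ' s y) x := by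
          unfold S
          rw [← Finset.sum_sub_distrib]
          exact Finset.sum_congr rfl fun i _ => by ring
        rw [e1]
        refine (S_bd (fun y => ψ s y - ψ' s y) x (2 * ((2 * d * s) ^ k / k.factorial))
          fun y hy => ?_).trans (le_of_eq ?_)
        · refine ih y ?_ s hs
          have h2 := norm_sub_le_norm_sub_add_norm_sub y x a
          linarith
        · rw [mul_pow]
          ring) t ht
    refine h1.trans (le_of_eq ?_)
    clear h1 ih
    generalize 2 * (d : ℝ) = c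
    rw [Nat.factorial_succ, mul_pow c t (k + 1), pow_succ c k]
    push_cast
    have : (k.factorial : ℝ) ≠ 0 := by positivity
    have : (k : ℝ) + 1 ≠ 0 := by positivity
    field_simp

/-- time reversal -/
theorem rev (h : Sol d V a ψ) : Sol d V a fun s x => (starRingEnd ℂ) (ψ (-s) x) where
  init x := by
    rw [neg_zero, h.init]
    split_ifs <;> simp
  ode s x := by
    have h1 := (h.ode (-s) x).scomp s (hasDerivAt_neg s)
    have h2 : HasDerivAt (fun s => (starRingEnd ℂ) (ψ (-s) x))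
        ((starRingEnd ℂ) ((-1 : ℝ) • (-Complex.I * (-S (ψ (-s)) x + (V x : ℂ) * ψ (-s) x)))) s :=
      (Complex.conjCLE.toContinuousLinearMap.hasFDerivAt.comp_hasDerivAt s h1)
    refine h2.congr_deriv ?_
    have e1 : S (fun x => (starRingEnd ℂ) (ψ (-s) x)) x = (starRingEnd ℂ) (S (ψ (-s)) x) := by
      unfold S
      rw [map_sum]
      exact Finset.sum_congr rfl fun i _ => by rw [map_add]
    rw [e1]
    simp
  norm s := by
    have h1 := h.norm (-s)
    simpa using h1

theorem dec' (h : Sol d V a ψ) (k : ℕ) (x : Zd d) (hx : (k : ℝ) ≤ ‖x - a‖) (t : ℝ) :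
    ‖ψ t x‖ ≤ (2 * d * |t|) ^ k / k.factorial := by
  rcases le_total 0 t with ht | ht
  · rw [abs_of_nonneg ht]
    exact dec h k x hx t ht
  · rw [abs_of_nonpos ht]
    have h1 := dec (rev h) k x hx (-t) (by linarith)
    rw [neg_neg, Complex.norm_conj] at h1
    exact h1

theorem dif' (h : Sol d V a ψ) (h' : Sol d V' a ψ') (R : ℝ)
    (heq : ∀ x, ‖x - a‖ ≤ R → V x = V' x) (k : ℕ) (x : Zd d) (hx : ‖x - a‖ + k ≤ R) (t : ℝ) :
    ‖ψ t x - ψ' t x‖ ≤ 2 * ((2 * d * |t|) ^ k / k.factorial) := by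
  rcases le_total 0 t with ht | ht
  · rw [abs_of_nonneg ht]
    exact dif h h' R heq k x hx t ht
  · rw [abs_of_nonpos ht]
    have h1 := dif (rev h) (rev h') R heq k x hx (-t) (by linarith)
    rw [neg_neg, ← map_sub, Complex.norm_conj] at h1
    exact h1

theorem fac_lim (c : ℝ) : Tendsto (fun k : ℕ => 2 * (c ^ k / k.factorial)) atTop (𝓝 0) := by
  have := (FloorSemiring.tendsto_pow_div_factorial_atTop c).const_mul 2
  rwa [mul_zero] at this

theorem fac_exp (c : ℝ) (hc : 0 ≤ c) (k : ℕ) :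
    c ^ k / k.factorial ≤ Real.exp (c * Real.exp 1) * Real.exp (-(k : ℝ)) := by
  have h1 := Real.pow_div_factorial_le_exp (c * Real.exp 1) (by positivity) k
  have h2 : (c * Real.exp 1) ^ k / k.factorial = c ^ k / k.factorial * Real.exp k := by
    rw [mul_pow, ← Real.exp_nat_mul, mul_one]
    ring
  rw [h2] at h1
  calc c ^ k / k.factorial = c ^ k / k.factorial * Real.exp k * Real.exp (-(k : ℝ)) := by
        rw [mul_assoc, ← Real.exp_add, add_neg_cancel, Real.exp_zero, mul_one]
    _ ≤ _ := mul_le_mul_of_nonneg_right h1 (Real.exp_pos _).le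

/-- the potential in a box -/
noncomputable def cutV (V : Zd d → ℝ) (a : Zd d) (n : ℕ) (x : Zd d) : ℝ :=
  if ‖x - a‖ ≤ n then V x else 0

theorem cutV_eq (V : Zd d → ℝ) (a : Zd d) {n : ℕ} {x : Zd d} (h : ‖x - a‖ ≤ n) :
    cutV V a n x = V x := by
  unfold cutV
  rw [if_pos h]

theorem cutV_bd (V : Zd d → ℝ) (a : Zd d) (n : ℕ) : ∃ B : ℝ, ∀ x, |cutV V a n x| ≤ B := by
  refine ⟨∑ y ∈ bx a n, |V y|, fun x => ?_⟩
  unfold cutV
  split_ifs with h
  · refine Finset.single_le_sum (f := fun y => |V y|) (fun y _ => abs_nonneg _) ?_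
    rw [mem_bx]
    rw [← norm_sub_rev, ← dd_norm] at h
    exact_mod_cast h
  · rw [abs_zero]
    exact Finset.sum_nonneg fun y _ => abs_nonneg _

/-- **existence of the evolution for an arbitrary potential** -/
theorem exists_solU (hd : 1 ≤ d) (V : Zd d → ℝ) (a : Zd d) : ∃ ψ, Sol d V a ψ := by
  have hex : ∀ n : ℕ, ∃ ψ, Sol d (cutV V a n) a ψ := fun n => by
    obtain ⟨B, hB⟩ := cutV_bd V a n
    exact exists_sol _ B hB a
  choose Ψ hΨ using hex
  have hcmp : ∀ (n m : ℕ), n ≤ m → ∀ (k : ℕ) (x : Zd d), ‖x - a‖ + k ≤ n → ∀ t : ℝ,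
      ‖Ψ n t x - Ψ m t x‖ ≤ 2 * ((2 * d * |t|) ^ k / k.factorial) := by
    intro n m hnm k x hx t
    refine dif' (hΨ n) (hΨ m) n (fun y hy => ?_) k x hx t
    rw [cutV_eq V a hy, cutV_eq V a (hy.trans (by exact_mod_cast hnm))]
  -- the radius
  have hK : ∀ x : Zd d, ∃ K : ℕ, ‖x - a‖ + 1 ≤ K := fun x => exists_nat_ge _
  choose K hK using hK
  -- the limit
  have hlim : ∀ (t : ℝ) (x : Zd d), ∃ L : ℂ, Tendsto (fun n => Ψ n t x) atTop (𝓝 L) := by
    intro t x
    have hca : CauchySeq fun n => Ψ (n + K x) t x := by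
      refine cauchySeq_of_le_tendsto_0 (fun k => 2 * (2 * ((2 * d * |t|) ^ k / k.factorial)))
        (fun n m N hn hm => ?_) ?_
      · have h1 := hcmp (N + K x) (n + K x) (by omega) N x (by
          push_cast
          linarith [hK x]) t
        have h2 := hcmp (N + K x) (m + K x) (by omega) N x (by
          push_cast
          linarith [hK x]) t
        rw [dist_eq_norm]
        have h3 := norm_sub_le_norm_sub_add_norm_sub (Ψ (n + K x) t x) (Ψ (N + K x) t x)
          (Ψ (m + K x) t x)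
        rw [norm_sub_rev (Ψ (n + K x) t x) (Ψ (N + K x) t x)] at h3
        linarith
      · have := (fac_lim (2 * d * |t|)).const_mul 2
        rwa [mul_zero] at this
    obtain ⟨L, hL⟩ := cauchySeq_tendsto_of_complete hca
    exact ⟨L, (tendsto_add_atTop_iff_nat (K x)).1 hL⟩
  choose ψ hψ using hlim
  have hbd : ∀ (t : ℝ) (x : Zd d) (n k : ℕ), ‖x - a‖ + k ≤ n →
      ‖Ψ n t x - ψ t x‖ ≤ 2 * ((2 * d * |t|) ^ k / k.factorial) := by
    intro t x n k hx
    refine le_of_tendsto ((hψ t x).const_sub (Ψ n t x)).norm ?_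
    filter_upwards [eventually_ge_atTop n] with m hm
    exact hcmp n m hm k x hx t
  refine ⟨ψ, ?_, ?_, ?_⟩
  · intro x
    refine tendsto_nhds_unique (hψ 0 x) ?_
    simp only [(hΨ _).init]
    exact tendsto_const_nhds
  · intro t x
    obtain ⟨T, hT⟩ : ∃ T, T = |t| + 1 := ⟨_, rfl⟩
    have htT : t ∈ Ioo (-T) T := by
      have h1 := neg_abs_le t
      have h2 := le_abs_self t
      constructor <;> linarith
    refine hasDerivAt_of_tendstoUniformlyOn (l := atTop) isOpen_Ioo
      (f := fun n s => Ψ n s x)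
      (f' := fun n s => -Complex.I * (-S (Ψ n s) x + (cutV V a n x : ℂ) * Ψ n s x))
      (g' := fun s => -Complex.I * (-S (ψ s) x + (V x : ℂ) * ψ s x)) ?_ ?_ ?_ htT
    · rw [Metric.tendstoUniformlyOn_iff]
      intro ε hε
      have hl : Tendsto (fun n : ℕ => (2 * d + |V x|) * (2 * ((2 * d * T) ^ (n - K x) /
          (n - K x).factorial))) atTop (𝓝 0) := by
        have h1 := (fac_lim (2 * d * T)).comp (tendsto_sub_atTop_nat (K x))
        have h2 := h1.const_mul (2 * (d : ℝ) + |V x|)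
        rwa [mul_zero] at h2
      filter_upwards [hl.eventually (gt_mem_nhds hε), eventually_ge_atTop (K x)] with n hn hnK s hs
      obtain ⟨k, hk⟩ : ∃ k, k = n - K x := ⟨_, rfl⟩
      rw [← hk] at hn
      have hnk : n = k + K x := by omega
      have hnr : (n : ℝ) = k + K x := by rw [hnk]; push_cast; rfl
      have hsT : |s| ≤ T := abs_le.2 ⟨hs.1.le, hs.2.le⟩
      obtain ⟨b, hb⟩ : ∃ b, b = 2 * ((2 * d * T) ^ k / k.factorial) := ⟨_, rfl⟩
      rw [← hb] at hn
      have hy : ∀ y : Zd d, ‖y - x‖ ≤ 1 → ‖ψ s y - Ψ n s y‖ ≤ b := by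
        intro y hy
        rw [norm_sub_rev]
        refine (hbd s y n k ?_).trans ?_
        · have h1 := norm_sub_le_norm_sub_add_norm_sub y x a
          have h2 := hK x
          linarith
        · rw [hb]
          gcongr
      have hVn : cutV V a n x = V x := cutV_eq V a (by
        have h2 := hK x
        have : (0 : ℝ) ≤ k := Nat.cast_nonneg k
        linarith)
      rw [dist_eq_norm, hVn]
      have e1 : -Complex.I * (-S (ψ s) x + (V x : ℂ) * ψ s x) -
          -Complex.I * (-S (Ψ n s) x + (V x : ℂ) * Ψ n s x) =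
          -Complex.I * (-S (fun y => ψ s y - Ψ n s y) x + (V x : ℂ) * (ψ s x - Ψ n s x)) := by
        have e2 : S (fun y => ψ s y - Ψ n s y) x = S (ψ s) x - S (Ψ n s) x := by
          unfold S
          rw [← Finset.sum_sub_distrib]
          exact Finset.sum_congr rfl fun i _ => by ring
        rw [e2]
        ring
      rw [e1, norm_mul, norm_neg, Complex.norm_I, one_mul]
      refine ((norm_add_le _ _).trans ?_).trans_lt hn
      rw [norm_neg, norm_mul, Complex.norm_real, Real.norm_eq_abs]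
      have h3 := S_bd (fun y => ψ s y - Ψ n s y) x b hy
      have h4 := hy x (by rw [sub_self, norm_zero]; norm_num)
      have h5 := mul_le_mul_of_nonneg_left h4 (abs_nonneg (V x))
      linarith
    · exact Eventually.of_forall fun n s _ => (hΨ n).ode s x
    · exact fun s _ => hψ s x
  · intro t
    obtain ⟨C, hC⟩ : ∃ C, C = Real.exp (2 * d * |t| * Real.exp 1) := ⟨_, rfl⟩
    have hb : ∀ (n : ℕ) (x : Zd d), ‖Ψ n t x‖ ^ 2 ≤ C ^ 2 * Real.exp 2 * Real.exp (-(1 * ‖x - a‖)) := by
      intro n x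
      obtain ⟨k, hk⟩ : ∃ k : ℕ, k = dd x a := ⟨_, rfl⟩
      have hkn : (k : ℝ) = ‖x - a‖ := by rw [hk, dd_norm]
      have h1 := dec' (hΨ n) k x hkn.le t
      have h2 := h1.trans (fac_exp (2 * d * |t|) (by positivity) k)
      rw [← hC, hkn] at h2
      have hn0 := norm_nonneg (x - a)
      calc ‖Ψ n t x‖ ^ 2 ≤ (C * Real.exp (-‖x - a‖)) ^ 2 := pow_le_pow_left₀ (norm_nonneg _) h2 2
        _ = C ^ 2 * (Real.exp (-‖x - a‖) * Real.exp (-‖x - a‖)) := by ring
        _ ≤ C ^ 2 * (Real.exp 2 * Real.exp (-‖x - a‖)) := by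
            have : Real.exp (-‖x - a‖) ≤ Real.exp 2 := Real.exp_le_exp.2 (by linarith)
            gcongr
        _ = _ := by rw [one_mul]; ring
    have hs := (Pool.Agent.Q218.AD.W_tsum hd 1 one_pos le_rfl a).1.mul_left (C ^ 2 * Real.exp 2)
    have hlim := tendsto_tsum_of_dominated_convergence (f := fun n x => ‖Ψ n t x‖ ^ 2)
      (g := fun x => ‖ψ t x‖ ^ 2) (𝓕 := atTop) hs (fun x => (hψ t x).norm.pow 2)
      (Eventually.of_forall fun n x => by
        rw [Real.norm_of_nonneg (sq_nonneg _)]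
        exact hb n x)
    have h1 : ∀ n, ∑' x, ‖Ψ n t x‖ ^ 2 = 1 := fun n => ((hΨ n).norm t).tsum_eq
    simp only [h1] at hlim
    have h2 : ∑' x, ‖ψ t x‖ ^ 2 = 1 := (tendsto_nhds_unique hlim tendsto_const_nhds)
    have h3 : Summable fun x => ‖ψ t x‖ ^ 2 := by
      refine Summable.of_nonneg_of_le (fun x => sq_nonneg _) (fun x => ?_) hs
      exact le_of_tendsto' ((hψ t x).norm.pow 2) fun n => hb n x
    rw [← h2]
    exact h3.hasSum

end Pool.Agent.Q218.UD
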