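import Pool.Agent.Q218.UD.Free
import Pool.Agent.Q218.UD.Cmp
import Pool.Agent.Q218.UD.Evo
import Pool.Agent.Q218.AD.Fin

/-! The profile of the resolvent at the sites where the potential is locally not too large. -/

set_option autoImplicit false
set_option linter.unusedSectionVars false

open MeasureTheory Set Filter Topology

namespace Pool.Agent.Q218.UD

open Pool.Agent.W788.BK
open Pool.Agent.W788.LD.Spec (S)
open Pool.Agent.H4R2.LO (Zd)
open Pool.Agent.TH794.HK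
open Pool.Agent.TH794.QE
open Pool.Agent.TH794.QD (Sol La)
open Pool.Agent.Q218.AD (small_rpow)

/-- the truncated centred variable -/
noncomputable def trc (M B s : ℝ) : ℝ := if |s - M| ≤ B then (s - M) / B else 0

theorem trc_meas (M B : ℝ) : Measurable (trc M B) := by
  unfold trc
  refine Measurable.ite (measurableSet_le (by fun_prop) measurable_const) (by fun_prop)
    measurable_const

theorem trc_le {B : ℝ} (hB : 0 < B) (M s : ℝ) : |trc M B s| ≤ 1 := by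
  unfold trc
  split_ifs with h
  · rw [abs_div, abs_of_pos hB, div_le_one hB]
    exact h
  · simp

/-- the resolvent exists -/
theorem ex_rs {d : ℕ} (hd : 1 ≤ d) (V : Zd d → ℝ) (a : Zd d) (e η : ℝ) (hη : 0 < η) :
    ∃ u : Zd d → ℂ, Rs d V a e η u := by
  obtain ⟨ψ, hψ⟩ := exists_solU hd V a
  exact ⟨fun x => Complex.I * La ψ e η x, Pool.Agent.TH794.QD.La_sum hψ e η hη,
    Pool.Agent.TH794.QD.La_eq hψ e η hη⟩

theorem rs_shift {d : ℕ} {V V' : Zd d → ℝ} {a : Zd d} {e e' η : ℝ} {u : Zd d → ℂ}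
    (h : Rs d V a e η u) (r : ℝ) (hV : ∀ x, V' x = V x - r) (he : e' = e - r) :
    Rs d V' a e' η u where
  sq := h.sq
  eq := fun x => by
    rw [← h.eq x, hV, he]
    push_cast
    ring

/-- **the profile at the good sites** -/
theorem profU (d : ℕ) (hd : 2 ≤ d) (U : Set ℝ) (G0 G1 : ℝ → ℝ) (hF : FreeD d G0 G1)
    (γ0 γ1 : ℝ → ℂ) (hγ : ∀ E ∈ U, (γ0 E).im = G0 E ∧ (γ1 E).im = G1 E ∧ 0 < G0 E)
    (hEng : ∀ b Kp : ℝ, 0 < b → 0 ≤ Kp → EngU d (fun E => E ∈ U) γ0 γ1 b Kp)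
    (v K : ℝ) (hv : 0 < v) (hK : 0 ≤ K) :
    ∃ l0 : ℝ, 0 < l0 ∧ ∀ lam : ℝ, 0 < lam → lam ≤ l0 →
    ∀ (μ : Measure ℝ), IsProbabilityMeasure μ → ∀ M mB VB B : ℝ, B = lam ^ (-(1 / 7000) : ℝ) →
    ∫ s, trc M B s ∂μ = mB → ∫ s, (trc M B s - mB) ^ 2 ∂μ = VB → v ≤ B ^ 2 * VB →
      ∃ G : Set (Zd d → ℝ), MeasurableSet G ∧
        1 - Real.exp (-lam ^ (-(1 / 102) : ℝ)) ≤
          (Measure.infinitePi fun _ : Zd d => μ).real G ∧
        ∀ ω ∈ G, ∀ a : Zd d, ‖a‖ ≤ Real.exp (lam ^ (-(1 / 102) : ℝ)) →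
          (∀ x, ‖x - a‖ ≤ lam ^ (-10 : ℝ) → |ω x - M| ≤ B) →
          ∀ E0 e : ℝ, E0 + lam * M + lam * B * mB - e ∈ U →
          ∀ η : ℝ, lam ^ (20245 / 10000 : ℝ) ≤ η → η ≤ lam ^ (20123 / 10000 : ℝ) →
          ∀ u : Zd d → ℂ, Rs d (fun x => E0 + lam * ω x) a e η u →
          ∀ p : Fin d → ℝ, ∑ i, p i ^ 2 ≤ K * (η * (lam ^ 2 * (B ^ 2 * VB))) →
            ‖((η : ℝ) : ℂ) * ∑' x, ph p (x - a) * ((‖u x‖ ^ 2 : ℝ) : ℂ) -
              ((G0 (E0 + lam * M + lam * B * mB - e) / (1 + (∑ i, p i ^ 2) /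
                (η * (lam ^ 2 * (B ^ 2 * VB))) * (G1 (E0 + lam * M + lam * B * mB - e) /
                G0 (E0 + lam * M + lam * B * mB - e) ^ 2)) : ℝ) : ℂ)‖ ≤ lam ^ (1 / 300 : ℝ) := by
  have hd1 : 1 ≤ d := by omega
  obtain ⟨c0, hc0, hfin⟩ := finU d (fun E => E ∈ U) γ0 γ1 1 K one_pos hK
    (hEng _ _ (by norm_num) (by positivity)) (fun E hE => by
      obtain ⟨h1, h2, h3⟩ := hγ E hE
      rw [h1, h2]
      exact ⟨h3, hF.n1 E, hF.n01 E⟩)
  obtain ⟨l1, hl1, hs1⟩ := small_rpow (6999 / 7000) c0 (by norm_num) hc0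
  obtain ⟨l2, hl2, hs2⟩ := small_rpow (6999 / 21000000 - 2 / 7000) v (by norm_num) hv
  obtain ⟨l3, hl3, hs3⟩ := small_rpow (6999 / 1400000 - 1 / 300) (1 / 2) (by norm_num)
    (by norm_num)
  obtain ⟨l4, hl4, hs4⟩ := small_rpow (10 - 4 * (20245 / 10000) - 1 / 300)
    (1 / (2 * (16 * d ^ 2 + 2 * d + 2))) (by norm_num) (by positivity)
  refine ⟨min (min (min l1 l2) (min l3 l4)) 1, by positivity, ?_⟩
  intro lam hlam hlam0 μ hμ M mB VB B hB hmB hVB hvB
  have b0 := hlam0.trans (min_le_left _ _)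
  have b1 : lam ≤ l1 := b0.trans ((min_le_left _ _).trans (min_le_left _ _))
  have b2 : lam ≤ l2 := b0.trans ((min_le_left _ _).trans (min_le_right _ _))
  have b3 : lam ≤ l3 := b0.trans ((min_le_right _ _).trans (min_le_left _ _))
  have b4 : lam ≤ l4 := b0.trans ((min_le_right _ _).trans (min_le_right _ _))
  have b5 : lam ≤ 1 := hlam0.trans (min_le_right _ _)
  have hB0 : 0 < B := by rw [hB]; positivity
  obtain ⟨c, hc⟩ : ∃ c, c = lam * B := ⟨_, rfl⟩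
  have hcl : c = lam ^ (6999 / 7000 : ℝ) := by
    have h1 : lam = lam ^ (1 : ℝ) := (Real.rpow_one lam).symm
    rw [hc, hB]
    conv_lhs => rw [h1, ← Real.rpow_mul hlam.le, ← Real.rpow_add hlam]
    norm_num
  have hc0' : 0 < c := by rw [hc]; positivity
  have hcc : c ≤ c0 := by
    rw [hcl]
    exact hs1 lam hlam b1
  have hcp : ∀ p : ℝ, c ^ p = lam ^ (6999 / 7000 * p) := by
    intro p
    rw [hcl, ← Real.rpow_mul hlam.le]
  -- the law
  have hν : IsProbabilityMeasure (μ.map (trc M B)) :=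
    Measure.isProbabilityMeasure_map (trc_meas M B).aemeasurable
  have hVBc : c ^ (1 / 3000 : ℝ) ≤ VB := by
    have h1 := hs2 lam hlam b2
    have h2 : B ^ 2 = lam ^ (-(2 / 7000) : ℝ) := by
      rw [hB, ← Real.rpow_natCast, ← Real.rpow_mul hlam.le]
      norm_num
    have h3 : lam ^ (6999 / 21000000 - 2 / 7000 : ℝ) = c ^ (1 / 3000 : ℝ) * B ^ 2 := by
      rw [hcp, h2, ← Real.rpow_add hlam]
      norm_num
    rw [h3] at h1
    have h4 : c ^ (1 / 3000 : ℝ) * B ^ 2 ≤ VB * B ^ 2 := by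
      rw [mul_comm VB]
      exact h1.trans hvB
    exact le_of_mul_le_mul_right h4 (by positivity)
  obtain ⟨G', hG', hP', hL⟩ := hfin c hc0' hcc (μ.map (trc M B)) hν (by
      rw [ae_map_iff (trc_meas M B).aemeasurable (measurableSet_le (by fun_prop) measurable_const)]
      exact Filter.Eventually.of_forall fun s => trc_le hB0 M s) mB VB
    (by rw [integral_map (trc_meas M B).aemeasurable (by fun_prop)]; exact hmB)
    (by rw [integral_map (trc_meas M B).aemeasurable (by fun_prop)]; exact hVB) hVBc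
  have hTm : Measurable (fun (ω : Zd d → ℝ) x => trc M B (ω x)) :=
    measurable_pi_lambda _ fun x => (trc_meas M B).comp (measurable_pi_apply x)
  have hlaw : (Measure.infinitePi fun _ : Zd d => μ).map (fun ω x => trc M B (ω x)) =
      Measure.infinitePi fun _ : Zd d => μ.map (trc M B) :=
    Measure.infinitePi_map_pi (μ := fun _ : Zd d => μ)
      (f := fun _ (s : ℝ) => trc M B s) (fun _ => trc_meas M B)
  have hcexp : lam ^ (-(1 / 102) : ℝ) ≤ c ^ (-(1 / 101) : ℝ) := by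
    rw [hcp]
    exact Real.rpow_le_rpow_of_exponent_ge hlam b5 (by norm_num)
  refine ⟨(fun ω x => trc M B (ω x)) ⁻¹' G', hTm hG', ?_, ?_⟩
  · rw [← map_measureReal_apply hTm hG', hlaw]
    refine le_trans ?_ hP'
    have : Real.exp (-c ^ (-(1 / 101) : ℝ)) ≤ Real.exp (-lam ^ (-(1 / 102) : ℝ)) :=
      Real.exp_le_exp.2 (by linarith)
    linarith
  intro ω hω a ha hloc E0 e he η hη1 hη2 u hu p hp
  have hη0 : 0 < η := lt_of_lt_of_le (by positivity) hη1
  obtain ⟨r, hr⟩ : ∃ r, r = E0 - 2 * d + lam * M := ⟨_, rfl⟩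
  obtain ⟨u', hu'⟩ := ex_rs hd1 (fun x => 2 * d + c * trc M B (ω x)) a (e - r) η hη0
  have ee : 2 * (d : ℝ) + c * mB - (e - r) = E0 + lam * M + lam * B * mB - e := by
    rw [hr, hc]
    ring
  have key := (hL _ hω).2 a (ha.trans (Real.exp_le_exp.2 hcexp)) (e - r)
    (by rw [ee]; exact he) η
    (by
      refine le_trans ?_ hη1
      rw [hcp]
      exact Real.rpow_le_rpow_of_exponent_ge hlam b5 (by norm_num))
    (by
      refine hη2.trans ?_
      rw [hcp]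
      exact Real.rpow_le_rpow_of_exponent_ge hlam b5 (by norm_num)) u' hu' p (by
      have : c ^ 2 * VB = lam ^ 2 * (B ^ 2 * VB) := by
        rw [hc]
        ring
      rw [this]
      exact hp)
  have hη1' : η ≤ 1 := hη2.trans (Real.rpow_le_one hlam.le b5 (by norm_num))
  have hR1 : (1 : ℝ) ≤ lam ^ (-10 : ℝ) :=
    Real.one_le_rpow_of_pos_of_le_one_of_nonpos hlam b5 (by norm_num)
  have cmp := rs_cmp (V' := fun x => 2 * d + c * trc M B (ω x)) (u' := u')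
    (rs_shift (V' := fun x => 2 * d + lam * (ω x - M)) (e' := e - r) hu r (fun x => by
      rw [hr]
      ring) rfl) hu' hη0 hη1' (lam ^ (-10 : ℝ)) hR1 (fun x hx => by
      have h1 := hloc x hx
      unfold trc
      rw [if_pos h1, hc]
      field_simp) (fun x => ph p (x - a)) (fun x => (ph_norm p (x - a)).le)
  have eT : Tg γ0 γ1 η (c ^ 2 * VB) (2 * d + c * mB - (e - r)) p =
      G0 (E0 + lam * M + lam * B * mB - e) / (1 + (∑ i, p i ^ 2) /
                (η * (lam ^ 2 * (B ^ 2 * VB))) * (G1 (E0 + lam * M + lam * B * mB - e) /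
                G0 (E0 + lam * M + lam * B * mB - e) ^ 2)) := by
    obtain ⟨g1, g2, g3⟩ := hγ _ he
    unfold Tg
    rw [ee, g1, g2]
    have : c ^ 2 * VB = lam ^ 2 * (B ^ 2 * VB) := by
      rw [hc]
      ring
    rw [this]
  rw [eT] at key
  -- the numbers
  have n1 : c ^ (1 / 200 : ℝ) ≤ 1 / 2 * lam ^ (1 / 300 : ℝ) := by
    have h1 := hs3 lam hlam b3
    have h2 : c ^ (1 / 200 : ℝ) = lam ^ (6999 / 1400000 - 1 / 300 : ℝ) * lam ^ (1 / 300 : ℝ) := by
      rw [hcp, ← Real.rpow_add hlam]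
      norm_num
    rw [h2]
    exact mul_le_mul_of_nonneg_right h1 (by positivity)
  have n2 : (16 * (d : ℝ) ^ 2 + 2 * d + 2) / lam ^ (-10 : ℝ) * (η⁻¹) ^ 4 ≤
      1 / 2 * lam ^ (1 / 300 : ℝ) := by
    have h1 := hs4 lam hlam b4
    have h2 : η⁻¹ ≤ lam ^ (-(20245 / 10000) : ℝ) := by
      rw [Real.rpow_neg hlam.le]
      exact inv_anti₀ (by positivity) hη1
    have h3 : (η⁻¹) ^ 4 ≤ lam ^ (-(4 * (20245 / 10000)) : ℝ) := by
      refine (pow_le_pow_left₀ (by positivity) h2 4).trans (le_of_eq ?_)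
      rw [← Real.rpow_natCast, ← Real.rpow_mul hlam.le]
      norm_num
    have hD : 0 < 16 * (d : ℝ) ^ 2 + 2 * d + 2 := by positivity
    have e1 : (16 * (d : ℝ) ^ 2 + 2 * d + 2) / lam ^ (-10 : ℝ) =
        (16 * (d : ℝ) ^ 2 + 2 * d + 2) * lam ^ (10 : ℝ) := by
      rw [Real.rpow_neg hlam.le, div_inv_eq_mul]
    rw [e1]
    calc (16 * (d : ℝ) ^ 2 + 2 * d + 2) * lam ^ (10 : ℝ) * (η⁻¹) ^ 4 ≤
        (16 * (d : ℝ) ^ 2 + 2 * d + 2) * lam ^ (10 : ℝ) * lam ^ (-(4 * (20245 / 10000)) : ℝ) := by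
          gcongr
      _ = (16 * (d : ℝ) ^ 2 + 2 * d + 2) * (lam ^ (10 - 4 * (20245 / 10000) - 1 / 300 : ℝ) *
          lam ^ (1 / 300 : ℝ)) := by
          rw [mul_assoc, ← Real.rpow_add hlam, ← Real.rpow_add hlam]
          norm_num
      _ ≤ (16 * (d : ℝ) ^ 2 + 2 * d + 2) * (1 / (2 * (16 * (d : ℝ) ^ 2 + 2 * d + 2)) *
          lam ^ (1 / 300 : ℝ)) := by gcongr
      _ = _ := by field_simp
  have e3 := norm_sub_le_norm_sub_add_norm_sub
    ((η : ℂ) * ∑' x, ph p (x - a) * ((‖u x‖ ^ 2 : ℝ) : ℂ))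
    ((η : ℂ) * ∑' x, ph p (x - a) * ((‖u' x‖ ^ 2 : ℝ) : ℂ))
    ((G0 (E0 + lam * M + lam * B * mB - e) / (1 + (∑ i, p i ^ 2) /
                (η * (lam ^ 2 * (B ^ 2 * VB))) * (G1 (E0 + lam * M + lam * B * mB - e) /
                G0 (E0 + lam * M + lam * B * mB - e) ^ 2)) : ℝ) : ℂ)
  linarith

end Pool.Agent.Q218.UD
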