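import Pool.Agent.Q218.UD.Evo
import Pool.Agent.Q218.UD.Free

/-! Uniqueness of the evolution; the law on the interval. -/

set_option autoImplicit false
set_option linter.unusedSectionVars false

open MeasureTheory Set Filter Topology

namespace Pool.Agent.Q218.UD

open Pool.Agent.W788.LD.Spec (S)
open Pool.Agent.H4R2.LO (Zd)
open Pool.Agent.TH794.QD (Sol)
open Pool.Agent.Q218.AD2 (Psi)

variable {d : ℕ} {V : Zd d → ℝ} {a : Zd d} {ψ ψ' : ℝ → Zd d → ℂ}

/-- **uniqueness of the evolution for an arbitrary potential** -/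
theorem sol_unique (h : Sol d V a ψ) (h' : Sol d V a ψ') : ψ = ψ' := by
  funext t x
  have h1 : ∀ k : ℕ, ‖ψ t x - ψ' t x‖ ≤ 2 * ((2 * d * |t|) ^ k / k.factorial) := fun k =>
    dif' h h' (‖x - a‖ + k) (fun _ _ => rfl) k x le_rfl t
  have h2 := ge_of_tendsto' (fac_lim (2 * d * |t|)) h1
  exact sub_eq_zero.1 (norm_eq_zero.1 (le_antisymm h2 (norm_nonneg _)))

theorem S_conj (u : Zd d → ℂ) (x : Zd d) :
    S (fun y => (starRingEnd ℂ) (u y)) x = (starRingEnd ℂ) (S u x) := by
  unfold S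
  simp only [map_sum, map_add]

/-- the complex conjugate -/
theorem sol_conj (hi : ∀ x, ψ 0 x = if x = a then 1 else 0)
    (ho : ∀ t x, HasDerivAt (fun t => ψ t x) (-Complex.I * (S (ψ t) x + (V x : ℂ) * ψ t x)) t)
    (hn : ∀ t, HasSum (fun x => ‖ψ t x‖ ^ 2) 1) :
    Sol d (fun x => -V x) a fun t x => (starRingEnd ℂ) (ψ t x) where
  init := fun x => by
    rw [hi x]
    split_ifs <;> simp
  ode := fun t x => by
    refine (ho t x).star.congr_deriv ?_
    rw [S_conj, ← starRingEnd_apply, map_mul, map_add, map_mul, map_neg, Complex.conj_I,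
      Complex.conj_ofReal]
    push_cast
    ring
  norm := fun t => by
    simp only [Complex.norm_conj]
    exact hn t

/-- the complex conjugate, the other direction -/
theorem conj_sol (h : Sol d (fun x => -V x) a ψ) (t : ℝ) (x : Zd d) :
    HasDerivAt (fun t => (starRingEnd ℂ) (ψ t x))
      (-Complex.I * (S (fun y => (starRingEnd ℂ) (ψ t y)) x +
        (V x : ℂ) * (starRingEnd ℂ) (ψ t x))) t := by
  refine (h.ode t x).star.congr_deriv ?_
  rw [S_conj, ← starRingEnd_apply, map_mul, map_add, map_mul, map_neg, map_neg, Complex.conj_I,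
    Complex.conj_ofReal]
  push_cast
  ring

theorem law3 (d : ℕ) (hd : 3 ≤ d) (Q s : ℝ) :
    ∫ E in (-(2 * (d : ℝ)))..(2 * (d : ℝ)), D0 d E / Real.pi *
      Real.exp (-(2 * s * (D1 d E / D0 d E ^ 2) * Q)) = Psi (D0 d) (D1 d) Q s := by
  have hle : -(2 * (d : ℝ)) ≤ 2 * (d : ℝ) := by
    have : (0 : ℝ) ≤ d := Nat.cast_nonneg d
    linarith
  unfold Psi
  rw [intervalIntegral.integral_of_le hle, ← integral_Icc_eq_integral_Ioc, ← integral_const_mul]
  have h1 : ∫ E : ℝ, Real.pi⁻¹ * (D0 d E * Real.exp (-(2 * s * (D1 d E / D0 d E ^ 2) * Q))) =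
      ∫ E in Icc (-(2 * (d : ℝ))) (2 * (d : ℝ)),
        Real.pi⁻¹ * (D0 d E * Real.exp (-(2 * s * (D1 d E / D0 d E ^ 2) * Q))) := by
    refine (setIntegral_eq_integral_of_forall_compl_eq_zero fun E hE => ?_).symm
    have h2 : D0 d E = 0 := by
      rw [← D0_ind d hd]
      exact indicator_of_notMem hE _
    rw [h2]
    ring
  rw [h1]
  refine integral_congr_ae (Filter.Eventually.of_forall fun E => ?_)
  simp only
  ring

end Pool.Agent.Q218.UD
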