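import Pool.Agent.Q218.UD.Prof

/-! The diffusion of the evolution at the sites where the potential is locally not too large. -/

set_option autoImplicit false
set_option linter.unusedSectionVars false

open MeasureTheory Set Filter Topology

namespace Pool.Agent.Q218.UD

open Pool.Agent.H4R2.LO (Zd)
open Pool.Agent.TH794.HK
open Pool.Agent.TH794.QE
open Pool.Agent.TH794.QD (Sol La)
open Pool.Agent.Q218.AD (Phi dense_exp ep small_rpow)
open Pool.Agent.Q218.AD2 (Psi psi_meas psi_bd psi_int step3)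

theorem exp_cmp (x r : ℝ) (hx : 0 ≤ x) (hr : 1 / 2 ≤ r) :
    |Real.exp (-(x * r)) - Real.exp (-x)| ≤ |r - 1| := by
  have hq : x * Real.exp (-(x / 2)) ≤ 1 := by
    have h1 := Real.quadratic_le_exp_of_nonneg (show 0 ≤ x / 2 by positivity)
    have h2 : x ≤ Real.exp (x / 2) := by nlinarith [sq_nonneg (x - 2)]
    have h3 : Real.exp (x / 2) * Real.exp (-(x / 2)) = 1 := by
      rw [← Real.exp_add]
      simp
    rw [← h3]
    exact mul_le_mul_of_nonneg_right h2 (Real.exp_pos _).le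
  have key : ∀ m M : ℝ, 1 / 2 ≤ m → m ≤ M →
      |Real.exp (-(x * M)) - Real.exp (-(x * m))| ≤ M - m := by
    intro m M hm hmM
    have h1 : Real.exp (-(x * M)) = Real.exp (-(x * m)) * Real.exp (-(x * (M - m))) := by
      rw [← Real.exp_add]
      congr 1
      ring
    have h2 := Real.add_one_le_exp (-(x * (M - m)))
    have h3 : Real.exp (-(x * (M - m))) ≤ 1 := Real.exp_le_one_iff.2 (by
      have : 0 ≤ x * (M - m) := mul_nonneg hx (by linarith)
      linarith)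
    have h4 : Real.exp (-(x * m)) ≤ Real.exp (-(x / 2)) := Real.exp_le_exp.2 (by nlinarith)
    have h5 : Real.exp (-(x * M)) - Real.exp (-(x * m)) =
        -(Real.exp (-(x * m)) * (1 - Real.exp (-(x * (M - m))))) := by
      rw [h1]
      ring
    rw [h5, abs_neg, abs_of_nonneg (mul_nonneg (Real.exp_pos _).le (by linarith))]
    calc Real.exp (-(x * m)) * (1 - Real.exp (-(x * (M - m)))) ≤
        Real.exp (-(x / 2)) * (x * (M - m)) := by
          apply mul_le_mul h4 (by linarith) (by linarith) (Real.exp_pos _).le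
      _ = x * Real.exp (-(x / 2)) * (M - m) := by ring
      _ ≤ 1 * (M - m) := mul_le_mul_of_nonneg_right hq (by linarith)
      _ = _ := one_mul _
  rcases le_total r 1 with h | h
  · have := key r 1 hr h
    rw [mul_one, abs_sub_comm] at this
    rw [abs_sub_comm r 1, abs_of_nonneg (by linarith : 0 ≤ 1 - r)]
    exact this
  · have := key 1 r (by norm_num) h
    rw [mul_one] at this
    rw [abs_of_nonneg (by linarith : 0 ≤ r - 1)]
    exact this

theorem psi_cmp {G0 G1 : ℝ → ℝ} (m0 : Measurable G0) (m1 : Measurable G1) (i0 : Integrable G0)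
    (n0 : ∀ E, 0 ≤ G0 E) (n1 : ∀ E, 0 ≤ G1 E) (hm : ∫ E, G0 E = Real.pi) (Q s r : ℝ)
    (hQ : 0 ≤ Q) (hs : 0 ≤ s) (hr : 1 / 2 ≤ r) :
    |Psi G0 G1 (r * Q) s - Psi G0 G1 Q s| ≤ |r - 1| := by
  have hpi := Real.pi_pos
  have i1 := psi_int m0 m1 i0 n0 n1 (r * Q) s (by positivity) hs
  have i2 := psi_int m0 m1 i0 n0 n1 Q s hQ hs
  unfold Psi
  rw [← mul_sub, ← integral_sub i1 i2, abs_mul, abs_of_pos (inv_pos.2 hpi),
    inv_mul_le_iff₀ hpi, ← Real.norm_eq_abs]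
  have h1 : ‖∫ E, (G0 E * Real.exp (-(2 * s * (G1 E / G0 E ^ 2) * (r * Q))) -
      G0 E * Real.exp (-(2 * s * (G1 E / G0 E ^ 2) * Q)))‖ ≤ ∫ E, G0 E * |r - 1| := by
    refine norm_integral_le_of_norm_le (i0.mul_const _) (Filter.Eventually.of_forall fun E => ?_)
    rw [← mul_sub, norm_mul, Real.norm_of_nonneg (n0 E), Real.norm_eq_abs]
    refine mul_le_mul_of_nonneg_left ?_ (n0 E)
    have h2 := n1 E
    have h3 := exp_cmp (2 * s * (G1 E / G0 E ^ 2) * Q) r (by positivity) hr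
    have e1 : 2 * s * (G1 E / G0 E ^ 2) * (r * Q) = 2 * s * (G1 E / G0 E ^ 2) * Q * r := by ring
    rw [e1]
    exact h3
  refine h1.trans (le_of_eq ?_)
  rw [integral_mul_const, hm]

theorem eta_range (n : ℕ) (lam T : ℝ) (hlam : 0 < lam)
    (e2 : lam ^ (5 / 10000 : ℝ) ≤ 1 / 2) (e2' : lam ^ (7 / 10000 : ℝ) ≤ 2 / ((n : ℝ) + 1))
    (hT1 : lam ^ (-(2013 / 1000) : ℝ) ≤ T) (hT2 : T ≤ lam ^ (-(2024 / 1000) : ℝ)) (k : ℕ)
    (hk : k ∈ Finset.range n) : lam ^ (20245 / 10000 : ℝ) ≤ ((k : ℝ) + 1) / (2 * T) ∧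
      ((k : ℝ) + 1) / (2 * T) ≤ lam ^ (20123 / 10000 : ℝ) := by
  have hT0 : 0 < T := (Real.rpow_pos_of_pos hlam _).trans_le hT1
  have hkn : (k : ℝ) + 1 ≤ n := by
    have := Finset.mem_range.1 hk
    exact_mod_cast this
  have hk0 : (0 : ℝ) ≤ k := Nat.cast_nonneg k
  constructor
  · rw [le_div_iff₀ (by positivity)]
    have e1 : lam ^ (20245 / 10000 : ℝ) * lam ^ (-(2024 / 1000) : ℝ) = lam ^ (5 / 10000 : ℝ) := by
      rw [← Real.rpow_add hlam]
      norm_num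
    have e3 : lam ^ (20245 / 10000 : ℝ) * T ≤
        lam ^ (20245 / 10000 : ℝ) * lam ^ (-(2024 / 1000) : ℝ) :=
      mul_le_mul_of_nonneg_left hT2 (Real.rpow_pos_of_pos hlam _).le
    linarith
  · rw [div_le_iff₀ (by positivity)]
    have e1 : lam ^ (7 / 10000 : ℝ) * (lam ^ (20123 / 10000 : ℝ) *
        lam ^ (-(2013 / 1000) : ℝ)) = 1 := by
      rw [← Real.rpow_add hlam, ← Real.rpow_add hlam]
      norm_num
    have e3 : lam ^ (20123 / 10000 : ℝ) * lam ^ (-(2013 / 1000) : ℝ) ≤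
        lam ^ (20123 / 10000 : ℝ) * T :=
      mul_le_mul_of_nonneg_left hT1 (Real.rpow_pos_of_pos hlam _).le
    have e4 : 0 < lam ^ (20123 / 10000 : ℝ) * lam ^ (-(2013 / 1000) : ℝ) := by positivity
    rw [le_div_iff₀ (by positivity)] at e2'
    generalize lam ^ (20123 / 10000 : ℝ) * lam ^ (-(2013 / 1000) : ℝ) = X at *
    have e5 : (n : ℝ) + 1 = lam ^ (7 / 10000 : ℝ) * ((n : ℝ) + 1) * X := by
      linear_combination (-((n : ℝ) + 1)) * e1
    have e6 : lam ^ (7 / 10000 : ℝ) * ((n : ℝ) + 1) * X ≤ 2 * X :=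
      mul_le_mul_of_nonneg_right e2' e4.le
    linarith

/-- **quantum diffusion at the good sites** -/
theorem difU (d : ℕ) (hd : 2 ≤ d) (G0 G1 : ℝ → ℝ) (hF : FreeD d G0 G1) (h : ℝ → ℝ)
    (hh : IntegrableOn h (Set.Ioi (0 : ℝ))) (v K ε : ℝ) (hv : 0 < v) (hK : 0 ≤ K) (hε : 0 < ε) :
    ∃ l0 ρ : ℝ, 0 < l0 ∧ 0 < ρ ∧ ∀ lam : ℝ, 0 < lam → lam ≤ l0 →
    ∀ (μ : Measure ℝ), IsProbabilityMeasure μ → ∀ M V mB VB B : ℝ,
    B = lam ^ (-(1 / 7000) : ℝ) → ∫ s, trc M B s ∂μ = mB →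
    ∫ s, (trc M B s - mB) ^ 2 ∂μ = VB → v ≤ V → |B ^ 2 * VB - V| ≤ ρ * V →
      ∃ G : Set (Zd d → ℝ), MeasurableSet G ∧
        1 - Real.exp (-lam ^ (-(1 / 102) : ℝ)) ≤
          (Measure.infinitePi fun _ : Zd d => μ).real G ∧
        ∀ ω ∈ G, ∀ a : Zd d, ‖a‖ ≤ Real.exp (lam ^ (-(1 / 102) : ℝ)) →
          (∀ x, ‖x - a‖ ≤ lam ^ (-10 : ℝ) → |ω x - M| ≤ B) →
          ∀ (E0 : ℝ) (ψ : ℝ → Zd d → ℂ), Sol d (fun x => E0 + lam * ω x) a ψ →
          ∀ T : ℝ, lam ^ (-(2013 / 1000) : ℝ) ≤ T → T ≤ lam ^ (-(2024 / 1000) : ℝ) →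
          ∀ q : Fin d → ℝ, ∑ i, q i ^ 2 ≤ K →
            ‖(∫ s in Set.Ioi (0 : ℝ), ((h s : ℝ) : ℂ) * ∑' x : Zd d, Complex.exp (Complex.I *
                ((Real.sqrt (lam ^ 2 * V / T) * ∑ i, q i * ((x i : ℝ) - a i) : ℝ) : ℂ)) *
                ((‖ψ (s * T) x‖ ^ 2 : ℝ) : ℂ)) -
              ((∫ s in Set.Ioi (0 : ℝ), h s * Psi G0 G1 (∑ i, q i ^ 2) s : ℝ) : ℂ)‖ ≤ ε := by
  have hpi := Real.pi_pos
  have hd0 : (0 : ℝ) < d := by
    have : 0 < d := by omega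
    exact_mod_cast this
  -- the constants
  obtain ⟨n, cf, hn⟩ := dense_exp h hh (ε / 16) (by positivity)
  obtain ⟨C, hC⟩ : ∃ C, C = ∑ k ∈ Finset.range n, |cf k| := ⟨_, rfl⟩
  have hC0 : 0 ≤ C := by rw [hC]; exact Finset.sum_nonneg fun k _ => abs_nonneg _
  obtain ⟨N, hN⟩ : ∃ N, N = ∫ s in Set.Ioi (0 : ℝ), |h s| := ⟨_, rfl⟩
  have hN0 : 0 ≤ N := by rw [hN]; exact integral_nonneg fun s => abs_nonneg _
  obtain ⟨U, hU, hUf, hUX, hUs, γ0, γ1, hγ, hEng⟩ := hF.bulk (ε / (8 * (C + 1))) (by positivity)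
  obtain ⟨l1, hl1, hres⟩ := profU d hd U G0 G1 hF γ0 γ1 hγ hEng (v / 2) (4 * K) (by positivity)
    (by positivity)
  obtain ⟨l2, hl2, hs2⟩ := small_rpow (1 / 300) (ε / (8 * (C + 1)) / (4 * (2 * d) / Real.pi))
    (by norm_num) (by positivity)
  obtain ⟨l3, hl3, hs3⟩ := small_rpow (5 / 10000) (1 / 2) (by norm_num) (by norm_num)
  obtain ⟨l4, hl4, hs4⟩ := small_rpow (7 / 10000) (2 / ((n : ℝ) + 1)) (by norm_num) (by positivity)
  obtain ⟨ρ, hρ⟩ : ∃ ρ, ρ = min (1 / 2) (ε / (16 * (N + 1))) := ⟨_, rfl⟩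
  have hρ0 : 0 < ρ := by rw [hρ]; positivity
  have hρ1 : ρ ≤ 1 / 2 := by rw [hρ]; exact min_le_left _ _
  have hρ2 : ρ ≤ ε / (16 * (N + 1)) := by rw [hρ]; exact min_le_right _ _
  refine ⟨min l1 (min l2 (min l3 l4)), ρ, by positivity, hρ0, ?_⟩
  intro lam hlam hlam0 μ hμ M V mB VB B hB hmB hVB hvV hr
  have hlam1' : lam ≤ l1 := hlam0.trans (min_le_left _ _)
  have hlam2' : lam ≤ l2 := hlam0.trans ((min_le_right _ _).trans (min_le_left _ _))
  have hlam3' : lam ≤ l3 :=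
    hlam0.trans ((min_le_right _ _).trans ((min_le_right _ _).trans (min_le_left _ _)))
  have hlam4' : lam ≤ l4 :=
    hlam0.trans ((min_le_right _ _).trans ((min_le_right _ _).trans (min_le_right _ _)))
  have hV0 : 0 < V := hv.trans_le hvV
  obtain ⟨W, hW⟩ : ∃ W, W = B ^ 2 * VB := ⟨_, rfl⟩
  rw [← hW] at hr
  have hr' := abs_le.1 hr
  have hWV : V / 2 ≤ W := by
    have h2 : ρ * V ≤ 1 / 2 * V := mul_le_mul_of_nonneg_right hρ1 hV0.le
    linarith [hr'.1]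
  have hW0 : 0 < W := by linarith
  obtain ⟨G, hG, hPG, hprof⟩ := hres lam hlam hlam1' μ hμ M mB VB B hB hmB hVB
    (by rw [← hW]; linarith)
  refine ⟨G, hG, hPG, fun ω hω => ?_⟩
  intro a ha hloc E0 ψ hS T hT1 hT2 q hq
  have hT0 : 0 < T := (Real.rpow_pos_of_pos hlam _).trans_le hT1
  obtain ⟨Q, hQ⟩ : ∃ Q, Q = ∑ i, q i ^ 2 := ⟨_, rfl⟩
  have hQ0 : 0 ≤ Q := by rw [hQ]; exact Finset.sum_nonneg fun i _ => sq_nonneg _
  obtain ⟨r, hrd⟩ : ∃ r, r = V / W := ⟨_, rfl⟩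
  have hr1 : |r - 1| ≤ 2 * ρ := by
    have h1 : r - 1 = (V - W) / W := by
      rw [hrd]
      field_simp
    rw [h1, abs_div, abs_of_pos hW0, div_le_iff₀ hW0, abs_sub_comm]
    refine hr.trans ?_
    have h2 : ρ * (V / 2) ≤ ρ * W := mul_le_mul_of_nonneg_left hWV hρ0.le
    linarith
  have hr12 : 1 / 2 ≤ r := by
    rw [hrd, div_le_div_iff₀ (by norm_num) hW0]
    have h2 : ρ * V ≤ 1 / 2 * V := mul_le_mul_of_nonneg_right hρ1 hV0.le
    linarith [hr'.2]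
  have hr2 : r ≤ 2 := by
    rw [hrd, div_le_iff₀ hW0]
    linarith
  obtain ⟨c, hc⟩ : ∃ c : Zd d → ℂ, c = fun x => Complex.exp (Complex.I *
    ((Real.sqrt (lam ^ 2 * V / T) * ∑ i, q i * ((x i : ℝ) - a i) : ℝ) : ℂ)) := ⟨_, rfl⟩
  have hc1 : ∀ x, ‖c x‖ ≤ 1 := by
    intro x
    rw [hc]
    simp only
    rw [mul_comm, Complex.norm_exp_ofReal_mul_I]
  obtain ⟨δ, hδ⟩ : ∃ δ, δ = lam ^ (1 / 300 : ℝ) := ⟨_, rfl⟩
  have hδ0 : 0 ≤ δ := by rw [hδ]; exact (Real.rpow_pos_of_pos hlam _).le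
  -- the range of the scales
  have hη : ∀ k ∈ Finset.range n, lam ^ (20245 / 10000 : ℝ) ≤ ((k : ℝ) + 1) / (2 * T) ∧
      ((k : ℝ) + 1) / (2 * T) ≤ lam ^ (20123 / 10000 : ℝ) := fun k hk =>
    eta_range n lam T hlam (hs3 lam hlam hlam3') (hs4 lam hlam hlam4') hT1 hT2 k hk
  -- the Green functions
  have hgreen : ∀ (e η : ℝ), 0 < η →
      Rs d (fun x => E0 + lam * ω x) a e η (fun x => Complex.I * La ψ e η x) := fun e η hη0 =>
      ⟨Pool.Agent.TH794.QD.La_sum hS e η hη0, Pool.Agent.TH794.QD.La_eq hS e η hη0⟩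
  have hnI : ∀ e η x, ‖Complex.I * La ψ e η x‖ ^ 2 = ‖La ψ e η x‖ ^ 2 := by
    intro e η x
    rw [norm_mul, Complex.norm_I, one_mul]
  obtain ⟨e0, he0⟩ : ∃ e0, e0 = E0 + lam * M + lam * B * mB := ⟨_, rfl⟩
  have key := step3 hS hT0 c hc1 (X := 2 * d) (U := U) (e0 := e0) (δ := δ) (Q := r * Q)
    (ε := ε / 16) (G0 := G0) (G1 := G1) hU hUf hUX (by positivity) hδ0 (by positivity)
    hF.m0 hF.m1 hF.i0 hF.n0 hF.n1 hF.mass hh hn
    (fun k hk e he => by
      obtain ⟨s1, s2⟩ := hη k hk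
      have hk0 : (0 : ℝ) < (k : ℝ) + 1 := by positivity
      obtain ⟨η, hηd⟩ : ∃ η, η = ((k : ℝ) + 1) / (2 * T) := ⟨_, rfl⟩
      rw [← hηd] at s1 s2 ⊢
      have hη0 : 0 < η := by rw [hηd]; positivity
      have hQk : ∑ i, (Real.sqrt (lam ^ 2 * V / T) * q i) ^ 2 = lam ^ 2 * V / T * Q := by
        simp only [mul_pow]
        rw [Real.sq_sqrt (by positivity), ← Finset.mul_sum, ← hQ]
      have hden : η * (lam ^ 2 * W) = lam ^ 2 * W * ((k : ℝ) + 1) / (2 * T) := by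
        rw [hηd]
        ring
      have hrat : lam ^ 2 * V / T * Q / (η * (lam ^ 2 * W)) = 2 * (r * Q) / ((k : ℝ) + 1) := by
        rw [hden, hrd]
        field_simp
      have h1 := hprof ω hω a ha hloc E0 e (by rw [← he0]; exact he) η s1 s2 _
        (hgreen e η hη0)
        (fun i => Real.sqrt (lam ^ 2 * V / T) * q i) (by
          rw [hQk, ← hW, ← div_le_iff₀ (by positivity), hrat, div_le_iff₀ hk0]
          have h2 : r * Q ≤ 2 * K := by
            have : Q ≤ K := by rw [hQ]; exact hq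
            exact mul_le_mul hr2 this hQ0 (by norm_num)
          have h3 : (0 : ℝ) ≤ k := Nat.cast_nonneg k
          have h4 : 0 ≤ K * (k : ℝ) := mul_nonneg hK h3
          have h5 : 4 * K * ((k : ℝ) + 1) = 4 * K + 4 * (K * k) := by ring
          rw [h5]
          linarith)
      rw [hQk, ← he0, ← hW, hrat] at h1
      have hph : ∀ x : Zd d, ph (fun i => Real.sqrt (lam ^ 2 * V / T) * q i) (x - a) = c x := by
        intro x
        unfold ph
        rw [hc]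
        simp only
        rw [Finset.mul_sum]
        congr 3
        refine Finset.sum_congr rfl fun i _ => ?_
        simp only [Pi.sub_apply, Int.cast_sub]
        ring
      simp only [hph, hnI] at h1
      rw [hδ, mul_comm (G1 (e0 - e) / G0 (e0 - e) ^ 2)]
      exact h1)
    (fun k hk e he => by
      obtain ⟨s1, s2⟩ := hη k hk
      obtain ⟨η, hηd⟩ : ∃ η, η = ((k : ℝ) + 1) / (2 * T) := ⟨_, rfl⟩
      rw [← hηd] at s1 s2 ⊢
      have hη0 : 0 < η := by rw [hηd]; positivity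
      have h1 := hprof ω hω a ha hloc E0 e (by rw [← he0]; exact he) η s1 s2 _
        (hgreen e η hη0) (fun _ => 0) (by
        simp only [ne_eq, OfNat.ofNat_ne_zero, not_false_eq_true, zero_pow,
          Finset.sum_const_zero]
        rw [← hW]
        positivity)
      have hph : ∀ x : Zd d, ph (fun _ : Fin d => (0 : ℝ)) x = 1 := by
        intro x
        unfold ph
        simp
      simp only [hph, one_mul, hnI, ne_eq, OfNat.ofNat_ne_zero, not_false_eq_true, zero_pow,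
        Finset.sum_const_zero, zero_div, zero_mul, add_zero, div_one, ← he0] at h1
      rw [← Complex.ofReal_tsum, ← Complex.ofReal_mul, ← Complex.ofReal_sub, Complex.norm_real,
        Real.norm_eq_abs] at h1
      rw [hδ]
      exact h1)
  have ephi : ∀ s, (∑' x : Zd d, Complex.exp (Complex.I *
      ((Real.sqrt (lam ^ 2 * V / T) * ∑ i, q i * ((x i : ℝ) - a i) : ℝ) : ℂ)) *
      ((‖ψ (s * T) x‖ ^ 2 : ℝ) : ℂ)) = Phi ψ c (s * T) := by
    intro s
    unfold Phi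
    rw [hc]
  simp only [ephi]
  rw [← hQ]
  -- the change of the variance
  have hcmp : ‖((∫ s in Set.Ioi (0 : ℝ), h s * Psi G0 G1 (r * Q) s : ℝ) : ℂ) -
      ((∫ s in Set.Ioi (0 : ℝ), h s * Psi G0 G1 Q s : ℝ) : ℂ)‖ ≤ ε / 8 := by
    have j1 : ∀ Q' : ℝ, 0 ≤ Q' → IntegrableOn (fun s => h s * Psi G0 G1 Q' s) (Set.Ioi (0 : ℝ)) := by
      intro Q' hQ'
      refine Integrable.mono' hh.norm
        (hh.aestronglyMeasurable.mul (psi_meas hF.m0 hF.m1 Q').aestronglyMeasurable) ?_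
      filter_upwards [ae_restrict_mem measurableSet_Ioi] with s hs
      have h1 := psi_bd hF.m0 hF.m1 hF.i0 hF.n0 hF.n1 hF.mass Q' s hQ' (le_of_lt hs)
      rw [norm_mul, Real.norm_of_nonneg h1.1]
      exact mul_le_of_le_one_right (norm_nonneg _) h1.2
    rw [← Complex.ofReal_sub, Complex.norm_real,
      ← integral_sub (j1 (r * Q) (by positivity)) (j1 Q hQ0)]
    refine (norm_integral_le_of_norm_le (hh.norm.mul_const (2 * ρ)) ?_).trans ?_
    · filter_upwards [ae_restrict_mem measurableSet_Ioi] with s hs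
      rw [← mul_sub, norm_mul]
      refine mul_le_mul_of_nonneg_left ?_ (norm_nonneg _)
      rw [Real.norm_eq_abs]
      exact (psi_cmp hF.m0 hF.m1 hF.i0 hF.n0 hF.n1 hF.mass Q s r hQ0 (le_of_lt hs) hr12).trans hr1
    · rw [integral_mul_const]
      have h1 : ∫ s in Set.Ioi (0 : ℝ), ‖h s‖ = N := by
        rw [hN]
        rfl
      rw [h1]
      rw [le_div_iff₀ (by positivity)] at hρ2
      have h2 : 0 ≤ ρ * N := by positivity
      have h3 : N * (2 * ρ) = 2 * (ρ * N) := by ring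
      have h4 : ρ * (16 * (N + 1)) = 16 * (ρ * N) + 16 * ρ := by ring
      rw [h3]
      linarith
  have e5 := norm_sub_le_norm_sub_add_norm_sub
    (∫ s in Set.Ioi (0 : ℝ), ((h s : ℝ) : ℂ) * Phi ψ c (s * T))
    ((∫ s in Set.Ioi (0 : ℝ), h s * Psi G0 G1 (r * Q) s : ℝ) : ℂ)
    ((∫ s in Set.Ioi (0 : ℝ), h s * Psi G0 G1 Q s : ℝ) : ℂ)
  refine e5.trans ?_
  rw [← hC] at key
  have k1 : 4 * (2 * (d : ℝ)) / Real.pi * δ ≤ ε / (8 * (C + 1)) := by
    have := hs2 lam hlam hlam2'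
    rw [← hδ, le_div_iff₀ (by positivity)] at this
    linarith
  have k2 : C * (2 * (1 - Real.pi⁻¹ * ∫ E in U, G0 E) +
      4 * (2 * (d : ℝ)) / Real.pi * δ) ≤ C * (3 * (ε / (8 * (C + 1)))) := by
    apply mul_le_mul_of_nonneg_left _ hC0
    linarith
  have k3 : C * (3 * (ε / (8 * (C + 1)))) ≤ 3 / 8 * ε := by
    have : C / (C + 1) ≤ 1 := by
      rw [div_le_one (by positivity)]
      linarith
    calc C * (3 * (ε / (8 * (C + 1)))) = 3 / 8 * ε * (C / (C + 1)) := by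
          field_simp
      _ ≤ 3 / 8 * ε * 1 := mul_le_mul_of_nonneg_left this (by positivity)
      _ = _ := mul_one _
  linarith

end Pool.Agent.Q218.UD
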