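import Pool.Agent.Q218.UD.Cf
import Pool.Agent.Q218.AD.Loc6

/-! Families of exponentially decaying eigenfunctions, for an arbitrary (unbounded) potential. -/

set_option autoImplicit false
set_option linter.unusedSectionVars false

open scoped BigOperators Topology InnerProductSpace
open MeasureTheory Filter Set

namespace Pool.Agent.Q218.UD

open Pool.Agent.W788.LD.Spec (S)
open Pool.Agent.H4R2.LO (Zd dd bx)
open Pool.Agent.H4R2.LO.Em (dd_norm mem_bx card_bx dd_comm)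
open Pool.Agent.TH794.QD (Sol HS hmk hmk_apply hs_sum)
open Pool.Agent.Q218.AD

variable {d : ℕ} {V : Zd d → ℝ} {a : Zd d} {ψ : ℝ → Zd d → ℂ}

/-- **families of eigenfunctions which are concentrated in a set** -/
theorem famU (h : Sol d V a ψ) {ι : Type*} (f : ι → HS d)
    (hf : Orthonormal ℂ f) (E : ι → ℝ)
    (he : ∀ j x, -S (fun y => f j y) x + (V x : ℂ) * f j x = (E j : ℂ) * f j x)
    (A : Set (Zd d)) (δ σ : ℝ) (hσ : 0 < σ) (s : Finset ι)
    (hout : ∀ j ∈ s, ∑' x, Aᶜ.indicator (fun x => ‖f j x‖ ^ 2) x ≤ δ) (t : ℝ) :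
    ∑ j ∈ s, ‖f j a‖ ^ 2 ≤ ms1 ψ A t + σ * (s.card * δ) + σ⁻¹ := by
  have hs := (h.norm t).summable
  obtain ⟨P, hP⟩ : ∃ P : HS d, P = hmk (ψ t) hs := ⟨_, rfl⟩
  have hPx : ∀ x, P x = ψ t x := fun x => by rw [hP]; rfl
  have hP1 : ‖P‖ ^ 2 = 1 := by
    have h4 := hs_sum P
    simp only [hPx] at h4
    exact h4.unique (h.norm t)
  obtain ⟨c, hc⟩ : ∃ c : ι → ℂ, c = fun j => ⟪f j, P⟫_ℂ := ⟨_, rfl⟩
  have hcn : ∀ j, ‖c j‖ = ‖f j a‖ := by
    intro j
    have h1 := cf_eqU h (fun x => f j x) (hs_sum (f j)).summable (E j) (he j) t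
    have h2 : cf (fun x => f j x) ψ t = c j := by
      unfold cf
      rw [hc]
      simp only
      rw [← (hs_inner (f j) P).tsum_eq]
      exact tsum_congr fun x => by rw [hPx]
    rw [← h2, h1, norm_mul, Complex.norm_conj]
    have h3 : -Complex.I * (E j : ℂ) * (t : ℂ) = ((-(E j * t) : ℝ) : ℂ) * Complex.I := by
      push_cast
      ring
    rw [h3, Complex.norm_exp_ofReal_mul_I, one_mul]
  obtain ⟨p, hp⟩ : ∃ p, p = ∑ j ∈ s, ‖f j a‖ ^ 2 := ⟨_, rfl⟩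
  have hpc : ∑ j ∈ s, ‖c j‖ ^ 2 = p := by
    rw [hp]
    exact Finset.sum_congr rfl fun j _ => by rw [hcn]
  have hp0 : 0 ≤ p := by rw [hp]; positivity
  have hp1 : p ≤ 1 := by rw [hp]; exact bess f hf s a
  obtain ⟨w, hw⟩ : ∃ w : HS d, w = ∑ j ∈ s, c j • f j := ⟨_, rfl⟩
  have hwP : ⟪w, P⟫_ℂ = ((p : ℝ) : ℂ) := by
    rw [hw, sum_inner, ← hpc, Complex.ofReal_sum]
    refine Finset.sum_congr rfl fun j _ => ?_
    rw [inner_smul_left]
    have : ⟪f j, P⟫_ℂ = c j := by rw [hc]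
    rw [this, Complex.conj_mul', Complex.ofReal_pow]
  have hww : ‖w‖ ^ 2 = p := by
    have h1 : ⟪w, w⟫_ℂ = ((p : ℝ) : ℂ) := by
      rw [hw, hf.inner_sum, ← hpc, Complex.ofReal_sum]
      refine Finset.sum_congr rfl fun j _ => ?_
      rw [Complex.conj_mul', Complex.ofReal_pow]
    rw [inner_self_eq_norm_sq_to_K] at h1
    apply Complex.ofReal_injective
    rw [← h1]
    push_cast
    rfl
  have hwx : ∀ x, w x = ∑ j ∈ s, c j * f j x := by
    intro x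
    rw [apply_eq w x, hw, inner_sum]
    refine Finset.sum_congr rfl fun j _ => ?_
    rw [inner_smul_right, ← apply_eq]
  have hwo : ∀ x, ‖w x‖ ^ 2 ≤ p * ∑ j ∈ s, ‖f j x‖ ^ 2 := by
    intro x
    rw [hwx, ← hpc]
    refine (pow_le_pow_left₀ (norm_nonneg _) (norm_sum_le _ _) 2).trans ?_
    simp only [norm_mul]
    exact Finset.sum_mul_sq_le_sq_mul_sq s _ _
  -- the sums
  have sA := ms1_summ h A t
  have sw := hs_sum w
  have sIn : Summable fun x => A.indicator (fun x => ‖w x‖ ^ 2) x := sw.summable.indicator A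
  have sOut : Summable fun x => Aᶜ.indicator (fun x => ‖w x‖ ^ 2) x := sw.summable.indicator Aᶜ
  have sOj : ∀ j, Summable fun x => Aᶜ.indicator (fun x => ‖f j x‖ ^ 2) x := fun j =>
    (hs_sum (f j)).summable.indicator Aᶜ
  have bIn : ∑' x, A.indicator (fun x => ‖w x‖ ^ 2) x ≤ p := by
    rw [← hww, ← sw.tsum_eq]
    exact sIn.tsum_le_tsum (fun x => Set.indicator_le_self' (fun _ _ => sq_nonneg _) x) sw.summable
  have bOut : ∑' x, Aᶜ.indicator (fun x => ‖w x‖ ^ 2) x ≤ s.card * δ := by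
    have h1 : ∑' x, ∑ j ∈ s, Aᶜ.indicator (fun x => ‖f j x‖ ^ 2) x ≤ s.card * δ := by
      rw [Summable.tsum_finsetSum fun j _ => sOj j]
      refine (Finset.sum_le_sum hout).trans (le_of_eq ?_)
      rw [Finset.sum_const, nsmul_eq_mul]
    refine le_trans (Summable.tsum_le_tsum (fun x => ?_) sOut (summable_sum fun j _ => sOj j)) h1
    by_cases hx : x ∈ Aᶜ
    · simp only [Set.indicator_of_mem hx]
      refine (hwo x).trans ?_
      exact mul_le_of_le_one_left (Finset.sum_nonneg fun j _ => sq_nonneg _) hp1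
    · simp only [Set.indicator_of_notMem hx, Finset.sum_const_zero, le_refl]
  have sB : HasSum (fun x => Aᶜ.indicator (fun x => ‖ψ t x‖ ^ 2) x)
      (∑' x, Aᶜ.indicator (fun x => ‖ψ t x‖ ^ 2) x) := (hs.indicator Aᶜ).hasSum
  have bB : ∑' x, Aᶜ.indicator (fun x => ‖ψ t x‖ ^ 2) x ≤ 1 := (ms1_bd h Aᶜ t).2
  have hpt : ∀ x, ‖(starRingEnd ℂ) (w x) * P x‖ ≤
      (1 / 2 * A.indicator (fun x => ‖w x‖ ^ 2) x + 1 / 2 * A.indicator (fun x => ‖ψ t x‖ ^ 2) x) +
      (σ / 2 * Aᶜ.indicator (fun x => ‖w x‖ ^ 2) x +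
        σ⁻¹ / 2 * Aᶜ.indicator (fun x => ‖ψ t x‖ ^ 2) x) := by
    intro x
    rw [norm_mul, Complex.norm_conj, hPx]
    by_cases hx : x ∈ A
    · have hx' : x ∉ Aᶜ := fun h => h hx
      rw [Set.indicator_of_mem hx, Set.indicator_of_mem hx, Set.indicator_of_notMem hx',
        Set.indicator_of_notMem hx']
      nlinarith [sq_nonneg (‖w x‖ - ‖ψ t x‖)]
    · have hx' : x ∈ Aᶜ := hx
      rw [Set.indicator_of_notMem hx, Set.indicator_of_notMem hx, Set.indicator_of_mem hx',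
        Set.indicator_of_mem hx']
      have h1 : 0 ≤ σ⁻¹ * (σ * ‖w x‖ - ‖ψ t x‖) ^ 2 := by positivity
      have h2 : σ⁻¹ * (σ * ‖w x‖ - ‖ψ t x‖) ^ 2 = σ * ‖w x‖ ^ 2 - 2 * (‖w x‖ * ‖ψ t x‖) +
          σ⁻¹ * ‖ψ t x‖ ^ 2 := by
        field_simp
        ring
      linarith
  have hmaj : HasSum (fun x => (1 / 2 * A.indicator (fun x => ‖w x‖ ^ 2) x +
      1 / 2 * A.indicator (fun x => ‖ψ t x‖ ^ 2) x) +
      (σ / 2 * Aᶜ.indicator (fun x => ‖w x‖ ^ 2) x +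
        σ⁻¹ / 2 * Aᶜ.indicator (fun x => ‖ψ t x‖ ^ 2) x))
      ((1 / 2 * (∑' x, A.indicator (fun x => ‖w x‖ ^ 2) x) + 1 / 2 * ms1 ψ A t) +
      (σ / 2 * (∑' x, Aᶜ.indicator (fun x => ‖w x‖ ^ 2) x) +
        σ⁻¹ / 2 * ∑' x, Aᶜ.indicator (fun x => ‖ψ t x‖ ^ 2) x)) :=
    ((sIn.hasSum.mul_left _).add (sA.hasSum.mul_left _)).add
      ((sOut.hasSum.mul_left _).add (sB.mul_left _))
  have hfin := tsum_of_norm_bounded hmaj hpt
  rw [(hs_inner w P).tsum_eq, hwP, Complex.norm_real, Real.norm_of_nonneg hp0] at hfin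
  rw [← hp]
  have hσ' : 0 < σ⁻¹ := inv_pos.2 hσ
  have h2 : σ / 2 * (∑' x, Aᶜ.indicator (fun x => ‖w x‖ ^ 2) x) ≤ σ / 2 * (s.card * δ) :=
    mul_le_mul_of_nonneg_left bOut (by positivity)
  have h3 : σ⁻¹ / 2 * (∑' x, Aᶜ.indicator (fun x => ‖ψ t x‖ ^ 2) x) ≤ σ⁻¹ / 2 * 1 :=
    mul_le_mul_of_nonneg_left bB (by positivity)
  linarith

/-- **families of exponentially decaying eigenfunctions** -/
theorem exp_famU (hd : 1 ≤ d) (h : Sol d V a ψ) {ι : Type*}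
    (f : ι → HS d) (hf : Orthonormal ℂ f) (E : ι → ℝ)
    (he : ∀ j x, -S (fun y => f j y) x + (V x : ℂ) * f j x = (E j : ℂ) * f j x)
    (m : ℝ) (hm : 0 < m) (hm1 : m ≤ 1) (K R : ℝ) (hR : 0 ≤ R) (c : ι → Zd d)
    (hdec : ∀ j x, ‖f j x‖ ≤ K * Real.exp (-(m * ‖x - c j‖)))
    (hq : K ^ 2 * Real.exp (-(m * (R / 8))) * (Cw d / m ^ (d + 1)) ≤ 1 / 2)
    (σ : ℝ) (hσ : 0 < σ) (s : Finset ι) (t : ℝ) :
    ∑ j ∈ s, ‖f j a‖ ^ 2 ≤ ms1 ψ {x | ‖x - a‖ ≤ R} t +
      σ * (2 * (2 * R + 1) ^ d * (K ^ 2 * Real.exp (-(m * (R / 2))) * (Cw d / m ^ (d + 1)))) + σ⁻¹ +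
      2 * (K ^ 2 * Real.exp (-(m * (3 * R / 8))) * (Cw d / m ^ (d + 1))) := by
  classical
  have hW0 : 0 ≤ Cw d / m ^ (d + 1) := by
    unfold Cw
    positivity
  obtain ⟨W, hW⟩ : ∃ W, W = Cw d / m ^ (d + 1) := ⟨_, rfl⟩
  rw [← hW] at hq hW0 ⊢
  have hmono : ∀ r1 r2 : ℝ, r2 ≤ r1 → K ^ 2 * Real.exp (-(m * r1)) * W ≤
      K ^ 2 * Real.exp (-(m * r2)) * W := by
    intro r1 r2 hr
    gcongr
  rw [← Finset.sum_filter_add_sum_filter_not s fun j => ‖c j - a‖ ≤ R / 2]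
  -- the near centres
  have hnear : ∑ j ∈ s.filter fun j => ‖c j - a‖ ≤ R / 2, ‖f j a‖ ^ 2 ≤
      ms1 ψ {x | ‖x - a‖ ≤ R} t +
      σ * (2 * (2 * R + 1) ^ d * (K ^ 2 * Real.exp (-(m * (R / 2))) * W)) + σ⁻¹ := by
    have hout : ∀ j ∈ s.filter fun j => ‖c j - a‖ ≤ R / 2,
        ∑' x, ({x : Zd d | ‖x - a‖ ≤ R}ᶜ).indicator (fun x => ‖f j x‖ ^ 2) x ≤
          K ^ 2 * Real.exp (-(m * (R / 2))) * W := by
      intro j hj
      have hj' := (Finset.mem_filter.1 hj).2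
      rw [hW]
      exact out_mass hd m hm hm1 (f j) (c j) a K R (R / 2) (hdec j) (by linarith)
    have h1 := famU h f hf E he {x | ‖x - a‖ ≤ R} _ σ hσ _ hout t
    have h2 : ((s.filter fun j => ‖c j - a‖ ≤ R / 2).card : ℝ) ≤ 2 * (2 * R + 1) ^ d := by
      have h3 := card_le f hf (bx a ⌊R⌋₊) (s.filter fun j => ‖c j - a‖ ≤ R / 2) (fun j hj => by
        rw [ball_eq a R hR]
        exact (hout j hj).trans ((hmono _ _ (by linarith)).trans hq))
      have h4 := ball_card a R hR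
      linarith
    have h3 : 0 ≤ K ^ 2 * Real.exp (-(m * (R / 2))) * W := by positivity
    have h4 : σ * (((s.filter fun j => ‖c j - a‖ ≤ R / 2).card : ℝ) *
        (K ^ 2 * Real.exp (-(m * (R / 2))) * W)) ≤
        σ * (2 * (2 * R + 1) ^ d * (K ^ 2 * Real.exp (-(m * (R / 2))) * W)) := by gcongr
    linarith
  -- the far centres
  have hfar : ∑ j ∈ s.filter fun j => ¬ ‖c j - a‖ ≤ R / 2, ‖f j a‖ ^ 2 ≤
      2 * (K ^ 2 * Real.exp (-(m * (3 * R / 8))) * W) := by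
    have key : ∀ j, Real.exp (-(m * ‖a - c j‖)) ≤
        2 * Real.exp (m * (R / 8)) * ∑' x, ‖f j x‖ ^ 2 * Real.exp (-(m * ‖x - a‖)) := by
      intro j
      have h1 := hs_sum (f j)
      rw [hf.1 j, one_pow] at h1
      have h2 := out_mass hd m hm hm1 (f j) (c j) (c j) K (R / 8) (R / 8) (hdec j) (by
        rw [sub_self, norm_zero]
        linarith)
      rw [← hW] at h2
      obtain ⟨A, hA⟩ : ∃ A : Set (Zd d), A = {x : Zd d | ‖x - c j‖ ≤ R / 8} := ⟨_, rfl⟩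
      rw [← hA] at h2
      have sA : Summable fun x => A.indicator (fun x => ‖f j x‖ ^ 2) x := h1.summable.indicator A
      have sA' : Summable fun x => Aᶜ.indicator (fun x => ‖f j x‖ ^ 2) x := h1.summable.indicator Aᶜ
      have h3 : (∑' x, A.indicator (fun x => ‖f j x‖ ^ 2) x) +
          ∑' x, Aᶜ.indicator (fun x => ‖f j x‖ ^ 2) x = 1 := by
        rw [← sA.tsum_add sA', ← h1.tsum_eq]
        refine tsum_congr fun x => ?_
        exact congrFun (Set.indicator_self_add_compl A fun x => ‖f j x‖ ^ 2) x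
      have h4 : (1 / 2 : ℝ) ≤ ∑' x, A.indicator (fun x => ‖f j x‖ ^ 2) x := by linarith
      have sE : Summable fun x => ‖f j x‖ ^ 2 * Real.exp (-(m * ‖x - a‖)) := by
        refine Summable.of_nonneg_of_le (fun x => by positivity) (fun x => ?_) h1.summable
        refine mul_le_of_le_one_right (sq_nonneg _) (Real.exp_le_one_iff.2 ?_)
        have := mul_nonneg hm.le (norm_nonneg (x - a))
        linarith
      have h5 : (∑' x, A.indicator (fun x => ‖f j x‖ ^ 2) x) * (Real.exp (-(m * (R / 8))) *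
          Real.exp (-(m * ‖a - c j‖))) ≤ ∑' x, ‖f j x‖ ^ 2 * Real.exp (-(m * ‖x - a‖)) := by
        rw [← tsum_mul_right]
        refine (sA.mul_right _).tsum_le_tsum (fun x => ?_) sE
        by_cases hx : x ∈ A
        · rw [Set.indicator_of_mem hx, ← Real.exp_add]
          refine mul_le_mul_of_nonneg_left (Real.exp_le_exp.2 ?_) (sq_nonneg _)
          have hx' : ‖x - c j‖ ≤ R / 8 := by
            rw [hA] at hx
            exact hx
          have h6 : ‖x - a‖ ≤ ‖x - c j‖ + ‖a - c j‖ := by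
            have := norm_add_le (x - c j) (c j - a)
            rw [sub_add_sub_cancel] at this
            rwa [norm_sub_rev a (c j)]
          have h7 : m * ‖x - a‖ ≤ m * (R / 8 + ‖a - c j‖) :=
            mul_le_mul_of_nonneg_left (by linarith) hm.le
          linarith
        · rw [Set.indicator_of_notMem hx, zero_mul]
          positivity
      have h6 : 1 / 2 * (Real.exp (-(m * (R / 8))) * Real.exp (-(m * ‖a - c j‖))) ≤
          ∑' x, ‖f j x‖ ^ 2 * Real.exp (-(m * ‖x - a‖)) :=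
        (mul_le_mul_of_nonneg_right h4 (by positivity)).trans h5
      have h7 : Real.exp (m * (R / 8)) * Real.exp (-(m * (R / 8))) = 1 := by
        rw [← Real.exp_add]
        simp
      calc Real.exp (-(m * ‖a - c j‖)) = 2 * Real.exp (m * (R / 8)) *
            (1 / 2 * (Real.exp (-(m * (R / 8))) * Real.exp (-(m * ‖a - c j‖)))) := by
            linear_combination (-Real.exp (-(m * ‖a - c j‖))) * h7
        _ ≤ _ := mul_le_mul_of_nonneg_left h6 (by positivity)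
    have h1 : ∀ j ∈ s.filter fun j => ¬ ‖c j - a‖ ≤ R / 2, ‖f j a‖ ^ 2 ≤
        K ^ 2 * Real.exp (-(m * (R / 2))) * (2 * Real.exp (m * (R / 8)) *
          ∑' x, ‖f j x‖ ^ 2 * Real.exp (-(m * ‖x - a‖))) := by
      intro j hj
      have hj' := (Finset.mem_filter.1 hj).2
      rw [not_le, norm_sub_rev] at hj'
      calc ‖f j a‖ ^ 2 ≤ (K * Real.exp (-(m * ‖a - c j‖))) ^ 2 :=
            pow_le_pow_left₀ (norm_nonneg _) (hdec j a) 2
        _ = K ^ 2 * Real.exp (-(m * ‖a - c j‖)) * Real.exp (-(m * ‖a - c j‖)) := by ring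
        _ ≤ K ^ 2 * Real.exp (-(m * (R / 2))) * (2 * Real.exp (m * (R / 8)) *
          ∑' x, ‖f j x‖ ^ 2 * Real.exp (-(m * ‖x - a‖))) := by
            have := key j
            gcongr
    refine (Finset.sum_le_sum h1).trans ?_
    rw [← Finset.mul_sum, ← Finset.mul_sum]
    have sE : ∀ j, Summable fun x => ‖f j x‖ ^ 2 * Real.exp (-(m * ‖x - a‖)) := fun j => by
      refine Summable.of_nonneg_of_le (fun x => by positivity) (fun x => ?_) (hs_sum (f j)).summable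
      refine mul_le_of_le_one_right (sq_nonneg _) (Real.exp_le_one_iff.2 ?_)
      have := mul_nonneg hm.le (norm_nonneg (x - a))
      linarith
    have h2 : ∑ j ∈ s.filter fun j => ¬ ‖c j - a‖ ≤ R / 2,
        ∑' x, ‖f j x‖ ^ 2 * Real.exp (-(m * ‖x - a‖)) ≤ W := by
      rw [← Summable.tsum_finsetSum fun j _ => sE j]
      obtain ⟨w1, w2⟩ := W_tsum hd m hm hm1 a
      rw [← hW] at w2
      refine le_trans (Summable.tsum_le_tsum (fun x => ?_) (summable_sum fun j _ => sE j) w1) w2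
      rw [← Finset.sum_mul]
      exact mul_le_of_le_one_left (Real.exp_pos _).le (bess f hf _ x)
    have h3 : Real.exp (-(m * (R / 2))) * Real.exp (m * (R / 8)) = Real.exp (-(m * (3 * R / 8))) := by
      rw [← Real.exp_add]
      congr 1
      ring
    calc K ^ 2 * Real.exp (-(m * (R / 2))) * (2 * Real.exp (m * (R / 8)) *
        ∑ j ∈ s.filter fun j => ¬ ‖c j - a‖ ≤ R / 2,
          ∑' x, ‖f j x‖ ^ 2 * Real.exp (-(m * ‖x - a‖))) ≤
        K ^ 2 * Real.exp (-(m * (R / 2))) * (2 * Real.exp (m * (R / 8)) * W) := by gcongr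
      _ = 2 * (K ^ 2 * (Real.exp (-(m * (R / 2))) * Real.exp (m * (R / 8))) * W) := by ring
      _ = _ := by rw [h3]
  linarith

/-- **from the characteristic function to the eigenfunctions** -/
theorem loc_mainU (hd : 1 ≤ d) (h : Sol d V a ψ) {ι : Type*}
    (f : ι → HS d) (hf : Orthonormal ℂ f) (E : ι → ℝ)
    (he : ∀ j x, -S (fun y => f j y) x + (V x : ℂ) * f j x = (E j : ℂ) * f j x)
    (m : ℝ) (hm : 0 < m) (hm1 : m ≤ 1) (K R : ℝ) (hR : 0 ≤ R) (c : ι → Zd d)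
    (hdec : ∀ j x, ‖f j x‖ ≤ K * Real.exp (-(m * ‖x - c j‖)))
    (hq : K ^ 2 * Real.exp (-(m * (R / 8))) * (Cw d / m ^ (d + 1)) ≤ 1 / 2)
    (σ : ℝ) (hσ : 0 < σ) (i0 : Fin d) (N : ℕ) (hN : 1 ≤ N) (q0 T β ε1 : ℝ) (hq0 : 0 < q0)
    (hβ0 : 0 ≤ β) (hβ : β * (q0 * R) * N ≤ 1) (hε1 : 0 ≤ ε1)
    (hyp : ∀ q : Fin d → ℝ, q0 ^ 2 ≤ ∑ i, q i ^ 2 → ∑ i, q i ^ 2 ≤ (N * q0) ^ 2 →
      ‖∫ s in Ioc (1 : ℝ) 2, Phi ψ (fun x => Complex.exp (Complex.I *
        ((β * ∑ i, q i * ((x i : ℝ) - a i) : ℝ) : ℂ))) (s * T)‖ ≤ ε1)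
    (s : Finset ι) :
    ∑ j ∈ s, ‖f j a‖ ^ 2 ≤ 4 / N + 4 * ε1 +
      (σ * (2 * (2 * R + 1) ^ d * (K ^ 2 * Real.exp (-(m * (R / 2))) * (Cw d / m ^ (d + 1)))) + σ⁻¹ +
      2 * (K ^ 2 * Real.exp (-(m * (3 * R / 8))) * (Cw d / m ^ (d + 1)))) := by
  obtain ⟨θ, hθ⟩ : ∃ θ : Zd d → ℝ, θ = fun x => β * (q0 * ((x i0 : ℝ) - a i0)) := ⟨_, rfl⟩
  have h1 : ∫ s in Ioc (1 : ℝ) 2, ms1 ψ {x | |θ x| * N ≤ 1} (s * T) ≤ 4 / N + 4 * ε1 := by
    refine slab h N hN θ hε1 fun k hk l hl hkl => ?_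
    have e1 : ∀ x : Zd d, (((k : ℝ) - l) * θ x : ℝ) = β * ∑ i, (Pi.single i0 (((k : ℝ) - l) * q0) :
        Fin d → ℝ) i * ((x i : ℝ) - a i) := by
      intro x
      rw [Finset.sum_eq_single i0]
      · rw [hθ, Pi.single_eq_same]
        ring
      · intro i _ hi
        rw [Pi.single_eq_of_ne hi, zero_mul]
      · intro hi
        exact absurd (Finset.mem_univ i0) hi
    have e2 : ∑ i, (Pi.single i0 (((k : ℝ) - l) * q0) : Fin d → ℝ) i ^ 2 =
        (((k : ℝ) - l) * q0) ^ 2 := by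
      rw [Finset.sum_eq_single i0]
      · rw [Pi.single_eq_same]
      · intro i _ hi
        rw [Pi.single_eq_of_ne hi]
        ring
      · intro hi
        exact absurd (Finset.mem_univ i0) hi
    simp only [e1]
    have hkN : (k : ℝ) < N := by exact_mod_cast Finset.mem_range.1 hk
    have hlN : (l : ℝ) < N := by exact_mod_cast Finset.mem_range.1 hl
    have hk0 : (0 : ℝ) ≤ k := Nat.cast_nonneg k
    have hl0 : (0 : ℝ) ≤ l := Nat.cast_nonneg l
    refine hyp _ ?_ ?_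
    · rw [e2, mul_pow]
      have h2 : (1 : ℝ) ≤ ((k : ℝ) - l) ^ 2 := by
        have h3 : (1 : ℤ) ≤ ((k : ℤ) - l) ^ 2 := by
          have h4 : ((k : ℤ) - l) ≠ 0 := by
            intro h5
            apply hkl
            omega
          have h5 : 0 < ((k : ℤ) - l) ^ 2 := by positivity
          omega
        exact_mod_cast h3
      nlinarith [sq_nonneg q0]
    · rw [e2, mul_pow, mul_pow]
      refine mul_le_mul_of_nonneg_right ?_ (sq_nonneg _)
      apply sq_le_sq'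
      · linarith
      · linarith
  have hsub : {x : Zd d | ‖x - a‖ ≤ R} ⊆ {x | |θ x| * N ≤ 1} := by
    intro x hx
    rw [Set.mem_ofPred_eq] at hx ⊢
    refine le_trans ?_ hβ
    refine mul_le_mul_of_nonneg_right ?_ (Nat.cast_nonneg _)
    rw [hθ]
    simp only
    rw [abs_mul, abs_of_nonneg hβ0, abs_mul, abs_of_pos hq0]
    refine mul_le_mul_of_nonneg_left (mul_le_mul_of_nonneg_left ?_ hq0.le) hβ0
    have h2 := norm_le_pi_norm (x - a) i0
    rw [Pi.sub_apply, Int.norm_eq_abs] at h2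
    push_cast at h2
    linarith
  obtain ⟨Y, hY⟩ : ∃ Y, Y = σ * (2 * (2 * R + 1) ^ d * (K ^ 2 * Real.exp (-(m * (R / 2))) *
      (Cw d / m ^ (d + 1)))) + σ⁻¹ +
      2 * (K ^ 2 * Real.exp (-(m * (3 * R / 8))) * (Cw d / m ^ (d + 1))) := ⟨_, rfl⟩
  obtain ⟨p, hp⟩ : ∃ p, p = ∑ j ∈ s, ‖f j a‖ ^ 2 := ⟨_, rfl⟩
  have h2 : ∀ t, p ≤ ms1 ψ {x | |θ x| * N ≤ 1} t + Y := by
    intro t
    have h3 := exp_famU hd h f hf E he m hm hm1 K R hR c hdec hq σ hσ s t
    have h4 := ms1_mono h _ _ hsub t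
    rw [hp, hY]
    linarith
  rw [← hp, ← hY]
  obtain ⟨μ, hμ⟩ : ∃ μ : Measure ℝ, μ = volume.restrict (Ioc (1 : ℝ) 2) := ⟨_, rfl⟩
  have hfin : IsFiniteMeasure μ := by
    rw [hμ]
    exact ⟨by simp⟩
  have hμ1 : μ.real univ = 1 := by
    rw [hμ, measureReal_restrict_apply_univ, Real.volume_real_Ioc_of_le (by norm_num)]
    norm_num
  rw [← hμ] at h1
  have iM : Integrable (fun s => ms1 ψ {x | |θ x| * N ≤ 1} (s * T)) μ :=
    Integrable.mono' (integrable_const 1)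
      ((ms1_meas h _).comp (by fun_prop : Measurable fun s : ℝ => s * T)).aestronglyMeasurable
      (Filter.Eventually.of_forall fun s => by
        rw [Real.norm_of_nonneg (ms1_bd h _ _).1]
        exact (ms1_bd h _ _).2)
  have h3 : ∫ _s : ℝ, p ∂μ ≤ ∫ s, (ms1 ψ {x | |θ x| * N ≤ 1} (s * T) + Y) ∂μ :=
    integral_mono (integrable_const _) (iM.add (integrable_const _)) fun s => h2 (s * T)
  rw [integral_const, hμ1, one_smul, integral_add iM (integrable_const _), integral_const, hμ1,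
    one_smul] at h3
  linarith

end Pool.Agent.Q218.UD
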